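import Pool.Agent.Lib.MP_bd1451_an.Defs

/-!
# TARGET 3: the cover property by Hahn-Banach
-/

open scoped BigOperators RealInnerProductSpace

namespace Pool.Agent.Lib.MP_bd1451_an

lemma comb_add {N d : ℕ} (B : Fin N → E d) (x y : Fin N → ℝ) :
    comb B (x + y) = comb B x + comb B y := by
  simp [comb, add_smul, Finset.sum_add_distrib]

lemma comb_smul {N d : ℕ} (B : Fin N → E d) (c : ℝ) (x : Fin N → ℝ) :
    comb B (c • x) = c • comb B x := by
  simp [comb, mul_smul, Finset.smul_sum]

lemma comb_single {N d : ℕ} (B : Fin N → E d) (c : ℝ) (ω : Fin N) :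
    comb B (Pi.single ω c) = c • B ω := by
  unfold comb
  rw [Finset.sum_eq_single ω]
  · simp
  · intro b _ hb
    simp [Pi.single_eq_of_ne hb]
  · intro h; exact absurd (Finset.mem_univ _) h

/-- `comb` as a linear map -/
noncomputable def combL {N d : ℕ} (B : Fin N → E d) : (Fin N → ℝ) →ₗ[ℝ] E d where
  toFun := comb B
  map_add' := comb_add B
  map_smul' := comb_smul B

/-- TARGET 3 -/
theorem coverOfRaw : CoverOfRaw := by
  intro N d B t ht hraw b
  by_contra hcon
  push Not at hcon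
  set κ : ℝ := 1 / t * ‖b‖ with hκ
  have hκ0 : 0 ≤ κ := by positivity
  set K : Set (Fin N → ℝ) := {y | ∑ ω, |y ω| ≤ κ} with hK
  have hKconv : Convex ℝ K := by
    intro x hx y hy a c ha hc hac
    simp only [hK, Set.mem_ofPred_eq, Pi.add_apply, Pi.smul_apply, smul_eq_mul] at hx hy ⊢
    calc ∑ ω, |a * x ω + c * y ω| ≤ ∑ ω, (a * |x ω| + c * |y ω|) := by
          refine Finset.sum_le_sum fun ω _ => (abs_add_le _ _).trans ?_
          rw [abs_mul, abs_mul, abs_of_nonneg ha, abs_of_nonneg hc]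
      _ = a * ∑ ω, |x ω| + c * ∑ ω, |y ω| := by
          rw [Finset.sum_add_distrib, Finset.mul_sum, Finset.mul_sum]
      _ ≤ a * κ + c * κ := add_le_add (mul_le_mul_of_nonneg_left hx ha)
          (mul_le_mul_of_nonneg_left hy hc)
      _ = κ := by rw [← add_mul, hac, one_mul]
  have hKclosed : IsClosed K := by
    refine isClosed_le ?_ continuous_const
    exact continuous_finsetSum _ (fun ω _ => (continuous_apply ω).abs)
  have hKbdd : Bornology.IsBounded K := by
    refine (Metric.isBounded_closedBall (x := (0 : Fin N → ℝ)) (r := κ)).subset ?_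
    intro y hy
    rw [mem_closedBall_zero_iff, pi_norm_le_iff_of_nonneg hκ0]
    intro ω
    rw [Real.norm_eq_abs]
    exact (Finset.single_le_sum (f := fun ω => |y ω|) (fun i _ => abs_nonneg _)
      (Finset.mem_univ ω)).trans hy
  have hKcomp : IsCompact K := Metric.isCompact_of_isClosed_isBounded hKclosed hKbdd
  have hLcont : Continuous (combL B) := LinearMap.continuous_of_finiteDimensional _
  have hC : IsCompact (combL B '' K) := hKcomp.image hLcont
  have hCconv : Convex ℝ (combL B '' K) := hKconv.linear_image _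
  have hb : b ∉ combL B '' K := by
    rintro ⟨y, hy, hyb⟩
    have h1 := hcon y hyb
    exact absurd hy (not_le.2 h1)
  obtain ⟨f, u, hfu, hub⟩ := geometric_hahn_banach_closed_point hCconv hC.isClosed hb
  set w := (InnerProductSpace.toDual ℝ (E d)).symm f with hw
  have hfw : ∀ x, f x = ⟪w, x⟫ := fun x => by
    rw [hw, InnerProductSpace.toDual_symm_apply]
  obtain ⟨ω, hω⟩ := hraw w
  have hmem : ∀ c : ℝ, |c| ≤ κ → c • B ω ∈ combL B '' K := by
    intro c hc
    refine ⟨Pi.single ω c, ?_, comb_single B c ω⟩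
    simp only [hK, Set.mem_ofPred_eq]
    rw [Finset.sum_eq_single ω]
    · simpa using hc
    · intro b _ hb; simp [Pi.single_eq_of_ne hb]
    · intro h; exact absurd (Finset.mem_univ _) h
  have h1 := hfu _ (hmem κ (by rw [abs_of_nonneg hκ0]))
  have h2 := hfu _ (hmem (-κ) (by rw [abs_neg, abs_of_nonneg hκ0]))
  rw [hfw, inner_smul_right, real_inner_comm] at h1 h2
  rw [hfw] at hub
  have h3 : κ * |⟪B ω, w⟫| < u := by
    rcases abs_cases ⟪B ω, w⟫ with ⟨h, _⟩ | ⟨h, _⟩
    · rw [h]; exact h1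
    · rw [h]; linarith
  have h4 : ⟪w, b⟫ ≤ ‖w‖ * ‖b‖ := real_inner_le_norm _ _
  have h5 : κ * (t * ‖w‖) ≤ κ * |⟪B ω, w⟫| := mul_le_mul_of_nonneg_left hω hκ0
  have h6 : κ * (t * ‖w‖) = ‖w‖ * ‖b‖ := by
    rw [hκ]; field_simp
  linarith

end Pool.Agent.Lib.MP_bd1451_an
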