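import Mathlib

/-!
# MP_bd1451_an (S05962, negative answer): interface

`B : Fin N → EuclideanSpace ℝ (Fin d)` is a (random) matrix, `X = {x : ∑ x ω • B ω = 0} ⊆ ℓ₁^N`.
-/

set_option autoImplicit false
open scoped BigOperators RealInnerProductSpace

namespace Pool.Agent.Lib.MP_bd1451_an

/-- Euclidean space `ℝ^d`. -/
abbrev E (d : ℕ) := EuclideanSpace ℝ (Fin d)

/-- `B^T x`. -/
noncomputable def comb {N d : ℕ} (B : Fin N → E d) (x : Fin N → ℝ) : E d := ∑ ω, x ω • B ω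

/-! ### Raw properties of the random matrix -/

/-- every direction `w` is seen by some row with inner product `≥ t ‖w‖` -/
def RawCover {N d : ℕ} (B : Fin N → E d) (t : ℝ) : Prop :=
  ∀ w : E d, ∃ ω, t * ‖w‖ ≤ |⟪B ω, w⟫|

/-- operator norm of `B` is at most `8 √N` -/
def RawOp {N d : ℕ} (B : Fin N → E d) : Prop :=
  ∀ w : E d, ∑ ω, ⟪B ω, w⟫ ^ 2 ≤ 64 * N * ‖w‖ ^ 2

/-- upper bound for `m`-tuples `t` which are contractions `ℓ₂^m → ℝ^d`, all row sets `S` -/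
def RawW {N d : ℕ} (B : Fin N → E d) (m : ℕ) : Prop :=
  ∀ (S : Finset (Fin N)) (t : Fin m → E d),
    (∀ c : Fin m → ℝ, ‖∑ i, c i • t i‖ ^ 2 ≤ ∑ i, c i ^ 2) →
    ∑ ω ∈ S, ∑ i, ⟪B ω, t i⟫ ^ 2 ≤ 48 * m * (S.card + d)

/-- lower bound for orthonormal `m`-tuples in `ℝ^S`, `|S| ≤ s₀` -/
def RawY {N d : ℕ} (B : Fin N → E d) (m s₀ : ℕ) : Prop :=
  ∀ (S : Finset (Fin N)), S.card ≤ s₀ → ∀ y : Fin m → EuclideanSpace ℝ (Fin N),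
    Orthonormal ℝ y → (∀ i, ∀ ω, ω ∉ S → y i ω = 0) →
    (m * d : ℝ) / 20 ≤ ∑ i, ‖comb B (fun ω => y i ω)‖ ^ 2

/-- TARGET 1 (random matrix). -/
def RandomMatrix : Prop :=
  ∀ t : ℝ, 0 < t → ∃ R : ℕ, 2 ≤ R ∧ ∃ d₀ : ℕ, ∀ d : ℕ, d₀ ≤ d →
    ∃ B : Fin (R * d) → E d, RawCover B t ∧ RawOp B ∧ RawW B (7 * R) ∧
      RawY B (7 * R) (d / 64) ∧ RawY B 1 (d / (400 * R))

/-! ### Derived properties -/

/-- `|∑_{ω ∈ S} B ω ⊗ V ω|²` -/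
noncomputable def Q {N d : ℕ} {ι : Type} [Fintype ι] (B : Fin N → E d) (V : Fin N → ι → ℝ)
    (S : Finset (Fin N)) : ℝ := ∑ i, ‖∑ ω ∈ S, V ω i • B ω‖ ^ 2

/-- the operator `h ↦ (⟨V ω, h⟩)_ω` has norm² `≤ μ` -/
def OpBd {N : ℕ} {ι : Type} [Fintype ι] (V : Fin N → ι → ℝ) (μ : ℝ) : Prop :=
  ∀ h : ι → ℝ, ∑ ω, (∑ i, V ω i * h i) ^ 2 ≤ μ * ∑ i, h i ^ 2

/-- primal form of the cover property -/
def Cover {N d : ℕ} (B : Fin N → E d) (κ : ℝ) : Prop :=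
  ∀ b : E d, ∃ y : Fin N → ℝ, comb B y = b ∧ ∑ ω, |y ω| ≤ κ * ‖b‖

/-- operator norm of `B^T`, tensorised -/
def P0 {N d : ℕ} (B : Fin N → E d) : Prop :=
  ∀ (ι : Type) [Fintype ι] (V : Fin N → ι → ℝ) (S : Finset (Fin N)),
    Q B V S ≤ 64 * N * ∑ ω ∈ S, ∑ i, V ω i ^ 2

/-- upper bound for spread families -/
def P1 {N d : ℕ} (B : Fin N → E d) (m : ℕ) : Prop :=
  ∀ (ι : Type) [Fintype ι] (V : Fin N → ι → ℝ) (μ : ℝ), OpBd V μ → 0 ≤ μ → ∀ S : Finset (Fin N),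
    Q B V S ≤ 48 * (S.card + d) * (∑ ω ∈ S, ∑ i, V ω i ^ 2 + m * μ)

/-- lower bound for spread families on small sets -/
def P2 {N d : ℕ} (B : Fin N → E d) (m : ℕ) : Prop :=
  ∀ (ι : Type) [Fintype ι] (V : Fin N → ι → ℝ) (μ : ℝ), OpBd V μ → 0 ≤ μ → ∀ S : Finset (Fin N),
    S.card ≤ d / 64 →
    (d : ℝ) / 20 * (∑ ω ∈ S, ∑ i, V ω i ^ 2 - m * μ) ≤
      (Real.sqrt (Q B V S) + Real.sqrt (64 * N * m * μ)) ^ 2

/-- `X` is `K`-isomorphic to a Hilbert space -/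
def KHilb {N d : ℕ} (B : Fin N → E d) (K : ℝ) : Prop :=
  ∀ x : Fin N → ℝ, comb B x = 0 → Real.sqrt N * Real.sqrt (∑ ω, x ω ^ 2) ≤ K * ∑ ω, |x ω|

/-- TARGET 2 (linear algebra). `K` depends only on `R`. -/
def Derived : Prop :=
  ∀ R : ℕ, 2 ≤ R → ∃ K : ℝ, 1 ≤ K ∧ ∃ d₀ : ℕ, ∀ d : ℕ, d₀ ≤ d → ∀ B : Fin (R * d) → E d,
    RawOp B → RawW B (7 * R) → RawY B (7 * R) (d / 64) → RawY B 1 (d / (400 * R)) →
      P0 B ∧ P1 B (7 * R) ∧ P2 B (7 * R) ∧ KHilb B K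

/-- TARGET 3 (cover, by Hahn–Banach). -/
def CoverOfRaw : Prop :=
  ∀ (N d : ℕ) (B : Fin N → E d) (t : ℝ), 0 < t → RawCover B t → Cover B (1 / t)

/-! ### The level set lemma -/

/-- TARGET 4 (level sets).  `V₁` = normalised rows of the biorthogonal family, `V` = tensor powers.
`M = 10^6` is an absolute constant. -/
def LevelSets : Prop :=
  ∀ (R m : ℕ), 2 ≤ R → ∃ δ : ℝ, 0 < δ ∧
    ∀ (d : ℕ), 0 < d → ∀ B : Fin (R * d) → E d, P0 B → P1 B m → P2 B m →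
    ∀ (r : ℕ) (V₁ : Fin (R * d) → Fin r → ℝ) (μ : ℝ), OpBd V₁ μ → 0 ≤ μ →
      (R * d : ℝ) * m * μ ≤ δ →
      (∑ ω, Real.sqrt (∑ i, V₁ ω i ^ 2) ≤ 8) →
      (∀ i, comb B (fun ω => V₁ ω i) = 0) →
      ∀ (ι : Type) [Fintype ι] (V : Fin (R * d) → ι → ℝ), OpBd V μ →
        (∀ ω, ∑ i, V ω i ^ 2 ≤ ∑ i, V₁ ω i ^ 2) →
        Q B V Finset.univ ≤ (10 ^ 6) ^ 2

/-! ### The Riesz product argument -/

/-- TARGET 5 (Riesz products).  `F ω j = f_j(ω)`, `Φ j` = biorthogonal functionals on `X`. -/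
def Riesz : Prop :=
  ∀ (C' : ℝ), 1 ≤ C' → ∃ κ : ℝ, 0 < κ ∧ ∃ r₀ : ℕ,
    ∀ (N d : ℕ) (B : Fin N → E d), Cover B κ →
    ∀ (r : ℕ), r₀ ≤ r → ∀ (f : Fin r → Fin N → ℝ) (μ : ℝ),
      (∀ j, comb B (f j) = 0) →
      (∑ ω, Real.sqrt (∑ j, f j ω ^ 2) ≤ 8 * Real.sqrt r) →
      OpBd (fun ω j => f j ω / Real.sqrt r) μ →
      -- conclusion of the level set lemma:
      (∀ (ι : Type) [Fintype ι] (V : Fin N → ι → ℝ), OpBd V μ →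
        (∀ ω, ∑ i, V ω i ^ 2 ≤ ∑ j, (f j ω / Real.sqrt r) ^ 2) →
        Q B V Finset.univ ≤ (10 ^ 6) ^ 2) →
      ∀ Φ : Fin r → ((Fin N → ℝ) → ℝ),
        (∀ j x y, comb B x = 0 → comb B y = 0 → Φ j (x + y) = Φ j x + Φ j y) →
        (∀ j (c : ℝ) x, comb B x = 0 → Φ j (c • x) = c * Φ j x) →
        (∀ i j, Φ i (f j) = if i = j then 1 else 0) →
        (∀ x, comb B x = 0 → Real.sqrt (∑ j, Φ j x ^ 2) ≤ C' * ∑ ω, |x ω|) →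
        False

/-! ### The symmetric basis part -/

/-- TARGET 6 (symmetric bases in a `K`-Hilbertian subspace of `ℓ₁^N`). `‖·‖₁` is written out.
`c i x` = the `i`-th coordinate of `P x`. -/
def Symm : Prop :=
  ∀ (C K : ℝ), 1 ≤ C → 1 ≤ K → ∀ r : ℕ, 1 ≤ r → ∃ k₀ : ℕ,
    ∀ (N d : ℕ) (B : Fin N → E d), 0 < N → KHilb B K →
    ∀ (k : ℕ), k₀ ≤ k → ∀ (e : Fin k → Fin N → ℝ), (∀ i, comb B (e i) = 0) →
      LinearIndependent ℝ e →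
      (∀ (σ : Equiv.Perm (Fin k)) (ε : Fin k → ℝ), (∀ i, ε i = 1 ∨ ε i = -1) →
        ∀ a : Fin k → ℝ,
          ∑ ω, |∑ i, (ε i * a i) * e (σ i) ω| ≤ 2 * ∑ ω, |∑ i, a i * e i ω|) →
      ∀ c : Fin k → ((Fin N → ℝ) → ℝ),
        (∀ j x y, comb B x = 0 → comb B y = 0 → c j (x + y) = c j x + c j y) →
        (∀ j (s : ℝ) x, comb B x = 0 → c j (s • x) = s * c j x) →
        (∀ i j, c i (e j) = if i = j then 1 else 0) →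
        (∀ x, comb B x = 0 → ∑ ω, |∑ i, c i x * e i ω| ≤ C * ∑ ω, |x ω|) →
        ∃ (f : Fin r → Fin N → ℝ) (Φ : Fin r → ((Fin N → ℝ) → ℝ)),
          (∀ j, comb B (f j) = 0) ∧
          (∑ ω, Real.sqrt (∑ j, f j ω ^ 2) ≤ 8 * Real.sqrt r) ∧
          OpBd (fun ω j => f j ω / Real.sqrt r) (36 * K ^ 2 / (N * Real.sqrt r)) ∧
          (∀ j x y, comb B x = 0 → comb B y = 0 → Φ j (x + y) = Φ j x + Φ j y) ∧
          (∀ j (s : ℝ) x, comb B x = 0 → Φ j (s • x) = s * Φ j x) ∧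
          (∀ i j, Φ i (f j) = if i = j then 1 else 0) ∧
          (∀ x, comb B x = 0 → Real.sqrt (∑ j, Φ j x ^ 2) ≤ 16 * C * ∑ ω, |x ω|)

end Pool.Agent.Lib.MP_bd1451_an
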