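import Pool.Agent.Lib.MP_bd1451_an.Defs

/-!
# MP_bd1451_an: linear algebra (target 2)

The derived properties `P0, P1, P2, KHilb` of the random matrix.
-/

set_option autoImplicit false
open scoped BigOperators RealInnerProductSpace

namespace Pool.Agent.Lib.MP_bd1451_an

section General

variable {F : Type*} [NormedAddCommGroup F] [InnerProductSpace ℝ F]

/-- A maximal orthonormal family of bad vectors. -/
lemma exists_max_orthonormal (bad : F → Prop) (m : ℕ)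
    (hm : ∀ w : Fin m → F, Orthonormal ℝ w → (∀ i, bad (w i)) → False) :
    ∃ p : ℕ, p < m ∧ ∃ w : Fin p → F, Orthonormal ℝ w ∧ (∀ i, bad (w i)) ∧
      ∀ u : F, ‖u‖ = 1 → (∀ i, ⟪w i, u⟫ = 0) → ¬ bad u := by
  classical
  let P : ℕ → Prop := fun p => ∃ w : Fin p → F, Orthonormal ℝ w ∧ ∀ i, bad (w i)
  have h0 : P 0 := ⟨fun i => i.elim0, ⟨fun i => i.elim0, fun i => i.elim0⟩, fun i => i.elim0⟩
  have hex : ∃ n, ¬ P n := ⟨m, fun ⟨w, hw, hb⟩ => hm w hw hb⟩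
  set q := Nat.find hex with hq
  have hq1 : ¬ P q := Nat.find_spec hex
  have hq0 : q ≠ 0 := fun h => hq1 (h ▸ h0)
  obtain ⟨p, hp⟩ := Nat.exists_eq_succ_of_ne_zero hq0
  have hpP : P p := by
    by_contra hcon
    have := Nat.find_min' hex hcon
    omega
  have hqm : q ≤ m := Nat.find_min' hex (fun ⟨w, hw, hb⟩ => hm w hw hb)
  obtain ⟨w, hw, hb⟩ := hpP
  refine ⟨p, by omega, w, hw, hb, ?_⟩
  intro u hu hperp hbad
  apply hq1
  rw [hp]
  refine ⟨Fin.cons u w, ?_, ?_⟩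
  · rw [orthonormal_iff_ite] at hw ⊢
    intro i j
    refine Fin.cases ?_ (fun i => ?_) i
    · refine Fin.cases ?_ (fun j => ?_) j
      · simp [hu]
      · simp only [Fin.cons_zero, Fin.cons_succ]
        rw [real_inner_comm, hperp j]
        simp [Ne.symm (Fin.succ_ne_zero j)]
    · refine Fin.cases ?_ (fun j => ?_) j
      · simp only [Fin.cons_zero, Fin.cons_succ]
        rw [hperp i]
        simp [Fin.succ_ne_zero]
      · simp only [Fin.cons_succ]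
        rw [hw i j]
        simp [Fin.succ_inj]
  · intro i
    refine Fin.cases ?_ (fun i => ?_) i
    · simpa using hbad
    · simpa using hb i

/-- projection onto the span of a finite orthonormal family -/
noncomputable def prj {p : ℕ} (w : Fin p → F) (v : F) : F := ∑ j, ⟪w j, v⟫ • w j

lemma inner_prj {p : ℕ} {w : Fin p → F} (hw : Orthonormal ℝ w) (v : F) (k : Fin p) :
    ⟪w k, prj w v⟫ = ⟪w k, v⟫ := by
  unfold prj
  rw [hw.inner_right_fintype]

lemma inner_sub_prj {p : ℕ} {w : Fin p → F} (hw : Orthonormal ℝ w) (v : F) (k : Fin p) :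
    ⟪w k, v - prj w v⟫ = 0 := by
  rw [inner_sub_right, inner_prj hw, sub_self]

lemma norm_prj_sq {p : ℕ} {w : Fin p → F} (hw : Orthonormal ℝ w) (v : F) :
    ‖prj w v‖ ^ 2 = ∑ j, ⟪w j, v⟫ ^ 2 := by
  rw [← real_inner_self_eq_norm_sq]
  conv_lhs => rw [prj, sum_inner]
  refine Finset.sum_congr rfl (fun j _ => ?_)
  rw [real_inner_smul_left, ← prj, inner_prj hw, sq]

lemma inner_prj_of_perp {p : ℕ} {w : Fin p → F} (v u : F) (hu : ∀ k, ⟪w k, u⟫ = 0) :
    ⟪prj w v, u⟫ = 0 := by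
  unfold prj
  rw [sum_inner]
  refine Finset.sum_eq_zero (fun j _ => ?_)
  rw [real_inner_smul_left, hu j, mul_zero]

lemma norm_sq_split {p : ℕ} {w : Fin p → F} (hw : Orthonormal ℝ w) (v : F) :
    ‖v‖ ^ 2 = ‖prj w v‖ ^ 2 + ‖v - prj w v‖ ^ 2 := by
  have h := inner_prj_of_perp v (v - prj w v) (inner_sub_prj hw v)
  have h2 : v = prj w v + (v - prj w v) := by abel
  conv_lhs => rw [h2]
  rw [norm_add_sq_real, h]
  ring

end General

section Dual

variable {N d : ℕ}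

/-- The duality step. -/
lemma dual_core (S : Finset (Fin N)) (v a : Fin N → ℝ) (lam G : ℝ) (hlam : 0 ≤ lam) (hG : 0 ≤ G)
    (h1 : G = ∑ ω ∈ S, v ω * a ω) (h2 : ∑ ω ∈ S, a ω ^ 2 ≤ lam * G) :
    G ≤ lam * ∑ ω ∈ S, v ω ^ 2 := by
  have hA : 0 ≤ ∑ ω ∈ S, v ω ^ 2 := Finset.sum_nonneg (fun _ _ => sq_nonneg _)
  rcases hG.eq_or_lt with h0 | hpos
  · rw [← h0]; positivity
  · have hcs : (∑ ω ∈ S, v ω * a ω) ^ 2 ≤ (∑ ω ∈ S, v ω ^ 2) * (∑ ω ∈ S, a ω ^ 2) :=
      Finset.sum_mul_sq_le_sq_mul_sq S v a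
    rw [← h1] at hcs
    have h3 : G * G ≤ (lam * ∑ ω ∈ S, v ω ^ 2) * G := by
      calc G * G = G ^ 2 := by ring
        _ ≤ (∑ ω ∈ S, v ω ^ 2) * (∑ ω ∈ S, a ω ^ 2) := hcs
        _ ≤ (∑ ω ∈ S, v ω ^ 2) * (lam * G) := mul_le_mul_of_nonneg_left h2 hA
        _ = (lam * ∑ ω ∈ S, v ω ^ 2) * G := by ring
    exact le_of_mul_le_mul_right h3 hpos

lemma opBd_dual {ι : Type} [Fintype ι] {V : Fin N → ι → ℝ} {μ : ℝ} (hV : OpBd V μ) (hμ : 0 ≤ μ)
    (a : Fin N → ℝ) : ∑ i, (∑ ω, V ω i * a ω) ^ 2 ≤ μ * ∑ ω, a ω ^ 2 := by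
  refine dual_core Finset.univ a (fun ω => ∑ i, V ω i * (∑ ω', V ω' i * a ω')) μ
    (∑ i, (∑ ω, V ω i * a ω) ^ 2) hμ (Finset.sum_nonneg (fun _ _ => sq_nonneg _)) ?_ ?_
  · calc ∑ i, (∑ ω, V ω i * a ω) ^ 2
        = ∑ i, ∑ ω, a ω * (V ω i * (∑ ω', V ω' i * a ω')) := by
          refine Finset.sum_congr rfl (fun i _ => ?_)
          rw [sq, Finset.sum_mul]
          refine Finset.sum_congr rfl (fun ω _ => ?_)
          ring
      _ = ∑ ω, ∑ i, a ω * (V ω i * (∑ ω', V ω' i * a ω')) := Finset.sum_comm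
      _ = _ := by
          refine Finset.sum_congr rfl (fun ω _ => ?_)
          rw [← Finset.mul_sum]
  · exact hV (fun i => ∑ ω', V ω' i * a ω')

lemma comb_add (B : Fin N → E d) (x y : Fin N → ℝ) : comb B (x + y) = comb B x + comb B y := by
  simp [comb, add_smul, Finset.sum_add_distrib]

lemma comb_sub (B : Fin N → E d) (x y : Fin N → ℝ) : comb B (x - y) = comb B x - comb B y := by
  simp [comb, sub_smul, Finset.sum_sub_distrib]

lemma comb_smul (B : Fin N → E d) (c : ℝ) (x : Fin N → ℝ) : comb B (c • x) = c • comb B x := by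
  simp [comb, Finset.smul_sum, smul_smul]

lemma comb_ite (B : Fin N → E d) (S : Finset (Fin N)) (x : Fin N → ℝ) :
    comb B (fun ω => if ω ∈ S then x ω else 0) = ∑ ω ∈ S, x ω • B ω := by
  classical
  simp [comb, ite_smul, Finset.sum_ite_mem]

lemma rawOp_dual {B : Fin N → E d} (h : RawOp B) (S : Finset (Fin N)) (v : Fin N → ℝ) :
    ‖∑ ω ∈ S, v ω • B ω‖ ^ 2 ≤ 64 * N * ∑ ω ∈ S, v ω ^ 2 := by
  set u := ∑ ω ∈ S, v ω • B ω with hu
  refine dual_core S v (fun ω => ⟪B ω, u⟫) (64 * N) (‖u‖ ^ 2) (by positivity) (sq_nonneg _) ?_ ?_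
  · rw [← real_inner_self_eq_norm_sq]
    conv_lhs => rw [hu, sum_inner]
    refine Finset.sum_congr rfl (fun ω _ => ?_)
    rw [real_inner_smul_left, ← hu]
  · calc ∑ ω ∈ S, ⟪B ω, u⟫ ^ 2 ≤ ∑ ω, ⟪B ω, u⟫ ^ 2 :=
          Finset.sum_le_sum_of_subset_of_nonneg (Finset.subset_univ _) (fun _ _ _ => sq_nonneg _)
      _ ≤ _ := h u

lemma rawOp_comb {B : Fin N → E d} (h : RawOp B) (v : Fin N → ℝ) :
    ‖comb B v‖ ^ 2 ≤ 64 * N * ∑ ω, v ω ^ 2 := rawOp_dual h Finset.univ v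

lemma p0_of_raw {B : Fin N → E d} (h : RawOp B) : P0 B := by
  intro ι _ V S
  unfold Q
  calc ∑ i, ‖∑ ω ∈ S, V ω i • B ω‖ ^ 2 ≤ ∑ i, 64 * N * ∑ ω ∈ S, V ω i ^ 2 :=
        Finset.sum_le_sum (fun i _ => rawOp_dual h S (fun ω => V ω i))
    _ = 64 * N * ∑ ω ∈ S, ∑ i, V ω i ^ 2 := by
        rw [← Finset.mul_sum, Finset.sum_comm]

/-- `RawW` for shorter orthonormal families -/
lemma rawW_short {B : Fin N → E d} {m p : ℕ} (h : RawW B m) (hp : p ≤ m) (S : Finset (Fin N))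
    (w : Fin p → E d) (hw : Orthonormal ℝ w) :
    ∑ ω ∈ S, ∑ i, ⟪B ω, w i⟫ ^ 2 ≤ 48 * m * (S.card + d) := by
  obtain ⟨k, rfl⟩ := Nat.exists_eq_add_of_le hp
  have h1 := h S (Fin.append w (fun _ => 0)) ?_
  · refine le_trans (le_of_eq ?_) h1
    refine Finset.sum_congr rfl (fun ω _ => ?_)
    rw [Fin.sum_univ_add]
    simp [Fin.append_left, Fin.append_right]
  · intro c
    rw [Fin.sum_univ_add, Fin.sum_univ_add]
    simp only [Fin.append_left, Fin.append_right, smul_zero, Finset.sum_const_zero, add_zero]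
    have h2 : ‖∑ i : Fin p, c (Fin.castAdd k i) • w i‖ ^ 2 = ∑ i : Fin p, c (Fin.castAdd k i) ^ 2 := by
      rw [← real_inner_self_eq_norm_sq, hw.inner_sum]
      simp [sq]
    rw [h2]
    have : 0 ≤ ∑ i : Fin k, c (Fin.natAdd p i) ^ 2 := Finset.sum_nonneg (fun _ _ => sq_nonneg _)
    linarith

lemma p1_of_raw {B : Fin N → E d} {m : ℕ} (hm : 0 < m) (h : RawW B m) : P1 B m := by
  classical
  intro ι _ V μ hV hμ S
  set lam : ℝ := 48 * (S.card + d) with hlam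
  have hlam0 : 0 ≤ lam := by positivity
  have hm' : (0 : ℝ) < m := by exact_mod_cast hm
  obtain ⟨p, hpm, w, hw, hbad, hmax⟩ := exists_max_orthonormal
    (fun w : E d => lam < ∑ ω ∈ S, ⟪B ω, w⟫ ^ 2) m (by
      intro w hw hb
      have h1 : ∑ ω ∈ S, ∑ i, ⟪B ω, w i⟫ ^ 2 ≤ 48 * m * (S.card + d) :=
        rawW_short h le_rfl S w hw
      rw [Finset.sum_comm] at h1
      have h2 : ∑ _i : Fin m, lam < ∑ i : Fin m, ∑ ω ∈ S, ⟪B ω, w i⟫ ^ 2 := by
        have : Nonempty (Fin m) := ⟨⟨0, hm⟩⟩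
        exact Finset.sum_lt_sum_of_nonempty Finset.univ_nonempty (fun i _ => hb i)
      rw [Finset.sum_const, Finset.card_univ, Fintype.card_fin, nsmul_eq_mul] at h2
      rw [hlam] at h2
      linarith)
  -- vectors orthogonal to all `w i`
  have hperp : ∀ u : E d, (∀ i, ⟪w i, u⟫ = 0) → ∑ ω ∈ S, ⟪B ω, u⟫ ^ 2 ≤ lam * ‖u‖ ^ 2 := by
    intro u hu
    rcases eq_or_ne u 0 with rfl | hu0
    · simp
    · have hn : 0 < ‖u‖ := norm_pos_iff.mpr hu0
      have h1 := hmax (‖u‖⁻¹ • u) (by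
        rw [norm_smul, norm_inv, norm_norm, inv_mul_cancel₀ hn.ne']) (by
        intro i; rw [real_inner_smul_right, hu i, mul_zero])
      rw [not_lt] at h1
      have h2 : ∑ ω ∈ S, ⟪B ω, ‖u‖⁻¹ • u⟫ ^ 2 = (‖u‖ ^ 2)⁻¹ * ∑ ω ∈ S, ⟪B ω, u⟫ ^ 2 := by
        rw [Finset.mul_sum]
        refine Finset.sum_congr rfl (fun ω _ => ?_)
        rw [real_inner_smul_right, mul_pow, inv_pow]
      rw [h2] at h1
      have h3 : 0 < ‖u‖ ^ 2 := by positivity
      rw [inv_mul_le_iff₀ h3] at h1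
      linarith
  have hW : ∑ ω ∈ S, ∑ i, ⟪B ω, w i⟫ ^ 2 ≤ m * lam := by
    have := rawW_short h hpm.le S w hw
    rw [hlam]; linarith
  unfold Q
  set b : ι → E d := fun i => ∑ ω ∈ S, V ω i • B ω with hb
  have hsplit : ∑ i, ‖b i‖ ^ 2 = ∑ i, ‖prj w (b i)‖ ^ 2 + ∑ i, ‖b i - prj w (b i)‖ ^ 2 := by
    rw [← Finset.sum_add_distrib]
    exact Finset.sum_congr rfl (fun i _ => norm_sq_split hw (b i))
  have hsecond : ∑ i, ‖b i - prj w (b i)‖ ^ 2 ≤ lam * ∑ ω ∈ S, ∑ i, V ω i ^ 2 := by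
    rw [Finset.sum_comm, Finset.mul_sum]
    refine Finset.sum_le_sum (fun i _ => ?_)
    set u := b i - prj w (b i) with hu
    refine dual_core S (fun ω => V ω i) (fun ω => ⟪B ω, u⟫) lam (‖u‖ ^ 2) hlam0 (sq_nonneg _) ?_
      (hperp u (inner_sub_prj hw (b i)))
    rw [← real_inner_self_eq_norm_sq]
    have h1 : ⟪u, u⟫ = ⟪b i, u⟫ := by
      conv_lhs => rw [hu, inner_sub_left]
      rw [← hu, inner_prj_of_perp (b i) u (inner_sub_prj hw (b i)), sub_zero]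
    rw [h1, hb]
    simp only [sum_inner]
    refine Finset.sum_congr rfl (fun ω _ => ?_)
    rw [real_inner_smul_left]
  have hfirst : ∑ i, ‖prj w (b i)‖ ^ 2 ≤ μ * (m * lam) := by
    calc ∑ i, ‖prj w (b i)‖ ^ 2 = ∑ i, ∑ j, ⟪w j, b i⟫ ^ 2 :=
          Finset.sum_congr rfl (fun i _ => norm_prj_sq hw (b i))
      _ = ∑ j, ∑ i, ⟪w j, b i⟫ ^ 2 := Finset.sum_comm
      _ = ∑ j, ∑ i, (∑ ω, V ω i * (if ω ∈ S then ⟪B ω, w j⟫ else 0)) ^ 2 := by
          refine Finset.sum_congr rfl (fun j _ => Finset.sum_congr rfl (fun i _ => ?_))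
          congr 1
          rw [hb]
          simp only [inner_sum, real_inner_smul_right, mul_ite, mul_zero, Finset.sum_ite_mem,
            Finset.univ_inter]
          refine Finset.sum_congr rfl (fun ω _ => ?_)
          rw [real_inner_comm]
      _ ≤ ∑ j, μ * ∑ ω, (if ω ∈ S then ⟪B ω, w j⟫ else 0) ^ 2 :=
          Finset.sum_le_sum (fun j _ => opBd_dual hV hμ _)
      _ = μ * ∑ ω ∈ S, ∑ j, ⟪B ω, w j⟫ ^ 2 := by
          rw [← Finset.mul_sum, Finset.sum_comm (s := S)]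
          congr 1
          refine Finset.sum_congr rfl (fun j _ => ?_)
          simp [ite_pow, Finset.sum_ite_mem]
      _ ≤ μ * (m * lam) := mul_le_mul_of_nonneg_left hW hμ
  have : ∑ i, ‖∑ ω ∈ S, V ω i • B ω‖ ^ 2 = ∑ i, ‖b i‖ ^ 2 := rfl
  rw [this, hsplit]
  calc _ ≤ μ * (m * lam) + lam * ∑ ω ∈ S, ∑ i, V ω i ^ 2 := add_le_add hfirst hsecond
    _ = _ := by rw [hlam]; ring

/-- Minkowski for sums of squares of norms, in the form needed below -/
lemma sum_norm_sub_sq_le {ι : Type} [Fintype ι] {F : Type*} [NormedAddCommGroup F]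
    (a b : ι → F) (A B' : ℝ) (hA : ∑ i, ‖a i‖ ^ 2 ≤ A) (hB : ∑ i, ‖b i‖ ^ 2 ≤ B') :
    ∑ i, ‖a i - b i‖ ^ 2 ≤ (Real.sqrt A + Real.sqrt B') ^ 2 := by
  have hA0 : 0 ≤ ∑ i, ‖a i‖ ^ 2 := Finset.sum_nonneg (fun _ _ => sq_nonneg _)
  have hB0 : 0 ≤ ∑ i, ‖b i‖ ^ 2 := Finset.sum_nonneg (fun _ _ => sq_nonneg _)
  have h1 : ∑ i, ‖a i - b i‖ ^ 2 ≤ ∑ i, (‖a i‖ + ‖b i‖) ^ 2 := by
    refine Finset.sum_le_sum (fun i _ => ?_)
    exact pow_le_pow_left₀ (norm_nonneg _) (norm_sub_le _ _) 2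
  have h2 : ∑ i, (‖a i‖ + ‖b i‖) ^ 2
      = ∑ i, ‖a i‖ ^ 2 + 2 * ∑ i, ‖a i‖ * ‖b i‖ + ∑ i, ‖b i‖ ^ 2 := by
    rw [Finset.mul_sum, ← Finset.sum_add_distrib, ← Finset.sum_add_distrib]
    exact Finset.sum_congr rfl (fun i _ => by ring)
  have h3 : ∑ i, ‖a i‖ * ‖b i‖ ≤ Real.sqrt A * Real.sqrt B' := by
    refine (Real.sum_mul_le_sqrt_mul_sqrt Finset.univ (fun i => ‖a i‖) (fun i => ‖b i‖)).trans ?_
    exact mul_le_mul (Real.sqrt_le_sqrt hA) (Real.sqrt_le_sqrt hB) (Real.sqrt_nonneg _)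
      (Real.sqrt_nonneg _)
  have h4 : Real.sqrt A ^ 2 = A := Real.sq_sqrt (hA0.trans hA)
  have h5 : Real.sqrt B' ^ 2 = B' := Real.sq_sqrt (hB0.trans hB)
  nlinarith [h1, h2, h3, h4, h5]

lemma p2_of_raw {B : Fin N → E d} {m : ℕ} (hm : 0 < m) (h0 : RawOp B) (h : RawY B m (d / 64)) :
    P2 B m := by
  classical
  intro ι _ V μ hV hμ S hS
  have hm' : (0 : ℝ) < m := by exact_mod_cast hm
  obtain ⟨p, hpm, w, hw, hbad, hmax⟩ := exists_max_orthonormal
    (fun y : EuclideanSpace ℝ (Fin N) => (∀ ω, ω ∉ S → y ω = 0) ∧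
      ‖comb B (fun ω => y ω)‖ ^ 2 < (d : ℝ) / 20) m (by
      intro w hw hb
      have h1 := h S hS w hw (fun i => (hb i).1)
      have h2 : ∑ i : Fin m, ‖comb B (fun ω => w i ω)‖ ^ 2 < ∑ _i : Fin m, (d : ℝ) / 20 := by
        have : Nonempty (Fin m) := ⟨⟨0, hm⟩⟩
        exact Finset.sum_lt_sum_of_nonempty Finset.univ_nonempty (fun i _ => (hb i).2)
      rw [Finset.sum_const, Finset.card_univ, Fintype.card_fin, nsmul_eq_mul] at h2
      linarith)
  have hperp : ∀ y : EuclideanSpace ℝ (Fin N), (∀ ω, ω ∉ S → y ω = 0) → (∀ i, ⟪w i, y⟫ = 0) →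
      (d : ℝ) / 20 * ‖y‖ ^ 2 ≤ ‖comb B (fun ω => y ω)‖ ^ 2 := by
    intro y hyS hy
    rcases eq_or_ne y 0 with rfl | hy0
    · simp
    · have hn : 0 < ‖y‖ := norm_pos_iff.mpr hy0
      have h1 := hmax (‖y‖⁻¹ • y) (by
        rw [norm_smul, norm_inv, norm_norm, inv_mul_cancel₀ hn.ne']) (by
        intro i; rw [real_inner_smul_right, hy i, mul_zero])
      simp only [not_and, not_lt] at h1
      have h2 := h1 (by intro ω hω; simp [hyS ω hω])
      have h3 : comb B (fun ω => (‖y‖⁻¹ • y) ω) = ‖y‖⁻¹ • comb B (fun ω => y ω) :=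
        comb_smul B ‖y‖⁻¹ (fun ω => y ω)
      rw [h3, norm_smul, norm_inv, norm_norm, mul_pow, inv_pow] at h2
      have h4 : 0 < ‖y‖ ^ 2 := by positivity
      rw [← div_eq_inv_mul, le_div_iff₀ h4] at h2
      exact h2
  -- the columns
  set v : ι → EuclideanSpace ℝ (Fin N) := fun i => WithLp.toLp 2 (fun ω => if ω ∈ S then V ω i else 0)
    with hv
  have hvS : ∀ i ω, ω ∉ S → v i ω = 0 := by
    intro i ω hω; simp [hv, hω]
  have hpS : ∀ i ω, ω ∉ S → prj w (v i) ω = 0 := by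
    intro i ω hω
    unfold prj
    rw [WithLp.ofLp_sum, Finset.sum_apply]
    refine Finset.sum_eq_zero (fun j _ => ?_)
    rw [PiLp.smul_apply, (hbad j).1 ω hω, smul_zero]
  have hcombv : ∀ i, comb B (fun ω => v i ω) = ∑ ω ∈ S, V ω i • B ω := by
    intro i
    rw [← comb_ite]
  have hnormv : ∑ i, ‖v i‖ ^ 2 = ∑ ω ∈ S, ∑ i, V ω i ^ 2 := by
    rw [Finset.sum_comm]
    refine Finset.sum_congr rfl (fun i _ => ?_)
    rw [EuclideanSpace.norm_sq_eq]
    simp [hv, ite_pow, Finset.sum_ite_mem, apply_ite]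
  have hnormw : ∀ j, ∑ ω, w j ω ^ 2 = 1 := by
    intro j
    have h1 := EuclideanSpace.norm_sq_eq (w j)
    rw [hw.1 j] at h1
    simp only [Real.norm_eq_abs, sq_abs] at h1
    linarith
  have hinner : ∀ i j, ⟪w j, v i⟫ = ∑ ω, V ω i * w j ω := by
    intro i j
    rw [PiLp.inner_apply]
    refine Finset.sum_congr rfl (fun ω _ => ?_)
    by_cases hω : ω ∈ S
    · simp [hv, hω]
    · simp [hv, hω, (hbad j).1 ω hω]
  have hprj : ∑ i, ‖prj w (v i)‖ ^ 2 ≤ m * μ := by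
    calc ∑ i, ‖prj w (v i)‖ ^ 2 = ∑ i, ∑ j, ⟪w j, v i⟫ ^ 2 :=
          Finset.sum_congr rfl (fun i _ => norm_prj_sq hw (v i))
      _ = ∑ j, ∑ i, ⟪w j, v i⟫ ^ 2 := Finset.sum_comm
      _ = ∑ j, ∑ i, (∑ ω, V ω i * w j ω) ^ 2 := by
          refine Finset.sum_congr rfl (fun j _ => Finset.sum_congr rfl (fun i _ => ?_))
          rw [hinner]
      _ ≤ ∑ j, μ * ∑ ω, w j ω ^ 2 := Finset.sum_le_sum (fun j _ => opBd_dual hV hμ _)
      _ = p * μ := by simp [hnormw]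
      _ ≤ m * μ := mul_le_mul_of_nonneg_right (by exact_mod_cast hpm.le) hμ
  have hsplit : ∑ i, ‖v i‖ ^ 2 = ∑ i, ‖prj w (v i)‖ ^ 2 + ∑ i, ‖v i - prj w (v i)‖ ^ 2 := by
    rw [← Finset.sum_add_distrib]
    exact Finset.sum_congr rfl (fun i _ => norm_sq_split hw (v i))
  have hlow : (d : ℝ) / 20 * ∑ i, ‖v i - prj w (v i)‖ ^ 2
      ≤ ∑ i, ‖comb B (fun ω => v i ω) - comb B (fun ω => prj w (v i) ω)‖ ^ 2 := by
    rw [Finset.mul_sum]
    refine Finset.sum_le_sum (fun i _ => ?_)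
    have h1 := hperp (v i - prj w (v i)) (by
      intro ω hω
      rw [PiLp.sub_apply, hvS i ω hω, hpS i ω hω, sub_zero]) (inner_sub_prj hw (v i))
    have h2 : comb B (fun ω => (v i - prj w (v i)) ω)
        = comb B (fun ω => v i ω) - comb B (fun ω => prj w (v i) ω) :=
      comb_sub B (fun ω => v i ω) (fun ω => prj w (v i) ω)
    rw [h2] at h1
    exact h1
  have hup := sum_norm_sub_sq_le (fun i => comb B (fun ω => v i ω))
    (fun i => comb B (fun ω => prj w (v i) ω)) (Q B V S) (64 * N * m * μ) (by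
      unfold Q
      refine le_of_eq (Finset.sum_congr rfl (fun i _ => ?_))
      rw [hcombv]) (by
      calc ∑ i, ‖comb B (fun ω => prj w (v i) ω)‖ ^ 2
          ≤ ∑ i, 64 * N * ∑ ω, (prj w (v i) ω) ^ 2 :=
            Finset.sum_le_sum (fun i _ => rawOp_comb h0 _)
        _ = 64 * N * ∑ i, ‖prj w (v i)‖ ^ 2 := by
            rw [Finset.mul_sum]
            refine Finset.sum_congr rfl (fun i _ => ?_)
            rw [EuclideanSpace.norm_sq_eq]
            simp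
        _ ≤ 64 * N * (m * μ) := mul_le_mul_of_nonneg_left hprj (by positivity)
        _ = _ := by ring)
  refine le_trans ?_ (hlow.trans hup)
  refine mul_le_mul_of_nonneg_left ?_ (by positivity)
  rw [← hnormv]
  linarith

lemma kHilb_of_raw {R d : ℕ} (hR : 2 ≤ R) (hd : 800 * R ≤ d) {B : Fin (R * d) → E d}
    (h0 : RawOp B) (h : RawY B 1 (d / (400 * R))) :
    KHilb B (800 * R * (1280 * R + 1)) := by
  classical
  have hR' : (2 : ℝ) ≤ R := by exact_mod_cast hR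
  have hRpos : (0 : ℝ) < R := by linarith
  have hd' : (800 * R : ℝ) ≤ d := by exact_mod_cast hd
  have hdpos : (0 : ℝ) < d := by nlinarith
  set s₀ : ℕ := d / (400 * R) with hs₀
  have hs₀R : (d : ℝ) / (800 * R) ≤ s₀ := by
    have h1 : d < 400 * R * (s₀ + 1) := by
      rw [hs₀]; exact Nat.lt_mul_div_succ d (by positivity)
    have h2 : (d : ℝ) < 400 * R * (s₀ + 1) := by exact_mod_cast h1
    rw [div_le_iff₀ (by positivity)]
    nlinarith
  have hs₀pos : (0 : ℝ) < s₀ := lt_of_lt_of_le (by positivity) hs₀R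
  intro x hx
  set L : ℝ := ∑ ω, |x ω| with hL
  have hL0 : 0 ≤ L := Finset.sum_nonneg (fun _ _ => abs_nonneg _)
  set S : Finset (Fin (R * d)) := Finset.univ.filter (fun ω => L < s₀ * |x ω|) with hS
  have hScard : S.card ≤ s₀ := by
    by_contra hcon
    push Not at hcon
    have h1 : (S.card : ℝ) * L ≤ s₀ * L := by
      calc (S.card : ℝ) * L = ∑ _ω ∈ S, L := by simp
        _ ≤ ∑ ω ∈ S, s₀ * |x ω| := Finset.sum_le_sum (fun ω hω => by
            rw [hS, Finset.mem_filter] at hω; exact hω.2.le)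
        _ ≤ ∑ ω, s₀ * |x ω| := Finset.sum_le_sum_of_subset_of_nonneg (Finset.subset_univ _)
            (fun _ _ _ => by positivity)
        _ = s₀ * L := by rw [← Finset.mul_sum]
    have hS0 : S.Nonempty := Finset.card_pos.mp (lt_of_le_of_lt (Nat.zero_le _) hcon)
    obtain ⟨ω₀, hω₀⟩ := hS0
    have hLpos : 0 < L := by
      rw [hS, Finset.mem_filter] at hω₀
      by_contra hneg
      have hL00 : L = 0 := le_antisymm (not_lt.mp hneg) hL0
      have h2 : |x ω₀| ≤ L := Finset.single_le_sum (f := fun ω => |x ω|)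
        (fun _ _ => abs_nonneg _) (Finset.mem_univ ω₀)
      have h3 : |x ω₀| = 0 := le_antisymm (h2.trans hL00.le) (abs_nonneg _)
      have h4 := hω₀.2
      rw [h3, hL00] at h4
      simp at h4
    have h5 : (s₀ : ℝ) < S.card := by exact_mod_cast hcon
    have := le_of_mul_le_mul_right h1 hLpos
    linarith
  have hcompl : ∑ ω ∈ Sᶜ, x ω ^ 2 ≤ L ^ 2 / s₀ := by
    rw [le_div_iff₀ hs₀pos]
    calc (∑ ω ∈ Sᶜ, x ω ^ 2) * s₀ = ∑ ω ∈ Sᶜ, |x ω| * (s₀ * |x ω|) := by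
          rw [Finset.sum_mul]
          refine Finset.sum_congr rfl (fun ω _ => ?_)
          rw [← sq_abs]; ring
      _ ≤ ∑ ω ∈ Sᶜ, |x ω| * L := Finset.sum_le_sum (fun ω hω => by
          rw [Finset.mem_compl, hS, Finset.mem_filter, not_and, not_lt] at hω
          exact mul_le_mul_of_nonneg_left (hω (Finset.mem_univ _)) (abs_nonneg _))
      _ ≤ ∑ ω, |x ω| * L := Finset.sum_le_sum_of_subset_of_nonneg (Finset.subset_univ _)
            (fun _ _ _ => by positivity)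
      _ = L ^ 2 := by rw [← Finset.sum_mul]; ring
  -- the part on `S`
  have hSpart : (d : ℝ) / 20 * ∑ ω ∈ S, x ω ^ 2 ≤ 64 * ((R * d : ℕ) : ℝ) * (L ^ 2 / s₀) := by
    set y : EuclideanSpace ℝ (Fin (R * d)) := WithLp.toLp 2 (fun ω => if ω ∈ S then x ω else 0)
      with hy
    have hyn : ‖y‖ ^ 2 = ∑ ω ∈ S, x ω ^ 2 := by
      rw [EuclideanSpace.norm_sq_eq]
      simp [hy, ite_pow, Finset.sum_ite_mem, apply_ite]
    have hcy : comb B (fun ω => y ω) = ∑ ω ∈ S, x ω • B ω := comb_ite B S x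
    have hneg : ∑ ω ∈ S, x ω • B ω = - ∑ ω ∈ Sᶜ, x ω • B ω := by
      have h1 : ∑ ω ∈ S, x ω • B ω + ∑ ω ∈ Sᶜ, x ω • B ω = 0 := by
        rw [Finset.sum_add_sum_compl]; exact hx
      exact eq_neg_of_add_eq_zero_left h1
    have hcomb : ‖comb B (fun ω => y ω)‖ ^ 2 ≤ 64 * ((R * d : ℕ) : ℝ) * (L ^ 2 / s₀) := by
      rw [hcy, hneg, norm_neg]
      exact (rawOp_dual h0 Sᶜ x).trans (mul_le_mul_of_nonneg_left hcompl (by positivity))
    rcases eq_or_ne y 0 with hy0 | hy0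
    · rw [← hyn, hy0]
      simp only [norm_zero, ne_eq, OfNat.ofNat_ne_zero, not_false_eq_true, zero_pow, mul_zero]
      positivity
    · have hn : 0 < ‖y‖ := norm_pos_iff.mpr hy0
      have h1 := h S hScard (fun _ => ‖y‖⁻¹ • y) (by
        rw [orthonormal_iff_ite]
        intro i j
        rw [Subsingleton.elim i j]
        simp only [if_true]
        rw [real_inner_self_eq_norm_sq, norm_smul, norm_inv, norm_norm, inv_mul_cancel₀ hn.ne']
        norm_num) (by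
        intro _ ω hω
        simp [hy, hω])
      have h3 : comb B (fun ω => (‖y‖⁻¹ • y) ω) = ‖y‖⁻¹ • comb B (fun ω => y ω) :=
        comb_smul B ‖y‖⁻¹ (fun ω => y ω)
      simp only [Finset.univ_unique, Finset.sum_singleton] at h1
      rw [h3, norm_smul, norm_inv, norm_norm, mul_pow, inv_pow] at h1
      have h4 : 0 < ‖y‖ ^ 2 := by positivity
      rw [← div_eq_inv_mul, le_div_iff₀ h4] at h1
      rw [← hyn]
      refine le_trans (le_of_eq ?_) (h1.trans hcomb)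
      push_cast; ring
  have htot : ∑ ω, x ω ^ 2 ≤ (1280 * R + 1) * (L ^ 2 / s₀) := by
    rw [← Finset.sum_add_sum_compl S]
    have h1 : ∑ ω ∈ S, x ω ^ 2 ≤ 1280 * R * (L ^ 2 / s₀) := by
      have h2 : (d : ℝ) / 20 * ∑ ω ∈ S, x ω ^ 2 ≤ (d : ℝ) / 20 * (1280 * R * (L ^ 2 / s₀)) := by
        refine hSpart.trans (le_of_eq ?_)
        push_cast; ring
      exact le_of_mul_le_mul_left h2 (by positivity)
    linarith
  have hfin : ((R * d : ℕ) : ℝ) * ∑ ω, x ω ^ 2 ≤ (800 * R * (1280 * R + 1) * L) ^ 2 := by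
    have h1 : L ^ 2 / s₀ ≤ L ^ 2 * (800 * R) / d := by
      rw [div_le_div_iff₀ hs₀pos hdpos]
      have h2 : (d : ℝ) ≤ 800 * R * s₀ := by
        rw [div_le_iff₀ (by positivity)] at hs₀R; linarith
      calc L ^ 2 * d ≤ L ^ 2 * (800 * R * s₀) := mul_le_mul_of_nonneg_left h2 (sq_nonneg _)
        _ = _ := by ring
    have h3 : ∑ ω, x ω ^ 2 ≤ (1280 * R + 1) * (L ^ 2 * (800 * R) / d) :=
      htot.trans (mul_le_mul_of_nonneg_left h1 (by positivity))
    calc ((R * d : ℕ) : ℝ) * ∑ ω, x ω ^ 2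
        ≤ ((R * d : ℕ) : ℝ) * ((1280 * R + 1) * (L ^ 2 * (800 * R) / d)) :=
          mul_le_mul_of_nonneg_left h3 (by positivity)
      _ = 800 * R ^ 2 * (1280 * R + 1) * L ^ 2 := by
          push_cast; field_simp
      _ ≤ (800 * R ^ 2 * (1280 * R + 1) * L ^ 2) * (800 * (1280 * R + 1)) := by
          refine le_mul_of_one_le_right (by positivity) ?_
          nlinarith
      _ = _ := by ring
  rw [← Real.sqrt_mul (by positivity)]
  rw [Real.sqrt_le_left (by positivity)]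
  exact hfin

end Dual

/-- TARGET 2. -/
theorem derived : Derived := by
  intro R hR
  have hR' : (2 : ℝ) ≤ R := by exact_mod_cast hR
  refine ⟨800 * R * (1280 * R + 1), by nlinarith, 800 * R, ?_⟩
  intro d hd B h0 hW hY hY1
  exact ⟨p0_of_raw h0, p1_of_raw (by omega) hW, p2_of_raw (by omega) h0 hY,
    kHilb_of_raw hR hd h0 hY1⟩

end Pool.Agent.Lib.MP_bd1451_an
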