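import Pool.Agent.Lib.MP_bd1451_an.Union

/-!
# MP_bd1451_an: probabilities of the bad events for a fixed set of rows
-/

set_option autoImplicit false
set_option maxHeartbeats 1000000
open scoped BigOperators RealInnerProductSpace
open MeasureTheory Module

namespace Pool.Agent.Lib.MP_bd1451_an

variable {N d : ℕ}

/-! ### The operator norm -/

/-- `u ↦ (δ_a ⊗ u)_a` -/
noncomputable def GOp (N d : ℕ) : E d →ₗ[ℝ] (Fin N → Fin N → E d) where
  toFun u := fun a ω => if a = ω then u else 0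
  map_add' := by
    intro x y; funext a ω
    simp only [Pi.add_apply]
    split_ifs <;> simp
  map_smul' := by
    intro c x; funext a ω
    simp only [Pi.smul_apply, RingHom.id_apply]
    split_ifs <;> simp

theorem val_GOp (B : Fin N → E d) (u : E d) (a : Fin N) : val (GOp N d) B u a = ⟪B a, u⟫ := by
  unfold val GOp
  simp only [LinearMap.coe_mk, AddHom.coe_mk]
  rw [Finset.sum_eq_single a]
  · simp
  · intro b _ hb
    rw [if_neg (fun h => hb h.symm), inner_zero_right]
  · intro h; exact absurd (Finset.mem_univ a) h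

theorem op_event {P : Measure (Fin N → E d)} (hP : Tails P) :
    P.real {B | ¬ RawOp B} ≤ 5 ^ d * (Real.exp (-4 * N) * (Real.sqrt 2) ^ N) := by
  have := hP.prob
  have h := upper_net hP (Fin N) (GOp N d) ?_ (16 * N) (by positivity)
  · rw [Fintype.card_fin, finrank_euclideanSpace_fin] at h
    rw [show -(16 * (N : ℝ)) / 4 = -4 * N by ring] at h
    refine le_trans (measureReal_mono ?_ (measure_ne_top _ _)) h
    intro B hB hcon
    apply hB
    intro w
    by_cases hw : w = 0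
    · subst hw; simp
    have hw' : 0 < ‖w‖ := norm_pos_iff.2 hw
    have h1 := hcon (‖w‖⁻¹ • w) (by
      rw [norm_smul, norm_inv, norm_norm, inv_mul_cancel₀ hw'.ne'])
    simp only [val_GOp, inner_smul_right, mul_pow] at h1
    rw [← Finset.mul_sum, inv_pow, inv_mul_le_iff₀ (by positivity)] at h1
    calc ∑ ω, ⟪B ω, w⟫ ^ 2 ≤ ‖w‖ ^ 2 * (4 * (16 * N)) := h1
      _ = 64 * N * ‖w‖ ^ 2 := by ring
  · intro Z hZ c
    refine Finset.sum_le_sum fun ω _ => ?_
    have : ∑ a, c a • GOp N d Z a ω = c ω • Z := by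
      unfold GOp
      simp only [LinearMap.coe_mk, AddHom.coe_mk]
      rw [Finset.sum_eq_single ω]
      · simp
      · intro b _ hb
        rw [if_neg hb, smul_zero]
      · intro h; exact absurd (Finset.mem_univ ω) h
    rw [this, norm_smul, mul_pow, Real.norm_eq_abs, sq_abs]
    have : ‖Z‖ ^ 2 ≤ 1 := by nlinarith [norm_nonneg Z]
    nlinarith [sq_nonneg (c ω)]

/-! ### Contractions -/

/-- `Z ↦ (δ_ω ⊗ Z e_i)_{ω ∈ S, i}` -/
noncomputable def GW (N d m : ℕ) (S : Finset (Fin N)) :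
    (EuclideanSpace ℝ (Fin m) →L[ℝ] E d) →ₗ[ℝ] (S × Fin m → Fin N → E d) where
  toFun Z := fun a ω => if (a.1 : Fin N) = ω then Z (EuclideanSpace.single a.2 1) else 0
  map_add' := by
    intro x y; funext a ω
    simp only [Pi.add_apply]
    split_ifs <;> simp
  map_smul' := by
    intro c x; funext a ω
    simp only [Pi.smul_apply, RingHom.id_apply]
    split_ifs <;> simp

theorem val_GW (m : ℕ) (S : Finset (Fin N)) (B : Fin N → E d)
    (Z : EuclideanSpace ℝ (Fin m) →L[ℝ] E d) (a : S × Fin m) :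
    val (GW N d m S) B Z a = ⟪B a.1, Z (EuclideanSpace.single a.2 1)⟫ := by
  unfold val GW
  simp only [LinearMap.coe_mk, AddHom.coe_mk]
  rw [Finset.sum_eq_single (a.1 : Fin N)]
  · simp
  · intro b _ hb
    rw [if_neg (fun h => hb h.symm), inner_zero_right]
  · intro h; exact absurd (Finset.mem_univ _) h

theorem euclid_sum_single {m : ℕ} (c : Fin m → ℝ) :
    ∑ i, c i • (EuclideanSpace.single i (1 : ℝ)) = (WithLp.toLp 2 c : EuclideanSpace ℝ (Fin m)) := by
  ext j
  simp [Finset.sum_apply, Pi.single_apply]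

theorem norm_toLp_sq {m : ℕ} (c : Fin m → ℝ) :
    ‖(WithLp.toLp 2 c : EuclideanSpace ℝ (Fin m))‖ ^ 2 = ∑ i, c i ^ 2 := by
  rw [EuclideanSpace.norm_sq_eq]
  simp

theorem finrank_clm (m : ℕ) (F : Type) [NormedAddCommGroup F] [NormedSpace ℝ F]
    [FiniteDimensional ℝ F] :
    finrank ℝ (EuclideanSpace ℝ (Fin m) →L[ℝ] F) = m * finrank ℝ F := by
  rw [← (LinearMap.toContinuousLinearMap (𝕜 := ℝ) (E := EuclideanSpace ℝ (Fin m))
    (F' := F)).finrank_eq, Module.finrank_linearMap, finrank_euclideanSpace_fin]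

theorem W_event {P : Measure (Fin N → E d)} (hP : Tails P) (m : ℕ) (S : Finset (Fin N)) :
    P.real {B | ¬ ∀ (t : Fin m → E d),
      (∀ c : Fin m → ℝ, ‖∑ i, c i • t i‖ ^ 2 ≤ ∑ i, c i ^ 2) →
      ∑ ω ∈ S, ∑ i, ⟪B ω, t i⟫ ^ 2 ≤ 48 * m * (S.card + d)} ≤
      5 ^ (m * d) * (Real.exp (-3 * (m * (S.card + d))) * (Real.sqrt 2) ^ (S.card * m)) := by
  have := hP.prob
  have h := upper_net hP (S × Fin m) (GW N d m S) ?_ (12 * (m * (S.card + d))) (by positivity)
  · rw [Fintype.card_prod, Fintype.card_fin, Fintype.card_coe, finrank_clm,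
      finrank_euclideanSpace_fin] at h
    rw [show -(12 * ((m : ℝ) * (S.card + d))) / 4 = -3 * (m * (S.card + d)) by ring] at h
    refine le_trans (measureReal_mono ?_ (measure_ne_top _ _)) h
    intro B hB hcon
    apply hB
    intro t ht
    let Z : EuclideanSpace ℝ (Fin m) →L[ℝ] E d :=
      LinearMap.toContinuousLinearMap
        (((EuclideanSpace.basisFun (Fin m) ℝ).toBasis).constr ℝ t)
    have hZ : ∀ i, Z (EuclideanSpace.single i 1) = t i := by
      intro i
      have h1 := (((EuclideanSpace.basisFun (Fin m) ℝ).toBasis)).constr_basis ℝ t i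
      simp [Z]
    have hZn : ‖Z‖ ≤ 1 := by
      refine ContinuousLinearMap.opNorm_le_bound _ zero_le_one ?_
      intro x
      have hx : x = ∑ i, x i • (EuclideanSpace.single i (1 : ℝ)) := by
        rw [euclid_sum_single]
      have h2 : Z x = ∑ i, x i • t i := by
        conv_lhs => rw [hx]
        rw [map_sum]
        exact Finset.sum_congr rfl fun i _ => by rw [map_smul, hZ]
      have h3 := ht (fun i => x i)
      rw [h2, one_mul]
      refine abs_le_of_sq_le_sq' ?_ (norm_nonneg _) |>.2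
      refine h3.trans_eq ?_
      rw [EuclideanSpace.norm_sq_eq]
      simp
    have h4 := hcon Z hZn
    simp only [val_GW, hZ] at h4
    rw [Fintype.sum_prod_type] at h4
    rw [← Finset.sum_coe_sort S]
    calc ∑ x : S, ∑ i, ⟪B x, t i⟫ ^ 2 ≤ 4 * (12 * (m * (S.card + d))) := h4
      _ = 48 * m * (S.card + d) := by ring
  · intro Z hZ c
    have h1 : ∀ ω : Fin N, ‖∑ a, c a • GW N d m S Z a ω‖ ^ 2 ≤
        if h : ω ∈ S then ∑ i, c (⟨ω, h⟩, i) ^ 2 else 0 := by
      intro ω
      unfold GW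
      simp only [LinearMap.coe_mk, AddHom.coe_mk]
      rw [Fintype.sum_prod_type]
      by_cases hω : ω ∈ S
      · rw [dif_pos hω, Finset.sum_eq_single (⟨ω, hω⟩ : S)]
        · simp only [if_true]
          have h2 : ∑ i, c (⟨ω, hω⟩, i) • Z (EuclideanSpace.single i (1 : ℝ)) =
              Z (WithLp.toLp 2 (fun i => c (⟨ω, hω⟩, i))) := by
            rw [← euclid_sum_single, map_sum]
            exact Finset.sum_congr rfl fun i _ => by rw [map_smul]
          rw [h2, ← norm_toLp_sq]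
          refine pow_le_pow_left₀ (norm_nonneg _) ?_ 2
          refine (Z.le_opNorm _).trans ?_
          exact mul_le_of_le_one_left (norm_nonneg _) hZ
        · intro b _ hb
          refine Finset.sum_eq_zero fun i _ => ?_
          rw [if_neg, smul_zero]
          intro h; exact hb (Subtype.ext h)
        · intro h; exact absurd (Finset.mem_univ _) h
      · rw [dif_neg hω]
        rw [Finset.sum_eq_zero, norm_zero]
        · norm_num
        · intro b _
          refine Finset.sum_eq_zero fun i _ => ?_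
          rw [if_neg, smul_zero]
          intro h; exact hω (h ▸ b.2)
    refine (Finset.sum_le_sum fun ω _ => h1 ω).trans_eq ?_
    rw [Fintype.sum_prod_type, ← Finset.sum_subset (Finset.subset_univ S), ← Finset.sum_coe_sort S]
    · refine Finset.sum_congr rfl fun ω _ => ?_
      rw [dif_pos ω.2]
    · intro ω _ hω
      rw [dif_neg hω]

/-! ### Isometries -/

/-- extension by zero of `Z e_i` -/
noncomputable def zext {m : ℕ} (S : Finset (Fin N))
    (Z : EuclideanSpace ℝ (Fin m) →L[ℝ] EuclideanSpace ℝ S) (i : Fin m) (ω : Fin N) : ℝ :=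
  if h : ω ∈ S then Z (EuclideanSpace.single i 1) ⟨ω, h⟩ else 0

/-- `Z ↦ (Z e_i ⊗ δ_l)_{i, l}` -/
noncomputable def GY (N d m : ℕ) (S : Finset (Fin N)) :
    (EuclideanSpace ℝ (Fin m) →L[ℝ] EuclideanSpace ℝ S) →ₗ[ℝ]
      (Fin m × Fin d → Fin N → E d) where
  toFun Z := fun a ω => zext S Z a.1 ω • EuclideanSpace.single a.2 (1 : ℝ)
  map_add' := by
    intro x y; funext a ω
    simp only [Pi.add_apply, zext]
    rw [← add_smul]
    split_ifs <;> simp
  map_smul' := by
    intro c x; funext a ω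
    simp only [Pi.smul_apply, RingHom.id_apply, zext]
    rw [smul_smul]
    split_ifs <;> simp

theorem val_GY (m : ℕ) (S : Finset (Fin N)) (B : Fin N → E d)
    (Z : EuclideanSpace ℝ (Fin m) →L[ℝ] EuclideanSpace ℝ S) (a : Fin m × Fin d) :
    val (GY N d m S) B Z a = comb B (zext S Z a.1) a.2 := by
  unfold val GY comb
  simp only [LinearMap.coe_mk, AddHom.coe_mk]
  rw [WithLp.ofLp_sum, Finset.sum_apply]
  refine Finset.sum_congr rfl fun ω _ => ?_
  rw [inner_smul_right, EuclideanSpace.inner_single_right]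
  simp

theorem GY_norm (m : ℕ) (S : Finset (Fin N))
    (Z : EuclideanSpace ℝ (Fin m) →L[ℝ] EuclideanSpace ℝ S) (c : Fin m × Fin d → ℝ) :
    ∑ ω, ‖∑ a, c a • GY N d m S Z a ω‖ ^ 2 =
      ∑ l, ‖Z (WithLp.toLp 2 (fun i => c (i, l)))‖ ^ 2 := by
  have h1 : ∀ ω : Fin N, ‖∑ a, c a • GY N d m S Z a ω‖ ^ 2 =
      ∑ l, (∑ i, c (i, l) * zext S Z i ω) ^ 2 := by
    intro ω
    rw [EuclideanSpace.norm_sq_eq]
    refine Finset.sum_congr rfl fun l _ => ?_
    rw [Real.norm_eq_abs, sq_abs, WithLp.ofLp_sum, Finset.sum_apply]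
    congr 1
    unfold GY
    simp only [LinearMap.coe_mk, AddHom.coe_mk]
    rw [Fintype.sum_prod_type]
    refine Finset.sum_congr rfl fun i _ => ?_
    rw [Finset.sum_eq_single l]
    · simp
    · intro b _ hb
      simp [hb.symm]
    · intro h; exact absurd (Finset.mem_univ _) h
  have h2 : ∀ l : Fin d, ‖Z (WithLp.toLp 2 (fun i => c (i, l)))‖ ^ 2 =
      ∑ ω, (∑ i, c (i, l) * zext S Z i ω) ^ 2 := by
    intro l
    rw [EuclideanSpace.norm_sq_eq, ← Finset.sum_subset (Finset.subset_univ S),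
      ← Finset.sum_coe_sort S]
    · refine Finset.sum_congr rfl fun ω _ => ?_
      rw [Real.norm_eq_abs, sq_abs, ← euclid_sum_single, map_sum, WithLp.ofLp_sum,
        Finset.sum_apply]
      congr 1
      refine Finset.sum_congr rfl fun i _ => ?_
      rw [map_smul, zext, dif_pos ω.2]
      simp
    · intro ω _ hω
      rw [Finset.sum_eq_zero]
      · norm_num
      · intro i _
        rw [zext, dif_neg hω, mul_zero]
  rw [Finset.sum_congr rfl fun ω _ => h1 ω, Finset.sum_comm]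
  exact Finset.sum_congr rfl fun l _ => (h2 l).symm

theorem Y_event {P : Measure (Fin N → E d)} (hP : Tails P) (m : ℕ) (S : Finset (Fin N)) :
    P.real {B | ¬ ∀ y : Fin m → EuclideanSpace ℝ (Fin N),
      Orthonormal ℝ y → (∀ i, ∀ ω, ω ∉ S → y i ω = 0) →
      (m * d : ℝ) / 20 ≤ ∑ i, ‖comb B (fun ω => y i ω)‖ ^ 2} ≤
      5 ^ (m * S.card) * (Real.exp (-4 * (m * d)) * (Real.sqrt 2) ^ (m * d)) +
      5 ^ (7 * (m * S.card)) * Real.exp (-(59 / 100) * (m * d)) := by
  have := hP.prob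
  have hsum : ∀ c : Fin m × Fin d → ℝ,
      ∑ l, ‖(WithLp.toLp 2 (fun i => c (i, l)) : EuclideanSpace ℝ (Fin m))‖ ^ 2 =
        ∑ a, c a ^ 2 := by
    intro c
    rw [Fintype.sum_prod_type, Finset.sum_comm]
    exact Finset.sum_congr rfl fun l _ => norm_toLp_sq _
  have h := lower_net hP (Fin m × Fin d) (GY N d m S) ?_ {Z | ∀ x, ‖Z x‖ = ‖x‖} ?_ ?_
  · rw [Fintype.card_prod, Fintype.card_fin, Fintype.card_fin, finrank_clm,
      finrank_euclideanSpace, Fintype.card_coe] at h
    rw [Nat.cast_mul] at h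
    refine le_trans (measureReal_mono ?_ (measure_ne_top _ _)) h
    intro B hB hcon
    apply hB
    intro y hy hyS
    let Z : EuclideanSpace ℝ (Fin m) →L[ℝ] EuclideanSpace ℝ S :=
      LinearMap.toContinuousLinearMap
        (((EuclideanSpace.basisFun (Fin m) ℝ).toBasis).constr ℝ
          (fun i => (WithLp.toLp 2 (fun ω : S => y i ω) : EuclideanSpace ℝ S)))
    have hZ : ∀ i, Z (EuclideanSpace.single i 1) = WithLp.toLp 2 (fun ω : S => y i ω) := by
      intro i
      have h1 := (((EuclideanSpace.basisFun (Fin m) ℝ).toBasis)).constr_basis ℝ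
        (fun i => (WithLp.toLp 2 (fun ω : S => y i ω) : EuclideanSpace ℝ S)) i
      simp [Z]
    have hz : ∀ i, zext S Z i = fun ω => y i ω := by
      intro i; funext ω
      unfold zext
      by_cases hω : ω ∈ S
      · rw [dif_pos hω, hZ]
      · rw [dif_neg hω, hyS i ω hω]
    have hZiso : ∀ x, ‖Z x‖ = ‖x‖ := by
      intro x
      have hx : x = ∑ i, x i • (EuclideanSpace.single i (1 : ℝ)) := by
        rw [euclid_sum_single]
      have h2 : ‖Z x‖ ^ 2 = ‖∑ i, x i • y i‖ ^ 2 := by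
        rw [EuclideanSpace.norm_sq_eq, EuclideanSpace.norm_sq_eq,
          ← Finset.sum_subset (Finset.subset_univ S), ← Finset.sum_coe_sort S]
        · refine Finset.sum_congr rfl fun ω _ => ?_
          congr 2
          conv_lhs => rw [hx]
          rw [map_sum, WithLp.ofLp_sum, Finset.sum_apply, WithLp.ofLp_sum, Finset.sum_apply]
          refine Finset.sum_congr rfl fun i _ => ?_
          rw [map_smul, hZ]
          simp
        · intro ω _ hω
          rw [WithLp.ofLp_sum, Finset.sum_apply, Finset.sum_eq_zero]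
          · simp
          · intro i _
            simp [hyS i ω hω]
      have h3 : ‖∑ i, x i • y i‖ ^ 2 = ‖x‖ ^ 2 := by
        rw [EuclideanSpace.norm_sq_eq x, ← real_inner_self_eq_norm_sq,
          hy.inner_sum]
        simp [sq]
      have h4 : ‖Z x‖ ^ 2 = ‖x‖ ^ 2 := h2.trans h3
      exact (sq_eq_sq₀ (norm_nonneg _) (norm_nonneg _)).1 h4
    have h4 := hcon Z hZiso
    refine h4.trans_eq ?_
    simp only [val_GY, hz]
    rw [Fintype.sum_prod_type]
    refine Finset.sum_congr rfl fun i _ => ?_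
    rw [EuclideanSpace.norm_sq_eq]
    simp
  · intro Z hZ c
    rw [GY_norm, ← hsum]
    refine Finset.sum_le_sum fun l _ => pow_le_pow_left₀ (norm_nonneg _) ?_ 2
    exact (Z.le_opNorm _).trans (mul_le_of_le_one_left (norm_nonneg _) hZ)
  · intro Z hZ
    refine ContinuousLinearMap.opNorm_le_bound _ zero_le_one ?_
    intro x
    rw [one_mul, hZ x]
  · intro Z hZ c
    rw [GY_norm, ← hsum]
    refine Finset.sum_congr rfl fun l _ => ?_
    rw [hZ]

/-! ### The cover property -/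

theorem cover_event {P : Measure (Fin N → E d)} (hP : Tails P) (hN : 0 < N) (t : ℝ) (ht : 0 < t)
    (j : ℕ) (hj : 64 * (2 * (1 / 2) ^ j) ^ 2 < pt t / 2 * t ^ 2) :
    P.real {B | RawOp B ∧ ¬ RawCover B t} ≤
      5 ^ (j * d) * Real.exp (-(13 / 100) * (pt t * N)) := by
  classical
  have := hP.prob
  obtain ⟨s, hs, hs1, hs2⟩ := net_sub (E d) {u | ‖u‖ = 1} (fun x hx => le_of_eq hx) j
  rw [finrank_euclideanSpace_fin] at hs
  set F : E d → Set (Fin N → E d) := fun u =>
    {B | (((Finset.univ.filter (fun ω => 2 * t ≤ |⟪B ω, u⟫|)).card : ℕ) : ℝ) ≤ pt t * N / 2}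
    with hF
  have hsub : {B | RawOp B ∧ ¬ RawCover B t} ⊆ ⋃ u ∈ s, F u := by
    rintro B ⟨hop, hB⟩
    by_contra hcon
    simp only [Set.mem_iUnion, not_exists] at hcon
    apply hB
    -- unit vectors
    have key : ∀ w : E d, ‖w‖ = 1 → ∃ ω, t ≤ |⟪B ω, w⟫| := by
      intro w hw
      obtain ⟨u, hu, hwu⟩ := hs2 w hw
      have h1 : pt t * N / 2 <
          (((Finset.univ.filter (fun ω => 2 * t ≤ |⟪B ω, u⟫|)).card : ℕ) : ℝ) :=
        not_le.1 (hcon u hu)
      set I := Finset.univ.filter (fun ω => 2 * t ≤ |⟪B ω, u⟫|) with hI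
      by_contra hno
      push Not at hno
      -- all `ω ∈ I` satisfy `t < |⟪B ω, w - u⟫|`
      have h2 : ∀ ω ∈ I, t ^ 2 ≤ ⟪B ω, w - u⟫ ^ 2 := by
        intro ω hω
        have h3 : 2 * t ≤ |⟪B ω, u⟫| := (Finset.mem_filter.1 hω).2
        have h4 := hno ω
        have h5 : |⟪B ω, u⟫| ≤ |⟪B ω, w⟫| + |⟪B ω, w - u⟫| := by
          rw [inner_sub_right]
          have := abs_sub (⟪B ω, w⟫) (⟪B ω, w⟫ - ⟪B ω, u⟫)
          rwa [sub_sub_cancel] at this
        have h6 : t ≤ |⟪B ω, w - u⟫| := by linarith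
        calc t ^ 2 ≤ |⟪B ω, w - u⟫| ^ 2 := pow_le_pow_left₀ ht.le h6 2
          _ = _ := sq_abs _
      have h7 : (I.card : ℝ) * t ^ 2 ≤ 64 * N * ‖w - u‖ ^ 2 := by
        calc (I.card : ℝ) * t ^ 2 = ∑ _ω ∈ I, t ^ 2 := by rw [Finset.sum_const, nsmul_eq_mul]
          _ ≤ ∑ ω ∈ I, ⟪B ω, w - u⟫ ^ 2 := Finset.sum_le_sum h2
          _ ≤ ∑ ω, ⟪B ω, w - u⟫ ^ 2 :=
              Finset.sum_le_sum_of_subset_of_nonneg (Finset.subset_univ _)
                (fun _ _ _ => sq_nonneg _)
          _ ≤ 64 * N * ‖w - u‖ ^ 2 := hop _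
      have h8 : ‖w - u‖ ^ 2 ≤ (2 * (1 / 2) ^ j) ^ 2 := pow_le_pow_left₀ (norm_nonneg _) hwu 2
      have hN' : (0 : ℝ) < N := by exact_mod_cast hN
      have h9 : (I.card : ℝ) * t ^ 2 ≤ N * (64 * (2 * (1 / 2) ^ j) ^ 2) := by
        calc (I.card : ℝ) * t ^ 2 ≤ 64 * N * ‖w - u‖ ^ 2 := h7
          _ ≤ 64 * N * (2 * (1 / 2) ^ j) ^ 2 := by gcongr
          _ = _ := by ring
      have h10 : (N : ℝ) * (64 * (2 * (1 / 2) ^ j) ^ 2) < N * (pt t / 2 * t ^ 2) :=
        mul_lt_mul_of_pos_left hj hN'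
      have h11 : pt t * N / 2 * t ^ 2 < (I.card : ℝ) * t ^ 2 :=
        mul_lt_mul_of_pos_right h1 (by positivity)
      nlinarith
    intro w
    by_cases hw : w = 0
    · subst hw
      exact ⟨⟨0, hN⟩, by simp⟩
    · have hw' : 0 < ‖w‖ := norm_pos_iff.2 hw
      obtain ⟨ω, hω⟩ := key (‖w‖⁻¹ • w) (by
        rw [norm_smul, norm_inv, norm_norm, inv_mul_cancel₀ hw'.ne'])
      refine ⟨ω, ?_⟩
      rw [inner_smul_right, abs_mul, abs_of_pos (inv_pos.2 hw'), ← div_eq_inv_mul,
        le_div_iff₀ hw'] at hω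
      exact hω
  refine (measureReal_mono hsub (measure_ne_top _ _)).trans ?_
  refine (biUnion_le P s F (Real.exp (-(13 / 100) * (pt t * N))) ?_).trans ?_
  · intro u hu
    exact hP.cov t ht u (hs1 u hu)
  · refine mul_le_mul_of_nonneg_right ?_ (Real.exp_nonneg _)
    exact_mod_cast hs

end Pool.Agent.Lib.MP_bd1451_an
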