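import Pool.Agent.Lib.MP_bd1451_an.Defs

/-!
# MP_bd1451_an: interface between the Gaussian tail bounds (target 1a) and the union bounds (1b)

`P` is a probability measure on the space `Fin N → E d` of matrices (rows `B ω`).  The linear
functional attached to `g : Fin N → E d` is `B ↦ ∑ ω, ⟪B ω, g ω⟫`.
-/

set_option autoImplicit false
open scoped BigOperators RealInnerProductSpace
open MeasureTheory

namespace Pool.Agent.Lib.MP_bd1451_an

/-- `P(|ξ| ≥ 2t)` for a standard Gaussian `ξ`. -/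
noncomputable def pt (t : ℝ) : ℝ := (ProbabilityTheory.gaussianReal 0 1).real {x | 2 * t ≤ |x|}

/-- The three tail bounds G1, G2, G3. -/
structure Tails {N d : ℕ} (P : Measure (Fin N → E d)) : Prop where
  prob : IsProbabilityMeasure P
  /-- G1: upper tail for contractions -/
  up : ∀ (A : Type) [Fintype A] (g : A → Fin N → E d),
    (∀ c : A → ℝ, ∑ ω, ‖∑ a, c a • g a ω‖ ^ 2 ≤ ∑ a, c a ^ 2) → ∀ y : ℝ,
      P.real {B | y ≤ ∑ a, (∑ ω, ⟪B ω, g a ω⟫) ^ 2} ≤
        Real.exp (-y / 4) * (Real.sqrt 2) ^ (Fintype.card A)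
  /-- G2: lower tail for isometries -/
  lo : ∀ (A : Type) [Fintype A] (g : A → Fin N → E d),
    (∀ c : A → ℝ, ∑ ω, ‖∑ a, c a • g a ω‖ ^ 2 = ∑ a, c a ^ 2) →
      P.real {B | ∑ a, (∑ ω, ⟪B ω, g a ω⟫) ^ 2 ≤ (Fintype.card A : ℝ) / 8} ≤
        Real.exp (-(59 / 100) * Fintype.card A)
  /-- G3: many rows have a large inner product with a given unit vector -/
  cov : ∀ (t : ℝ), 0 < t → ∀ u : E d, ‖u‖ = 1 →
      P.real {B | (((Finset.univ.filter (fun ω => 2 * t ≤ |⟪B ω, u⟫|)).card : ℕ) : ℝ) ≤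
        pt t * N / 2} ≤ Real.exp (-(13 / 100) * (pt t * N))

/-- TARGET 1a. -/
def GaussianTails : Prop :=
  (∀ t : ℝ, 0 < t → 0 < pt t) ∧ ∀ N d : ℕ, ∃ P : Measure (Fin N → E d), Tails P

end Pool.Agent.Lib.MP_bd1451_an
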