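import Pool.Agent.Lib.MP_bd1451_an.GaussTails
import Pool.Agent.Lib.MP_bd1451_an.TailsDef

/-!
# MP_bd1451_an: `GaussianTails` (TARGET 1a)
-/

set_option autoImplicit false
open scoped BigOperators RealInnerProductSpace
open MeasureTheory ProbabilityTheory

namespace Pool.Agent.Lib.MP_bd1451_an

/-- rows of a vector of `ℝ^(N × d)` -/
noncomputable def rows (N d : ℕ) (x : EuclideanSpace ℝ (Fin N × Fin d)) : Fin N → E d :=
  fun ω => WithLp.toLp 2 (fun l => x (ω, l))

/-- flatten -/
noncomputable def flat {N d : ℕ} (g : Fin N → E d) : EuclideanSpace ℝ (Fin N × Fin d) :=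
  WithLp.toLp 2 (fun p => g p.1 p.2)

lemma measurable_rows (N d : ℕ) : Measurable (rows N d) := by
  rw [measurable_pi_iff]
  intro ω
  unfold rows
  fun_prop

lemma inner_flat {N d : ℕ} (g : Fin N → E d) (x : EuclideanSpace ℝ (Fin N × Fin d)) :
    ⟪flat g, x⟫ = ∑ ω, ⟪rows N d x ω, g ω⟫ := by
  simp only [PiLp.inner_apply, flat, rows]
  rw [Fintype.sum_prod_type]
  simp [mul_comm]

lemma flat_sum {N d : ℕ} {A : Type*} [Fintype A] (g : A → Fin N → E d) (c : A → ℝ) :
    ∑ a, c a • flat (g a) = flat (fun ω => ∑ a, c a • g a ω) := by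
  ext p
  simp [flat]

lemma norm_flat_sq {N d : ℕ} (g : Fin N → E d) : ‖flat g‖ ^ 2 = ∑ ω, ‖g ω‖ ^ 2 := by
  simp_rw [EuclideanSpace.real_norm_sq_eq]
  rw [Fintype.sum_prod_type]
  simp [flat]

lemma orthonormal_of_isometry {H : Type*} [NormedAddCommGroup H] [InnerProductSpace ℝ H]
    {A : Type*} [Fintype A] (g : A → H)
    (h : ∀ c : A → ℝ, ‖∑ a, c a • g a‖ ^ 2 = ∑ a, c a ^ 2) : Orthonormal ℝ g := by
  classical
  have h1 : ∀ a, ‖g a‖ ^ 2 = 1 := by
    intro a
    have := h (fun b => if b = a then 1 else 0)
    simpa using this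
  refine ⟨fun a => ?_, fun a b hab => ?_⟩
  · have := h1 a
    have h0 := norm_nonneg (g a)
    nlinarith [sq_nonneg (‖g a‖ - 1)]
  · have h2 := h (fun c => (if c = a then 1 else 0) + (if c = b then 1 else 0))
    simp only [add_smul, Finset.sum_add_distrib, ite_smul, one_smul, zero_smul,
      Finset.sum_ite_eq', Finset.mem_univ, if_true] at h2
    rw [norm_add_sq_real, h1, h1] at h2
    have h3 : ∑ c, ((if c = a then (1 : ℝ) else 0) + (if c = b then 1 else 0)) ^ 2 = 2 := by
      have h4 : ∀ c, ((if c = a then (1 : ℝ) else 0) + (if c = b then 1 else 0)) ^ 2 =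
          (if c = a then (1 : ℝ) else 0) + (if c = b then 1 else 0) := by
        intro c
        by_cases hc : c = a
        · have : c ≠ b := fun h' => hab (hc ▸ h')
          simp [hc, hab]
        · by_cases hc' : c = b
          · subst hc'
            simp [hc]
          · simp [hc, hc']
      simp_rw [h4]
      rw [Finset.sum_add_distrib]
      simp
      norm_num
    rw [h3] at h2
    linarith

theorem gaussianTails : GaussianTails := by
  refine ⟨fun t _ => tail_pos t, fun N d => ?_⟩
  refine ⟨(stdGaussian (EuclideanSpace ℝ (Fin N × Fin d))).map (rows N d), ?_, ?_, ?_, ?_⟩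
  · exact Measure.isProbabilityMeasure_map (measurable_rows N d).aemeasurable
  · intro A _ g hg y
    have hm : MeasurableSet {B : Fin N → E d | y ≤ ∑ a, (∑ ω, ⟪B ω, g a ω⟫) ^ 2} :=
      measurableSet_le measurable_const (by fun_prop)
    rw [map_measureReal_apply (measurable_rows N d) hm]
    have h1 := gauss_upper (fun a => flat (g a)) (fun c => by
      rw [flat_sum, norm_flat_sq]
      exact hg c) y
    refine le_trans (le_of_eq ?_) h1
    congr 1
    ext x
    simp [inner_flat]
  · intro A _ g hg
    have hm : MeasurableSet {B : Fin N → E d |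
        ∑ a, (∑ ω, ⟪B ω, g a ω⟫) ^ 2 ≤ (Fintype.card A : ℝ) / 8} :=
      measurableSet_le (by fun_prop) measurable_const
    rw [map_measureReal_apply (measurable_rows N d) hm]
    have h1 := gauss_lower (fun a => flat (g a)) (orthonormal_of_isometry _ (fun c => by
      rw [flat_sum, norm_flat_sq]
      exact hg c))
    refine le_trans (le_of_eq ?_) h1
    congr 1
    ext x
    simp [inner_flat]
  · intro t ht u hu
    have hm : MeasurableSet {B : Fin N → E d |
        (((Finset.univ.filter (fun ω => 2 * t ≤ |⟪B ω, u⟫|)).card : ℕ) : ℝ) ≤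
          pt t * N / 2} := by
      apply measurableSet_le _ measurable_const
      have h2 : (fun B : Fin N → E d =>
          (((Finset.univ.filter (fun ω => 2 * t ≤ |⟪B ω, u⟫|)).card : ℕ) : ℝ)) =
          fun B => ∑ ω, if 2 * t ≤ |⟪B ω, u⟫| then (1 : ℝ) else 0 := by
        ext B
        simp
      rw [h2]
      apply Finset.measurable_sum
      intro ω _
      apply Measurable.ite _ measurable_const measurable_const
      exact measurableSet_le measurable_const (by fun_prop)
    rw [map_measureReal_apply (measurable_rows N d) hm]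
    set e : Fin N → Fin N → E d := fun i ω => if ω = i then u else 0 with he
    have h3 : ∀ (i : Fin N) (x : EuclideanSpace ℝ (Fin N × Fin d)),
        ⟪flat (e i), x⟫ = ⟪rows N d x i, u⟫ := by
      intro i x
      rw [inner_flat, he]
      simp only
      rw [Finset.sum_eq_single i]
      · simp
      · intro b _ hb
        simp [hb]
      · simp
    have h1 := gauss_count (fun i => flat (e i)) (orthonormal_of_isometry _ (fun c => by
      rw [flat_sum, norm_flat_sq]
      refine Finset.sum_congr rfl fun ω _ => ?_
      rw [he]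
      simp only
      rw [Finset.sum_eq_single ω]
      · simp [norm_smul, hu]
      · intro b _ hb
        simp [hb.symm]
      · simp)) t
    refine le_trans (le_of_eq ?_) h1
    congr 1
    ext x
    simp only [Set.mem_preimage, Set.mem_setOf_eq, h3]
    rfl

end Pool.Agent.Lib.MP_bd1451_an
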