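import Pool.Agent.Lib.MP_bd1451_an.Defs

/-!
# TARGET 4: the level set lemma
-/

open scoped BigOperators RealInnerProductSpace

namespace Pool.Agent.Lib.MP_bd1451_an

section Vec

variable {N d : ℕ} {ι : Type} [Fintype ι]

/-- the tensor `∑_{ω ∈ S} B ω ⊗ V ω` -/
noncomputable def tvec (B : Fin N → E d) (V : Fin N → ι → ℝ) (S : Finset (Fin N)) :
    PiLp 2 (fun _ : ι => E d) :=
  WithLp.toLp 2 (fun i => ∑ ω ∈ S, V ω i • B ω)

lemma norm_tvec_sq (B : Fin N → E d) (V : Fin N → ι → ℝ) (S : Finset (Fin N)) :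
    ‖tvec B V S‖ ^ 2 = Q B V S := by
  rw [PiLp.norm_sq_eq_of_L2]
  rfl

lemma sqrt_Q (B : Fin N → E d) (V : Fin N → ι → ℝ) (S : Finset (Fin N)) :
    Real.sqrt (Q B V S) = ‖tvec B V S‖ := by
  rw [← norm_tvec_sq, Real.sqrt_sq (norm_nonneg _)]

omit [Fintype ι] in
lemma tvec_union (B : Fin N → E d) (V : Fin N → ι → ℝ) {S T : Finset (Fin N)}
    (h : Disjoint S T) : tvec B V (S ∪ T) = tvec B V S + tvec B V T := by
  unfold tvec
  rw [← WithLp.toLp_add]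
  congr 1
  funext i
  simp only [Pi.add_apply]
  rw [Finset.sum_union h]

/-- the levels `{s ≤ 2^{-I} s*}` -/
noncomputable def lev (s : Fin N → ℝ) (c : ℝ) : Finset (Fin N) := Finset.univ.filter (fun ω => s ω ≤ c)

/-- one level set -/
lemma level_step {R m : ℕ} {B : Fin N → E d} (hN : N = R * d) (hR : 2 ≤ R)
    (hP1 : P1 B m) {s : Fin N → ℝ} (hs : ∀ ω, 0 ≤ s ω) {V : Fin N → ι → ℝ} {μ : ℝ}
    (hμ : 0 ≤ μ) (hV : OpBd V μ) (hVs : ∀ ω, ∑ i, V ω i ^ 2 ≤ s ω ^ 2) {b : ℝ} (hb : 0 ≤ b)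
    (hδ : 2 * (N : ℝ) * m * μ ≤ b ^ 2) {c : ℝ} (hc : 0 ≤ c) :
    ‖tvec B V (lev s c)‖ + 14 * ∑ ω ∈ lev s (c / 2), s ω ≤
      ‖tvec B V (lev s (c / 2))‖ + 14 * ∑ ω ∈ lev s c, s ω + 7 * (d * c) + 7 * b := by
  classical
  set S := lev s c \ lev s (c / 2) with hS
  have hsub : lev s (c / 2) ⊆ lev s c := by
    intro ω hω
    simp only [lev, Finset.mem_filter, Finset.mem_univ, true_and] at hω ⊢
    linarith
  have hdisj : Disjoint (lev s (c / 2)) S := Finset.disjoint_sdiff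
  have hun : lev s c = lev s (c / 2) ∪ S := by
    rw [hS, Finset.union_sdiff_of_subset hsub]
  have hsum : ∑ ω ∈ lev s c, s ω = ∑ ω ∈ lev s (c / 2), s ω + ∑ ω ∈ S, s ω := by
    conv_lhs => rw [hun]
    rw [Finset.sum_union hdisj]
  have hnorm : ‖tvec B V (lev s c)‖ ≤ ‖tvec B V (lev s (c / 2))‖ + ‖tvec B V S‖ := by
    conv_lhs => rw [hun]
    rw [tvec_union B V hdisj]
    exact norm_add_le _ _
  have hSc : ∀ ω ∈ S, c / 2 < s ω ∧ s ω ≤ c := by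
    intro ω hω
    rw [hS, Finset.mem_sdiff] at hω
    simp only [lev, Finset.mem_filter, Finset.mem_univ, true_and, not_le] at hω
    exact ⟨hω.2, hω.1⟩
  have hcard : (S.card : ℝ) ≤ N := by
    exact_mod_cast (Finset.card_le_univ S).trans (by simp)
  have hdN : (d : ℝ) ≤ N := by
    rw [hN]; push_cast
    have : (2 : ℝ) ≤ R := by exact_mod_cast hR
    nlinarith [Nat.cast_nonneg (α := ℝ) d]
  have hτ : ∑ ω ∈ S, ∑ i, V ω i ^ 2 ≤ S.card * c ^ 2 := by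
    calc ∑ ω ∈ S, ∑ i, V ω i ^ 2 ≤ ∑ ω ∈ S, c ^ 2 := by
          refine Finset.sum_le_sum fun ω hω => (hVs ω).trans ?_
          exact pow_le_pow_left₀ (hs ω) (hSc ω hω).2 2
      _ = S.card * c ^ 2 := by simp
  have hcardsum : (S.card : ℝ) * c ≤ 2 * ∑ ω ∈ S, s ω := by
    calc (S.card : ℝ) * c = ∑ ω ∈ S, c := by simp
      _ ≤ ∑ ω ∈ S, 2 * s ω := Finset.sum_le_sum fun ω hω => by linarith [(hSc ω hω).1]
      _ = 2 * ∑ ω ∈ S, s ω := by rw [Finset.mul_sum]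
  have hQ := hP1 ι V μ hV hμ S
  set k : ℝ := (S.card : ℝ) with hk
  have hk0 : 0 ≤ k := Nat.cast_nonneg _
  have hd0 : (0 : ℝ) ≤ d := Nat.cast_nonneg _
  have hm0 : (0 : ℝ) ≤ m := Nat.cast_nonneg _
  have hmμ : 0 ≤ (m : ℝ) * μ := mul_nonneg hm0 hμ
  have hbound : Q B V S ≤ (7 * ((k + d) * c + b)) ^ 2 := by
    have h1 : (k + d) * (∑ ω ∈ S, ∑ i, V ω i ^ 2 + m * μ) ≤
        ((k + d) * c) ^ 2 + b ^ 2 := by
      have h2 : (k + d) * ∑ ω ∈ S, ∑ i, V ω i ^ 2 ≤ (k + d) * (k * c ^ 2) :=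
        mul_le_mul_of_nonneg_left hτ (by linarith)
      have h3 : (k + d) * (k * c ^ 2) ≤ ((k + d) * c) ^ 2 := by
        have : (k + d) * (k * c ^ 2) ≤ (k + d) * ((k + d) * c ^ 2) := by
          refine mul_le_mul_of_nonneg_left ?_ (by linarith)
          exact mul_le_mul_of_nonneg_right (by linarith) (sq_nonneg c)
        calc _ ≤ _ := this
          _ = _ := by ring
      have h4 : (k + d) * (m * μ) ≤ b ^ 2 := by
        calc (k + d) * (m * μ) ≤ (2 * N) * (m * μ) :=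
              mul_le_mul_of_nonneg_right (by linarith) hmμ
          _ = 2 * N * m * μ := by ring
          _ ≤ b ^ 2 := hδ
      calc (k + d) * (∑ ω ∈ S, ∑ i, V ω i ^ 2 + m * μ)
          = (k + d) * ∑ ω ∈ S, ∑ i, V ω i ^ 2 + (k + d) * (m * μ) := by ring
        _ ≤ _ := add_le_add (h2.trans h3) h4
    have h5 : 0 ≤ (k + d) * c := mul_nonneg (by linarith) hc
    calc Q B V S ≤ 48 * (k + d) * (∑ ω ∈ S, ∑ i, V ω i ^ 2 + m * μ) := hQ
      _ = 48 * ((k + d) * (∑ ω ∈ S, ∑ i, V ω i ^ 2 + m * μ)) := by ring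
      _ ≤ 48 * (((k + d) * c) ^ 2 + b ^ 2) := mul_le_mul_of_nonneg_left h1 (by norm_num)
      _ ≤ (7 * ((k + d) * c + b)) ^ 2 := by nlinarith [mul_nonneg h5 hb, sq_nonneg ((k+d)*c), sq_nonneg b]
  have hSnorm : ‖tvec B V S‖ ≤ 7 * ((k + d) * c + b) := by
    rw [← norm_tvec_sq] at hbound
    have h5 : 0 ≤ (k + d) * c := mul_nonneg (by linarith) hc
    exact (pow_le_pow_iff_left₀ (norm_nonneg _) (by linarith) two_ne_zero).1 hbound
  have h6 : (k + d) * c ≤ 2 * ∑ ω ∈ S, s ω + d * c := by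
    have : (k + d) * c = k * c + d * c := by ring
    linarith
  linarith

/-- all levels -/
lemma level_iter {R m : ℕ} {B : Fin N → E d} (hN : N = R * d) (hR : 2 ≤ R)
    (hP1 : P1 B m) {s : Fin N → ℝ} (hs : ∀ ω, 0 ≤ s ω) {V : Fin N → ι → ℝ} {μ : ℝ}
    (hμ : 0 ≤ μ) (hV : OpBd V μ) (hVs : ∀ ω, ∑ i, V ω i ^ 2 ≤ s ω ^ 2) {b : ℝ} (hb : 0 ≤ b)
    (hδ : 2 * (N : ℝ) * m * μ ≤ b ^ 2) {c : ℝ} (hc : 0 ≤ c) (I : ℕ) :
    ‖tvec B V (lev s c)‖ + 14 * ∑ ω ∈ lev s (c / 2 ^ I), s ω ≤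
      ‖tvec B V (lev s (c / 2 ^ I))‖ + 14 * ∑ ω ∈ lev s c, s ω +
        7 * (d * c) * (2 - 2 / 2 ^ I) + 7 * b * I := by
  induction I with
  | zero => simp
  | succ I ih =>
    have h1 := level_step hN hR hP1 hs hμ hV hVs hb hδ (c := c / 2 ^ I) (by positivity)
    have e1 : c / 2 ^ I / 2 = c / 2 ^ (I + 1) := by rw [pow_succ]; field_simp
    rw [e1] at h1
    have e2 : 7 * (d * c) * (2 - 2 / 2 ^ (I + 1)) =
        7 * (d * c) * (2 - 2 / 2 ^ I) + 7 * (d * (c / 2 ^ I)) := by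
      rw [pow_succ]; field_simp; ring
    rw [e2]
    push_cast
    linarith

/-- bound of the part with small rows -/
lemma small_part {R m : ℕ} {B : Fin N → E d} (hN : N = R * d) (hR : 2 ≤ R) (hd : 0 < d)
    (hP0 : P0 B) (hP1 : P1 B m) {s : Fin N → ℝ} (hs : ∀ ω, 0 ≤ s ω) (hs8 : ∑ ω, s ω ≤ 8)
    {V : Fin N → ι → ℝ} {μ : ℝ}
    (hμ : 0 ≤ μ) (hV : OpBd V μ) (hVs : ∀ ω, ∑ i, V ω i ^ 2 ≤ s ω ^ 2)
    (hδ : (N : ℝ) * m * μ ≤ 1 / (98 * ((12 + R : ℕ) : ℝ) ^ 2)) :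
    ‖tvec B V (lev s (512 / d))‖ ≤ 7282 := by
  classical
  have hd' : (0 : ℝ) < d := by exact_mod_cast hd
  set I : ℕ := 12 + R with hI
  have hI0 : (0 : ℝ) < (I : ℝ) := by
    have : 0 < I := by omega
    exact_mod_cast this
  have hb : 2 * (N : ℝ) * m * μ ≤ (1 / (7 * (I : ℝ))) ^ 2 := by
    have e : (1 / (7 * (I : ℝ))) ^ 2 = 2 * (1 / (98 * (I : ℝ) ^ 2)) := by
      field_simp; norm_num
    rw [e]; linarith
  have h1 := level_iter hN hR hP1 hs hμ hV hVs (b := 1 / (7 * (I : ℝ))) (by positivity) hb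
    (c := 512 / d) (by positivity) I
  have h2 : 0 ≤ ∑ ω ∈ lev s (512 / d / 2 ^ I), s ω := Finset.sum_nonneg fun ω _ => hs ω
  have h3 : ∑ ω ∈ lev s (512 / (d : ℝ)), s ω ≤ 8 :=
    (Finset.sum_le_sum_of_subset_of_nonneg (Finset.subset_univ _)
      (fun ω _ _ => hs ω)).trans hs8
  have h4 : 7 * ((d : ℝ) * (512 / d)) * (2 - 2 / 2 ^ I) ≤ 7168 := by
    have e : (d : ℝ) * (512 / d) = 512 := by field_simp
    rw [e]
    have : (0 : ℝ) < 2 / 2 ^ I := by positivity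
    linarith
  have h5 : 7 * (1 / (7 * (I : ℝ))) * (I : ℝ) = 1 := by field_simp
  -- the lowest level
  have h6 : ‖tvec B V (lev s (512 / d / 2 ^ I))‖ ≤ 1 := by
    set T := lev s (512 / d / 2 ^ I) with hT
    have hQ := hP0 ι V T
    have hcard : (T.card : ℝ) ≤ N := by
      exact_mod_cast (Finset.card_le_univ T).trans (by simp)
    have hτ : ∑ ω ∈ T, ∑ i, V ω i ^ 2 ≤ N * (512 / d / 2 ^ I) ^ 2 := by
      calc ∑ ω ∈ T, ∑ i, V ω i ^ 2 ≤ ∑ ω ∈ T, (512 / (d : ℝ) / 2 ^ I) ^ 2 := by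
            refine Finset.sum_le_sum fun ω hω => (hVs ω).trans ?_
            refine pow_le_pow_left₀ (hs ω) ?_ 2
            simp only [hT, lev, Finset.mem_filter, Finset.mem_univ, true_and] at hω
            exact hω
        _ = T.card * (512 / (d : ℝ) / 2 ^ I) ^ 2 := by simp
        _ ≤ N * (512 / d / 2 ^ I) ^ 2 := mul_le_mul_of_nonneg_right hcard (sq_nonneg _)
    have hpow : (4096 : ℝ) * R ≤ 2 ^ I := by
      have e : (2 : ℝ) ^ I = 4096 * 2 ^ R := by rw [hI, pow_add]; norm_num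
      rw [e]
      have : (R : ℝ) ≤ 2 ^ R := by
        exact_mod_cast (Nat.lt_two_pow_self (n := R)).le
      linarith
    have hbound : Q B V T ≤ 1 ^ 2 := by
      calc Q B V T ≤ 64 * N * ∑ ω ∈ T, ∑ i, V ω i ^ 2 := hQ
        _ ≤ 64 * N * (N * (512 / d / 2 ^ I) ^ 2) :=
            mul_le_mul_of_nonneg_left hτ (by positivity)
        _ = (4096 * R / 2 ^ I) ^ 2 := by
            rw [hN]; push_cast; field_simp; norm_num
        _ ≤ 1 ^ 2 := by
            refine pow_le_pow_left₀ (by positivity) ?_ 2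
            rw [div_le_one (by positivity)]
            exact hpow
    rw [← norm_tvec_sq] at hbound
    exact (pow_le_pow_iff_left₀ (norm_nonneg _) zero_le_one two_ne_zero).1 hbound
  linarith

end Vec

/-- TARGET 4 -/
theorem levelSets : LevelSets := by
  classical
  intro R m hR
  set I : ℝ := ((12 + R : ℕ) : ℝ) with hI
  have hI12 : (12 : ℝ) ≤ I := by rw [hI]; push_cast; linarith [Nat.cast_nonneg (α := ℝ) R]
  refine ⟨1 / (98 * I ^ 2), by positivity, ?_⟩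
  intro d hd B hP0 hP1 hP2 r V₁ μ hV₁ hμ hδ hs8 hcomb ι _ V hV hVV₁
  have hδ1 : 1 / (98 * I ^ 2) ≤ 1 / 64 := by
    refine one_div_le_one_div_of_le (by norm_num) ?_
    nlinarith
  have hd' : (0 : ℝ) < d := by exact_mod_cast hd
  set s : Fin (R * d) → ℝ := fun ω => Real.sqrt (∑ i, V₁ ω i ^ 2) with hs
  have hs0 : ∀ ω, 0 ≤ s ω := fun ω => Real.sqrt_nonneg _
  have hs2 : ∀ ω, s ω ^ 2 = ∑ i, V₁ ω i ^ 2 := fun ω =>
    Real.sq_sqrt (Finset.sum_nonneg fun i _ => sq_nonneg _)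
  have hδ' : ((R * d : ℕ) : ℝ) * m * μ ≤ 1 / (98 * ((12 + R : ℕ) : ℝ) ^ 2) := by
    rw [Nat.cast_mul]
    exact hδ
  have hA₁ : ‖tvec B V₁ (lev s (512 / d))‖ ≤ 7282 :=
    small_part rfl hR hd hP0 hP1 hs0 hs8 hμ hV₁ (fun ω => (hs2 ω).ge) hδ'
  have hA : ‖tvec B V (lev s (512 / d))‖ ≤ 7282 :=
    small_part rfl hR hd hP0 hP1 hs0 hs8 hμ hV (fun ω => (hVV₁ ω).trans (hs2 ω).ge) hδ'
  set T := lev s (512 / (d : ℝ)) with hT
  set U := Finset.univ \ T with hU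
  have hdisj : Disjoint T U := Finset.disjoint_sdiff
  have hun : (Finset.univ : Finset (Fin (R * d))) = T ∪ U := by
    rw [hU, Finset.union_sdiff_of_subset (Finset.subset_univ T)]
  have hUs : ∀ ω ∈ U, 512 / (d : ℝ) < s ω := by
    intro ω hω
    rw [hU, Finset.mem_sdiff] at hω
    have := hω.2
    simp only [hT, lev, Finset.mem_filter, Finset.mem_univ, true_and, not_le] at this
    exact this
  -- `|U| ≤ d / 64`
  have hUcard : U.card ≤ d / 64 := by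
    have h1 : (U.card : ℝ) * (512 / d) ≤ 8 := by
      calc (U.card : ℝ) * (512 / d) = ∑ ω ∈ U, 512 / (d : ℝ) := by simp
        _ ≤ ∑ ω ∈ U, s ω := Finset.sum_le_sum fun ω hω => (hUs ω hω).le
        _ ≤ ∑ ω, s ω := Finset.sum_le_sum_of_subset_of_nonneg (Finset.subset_univ _)
            (fun ω _ _ => hs0 ω)
        _ ≤ 8 := hs8
    rw [mul_div_assoc', div_le_iff₀ hd'] at h1
    have h2 : (U.card : ℝ) * 64 ≤ d := by linarith
    rw [Nat.le_div_iff_mul_le (by norm_num)]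
    exact_mod_cast h2
  have hUcard' : (U.card : ℝ) ≤ d := by
    have h1 : U.card ≤ d := hUcard.trans (Nat.div_le_self _ _)
    exact_mod_cast h1
  -- `V₁` on `U`
  have hzero : tvec B V₁ Finset.univ = 0 := by
    unfold tvec
    ext1 i
    have h1 := hcomb i
    unfold comb at h1
    simpa using h1
  have hU₁ : ‖tvec B V₁ U‖ ≤ 7282 := by
    have h1 := tvec_union B V₁ hdisj
    rw [← hun, hzero] at h1
    have h2 : tvec B V₁ U = -tvec B V₁ T := by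
      rw [eq_neg_iff_add_eq_zero, add_comm]; exact h1.symm
    rw [h2, norm_neg]
    exact hA₁
  set τ := ∑ ω ∈ U, ∑ i, V₁ ω i ^ 2 with hτ
  have hm0 : (0 : ℝ) ≤ m := Nat.cast_nonneg _
  have hmμ : 0 ≤ (m : ℝ) * μ := mul_nonneg hm0 hμ
  have hNmμ : (R * d : ℝ) * m * μ ≤ 1 / 64 := hδ.trans hδ1
  have hdmμ : (d : ℝ) * (m * μ) ≤ 1 := by
    have h1 : (d : ℝ) ≤ R * d := by
      have : (2 : ℝ) ≤ R := by exact_mod_cast hR
      nlinarith
    calc (d : ℝ) * (m * μ) ≤ (R * d) * (m * μ) := mul_le_mul_of_nonneg_right h1 hmμ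
      _ = R * d * m * μ := by ring
      _ ≤ 1 := by linarith
  have hP2' := hP2 (Fin r) V₁ μ hV₁ hμ U hUcard
  rw [sqrt_Q] at hP2'
  have hsq : Real.sqrt (64 * ((R * d : ℕ) : ℝ) * m * μ) ≤ 1 := by
    rw [Real.sqrt_le_one]
    push_cast
    nlinarith
  have hτd : d * τ ≤ 1 + 20 * 7283 ^ 2 := by
    have h1 : (‖tvec B V₁ U‖ + Real.sqrt (64 * ((R * d : ℕ) : ℝ) * m * μ)) ^ 2 ≤ 7283 ^ 2 := by
      refine pow_le_pow_left₀ (add_nonneg (norm_nonneg _) (Real.sqrt_nonneg _)) ?_ 2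
      linarith
    have h2 := hP2'.trans h1
    have h3 : (d : ℝ) / 20 * (τ - m * μ) = (d * τ - d * (m * μ)) / 20 := by ring
    rw [h3] at h2
    linarith
  -- `V` on `U`
  have hVU : ‖tvec B V U‖ ≤ 900000 := by
    have h1 := hP1 ι V μ hV hμ U
    have h2 : ∑ ω ∈ U, ∑ i, V ω i ^ 2 ≤ τ := Finset.sum_le_sum fun ω _ => hVV₁ ω
    have h0 : 0 ≤ ∑ ω ∈ U, ∑ i, V ω i ^ 2 :=
      Finset.sum_nonneg fun ω _ => Finset.sum_nonneg fun i _ => sq_nonneg _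
    have h3 : Q B V U ≤ 900000 ^ 2 := by
      calc Q B V U ≤ 48 * (U.card + d) * (∑ ω ∈ U, ∑ i, V ω i ^ 2 + m * μ) := h1
        _ ≤ 48 * (d + d) * (τ + m * μ) := by
            refine mul_le_mul ?_ ?_ (by linarith) (by positivity)
            · refine mul_le_mul_of_nonneg_left ?_ (by norm_num)
              linarith
            · linarith
        _ = 96 * (d * τ + d * (m * μ)) := by ring
        _ ≤ 900000 ^ 2 := by nlinarith
    rw [← norm_tvec_sq] at h3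
    exact (pow_le_pow_iff_left₀ (norm_nonneg _) (by norm_num) two_ne_zero).1 h3
  rw [← norm_tvec_sq]
  refine pow_le_pow_left₀ (norm_nonneg _) ?_ 2
  rw [hun, tvec_union B V hdisj]
  calc ‖tvec B V T + tvec B V U‖ ≤ ‖tvec B V T‖ + ‖tvec B V U‖ := norm_add_le _ _
    _ ≤ 7282 + 900000 := add_le_add hA hVU
    _ ≤ 10 ^ 6 := by norm_num

end Pool.Agent.Lib.MP_bd1451_an
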