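import Pool.Agent.Lib.MP_bd1451_an.Events

/-!
# MP_bd1451_an: existence of the random matrix (target 1)
-/

set_option autoImplicit false
set_option maxHeartbeats 1000000
open scoped BigOperators RealInnerProductSpace
open MeasureTheory Module

namespace Pool.Agent.Lib.MP_bd1451_an

theorem five_le : (5 : ℝ) ≤ Real.exp (81 / 50) := by
  have h1 : (2.7182818283 : ℝ) < Real.exp 1 := Real.exp_one_gt_d9
  have h2 : Real.exp (81 / 50) ^ 50 = Real.exp 1 ^ 81 := by
    rw [← Real.exp_nat_mul, ← Real.exp_nat_mul]; norm_num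
  have h3 : (5 : ℝ) ^ 50 ≤ Real.exp (81 / 50) ^ 50 := by
    rw [h2]
    calc (5 : ℝ) ^ 50 ≤ (2.7182818283 : ℝ) ^ 81 := by norm_num
      _ ≤ Real.exp 1 ^ 81 := pow_le_pow_left₀ (by norm_num) h1.le 81
  exact le_of_pow_le_pow_left₀ (by norm_num) (Real.exp_nonneg _) h3

theorem two_le : (2 : ℝ) ≤ Real.exp (7 / 10) := by
  have h1 : (2.7182818283 : ℝ) < Real.exp 1 := Real.exp_one_gt_d9
  have h2 : Real.exp (7 / 10) ^ 10 = Real.exp 1 ^ 7 := by
    rw [← Real.exp_nat_mul, ← Real.exp_nat_mul]; norm_num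
  have h3 : (2 : ℝ) ^ 10 ≤ Real.exp (7 / 10) ^ 10 := by
    rw [h2]
    calc (2 : ℝ) ^ 10 ≤ (2.7182818283 : ℝ) ^ 7 := by norm_num
      _ ≤ Real.exp 1 ^ 7 := pow_le_pow_left₀ (by norm_num) h1.le 7
  exact le_of_pow_le_pow_left₀ (by norm_num) (Real.exp_nonneg _) h3

theorem sqrt_two_le : Real.sqrt 2 ≤ Real.exp (7 / 20) := by
  rw [Real.sqrt_le_left (Real.exp_nonneg _), sq, ← Real.exp_add]
  exact two_le.trans_eq (by norm_num)

theorem five_pow (k : ℕ) : (5 : ℝ) ^ k ≤ Real.exp (81 / 50 * k) := by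
  rw [mul_comm, Real.exp_nat_mul]
  exact pow_le_pow_left₀ (by norm_num) five_le k

theorem two_pow (k : ℕ) : (2 : ℝ) ^ k ≤ Real.exp (7 / 10 * k) := by
  rw [mul_comm, Real.exp_nat_mul]
  exact pow_le_pow_left₀ (by norm_num) two_le k

theorem sqrt_two_pow (k : ℕ) : (Real.sqrt 2) ^ k ≤ Real.exp (7 / 20 * k) := by
  rw [mul_comm, Real.exp_nat_mul]
  exact pow_le_pow_left₀ (Real.sqrt_nonneg _) sqrt_two_le k

variable {N d : ℕ}

theorem op_total {P : Measure (Fin N → E d)} (hP : Tails P) (hN : 2 * d ≤ N) :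
    P.real {B | ¬ RawOp B} ≤ Real.exp (-d) := by
  refine (op_event hP).trans ?_
  have hN' : (2 : ℝ) * d ≤ N := by exact_mod_cast hN
  calc (5 : ℝ) ^ d * (Real.exp (-4 * N) * (Real.sqrt 2) ^ N)
      ≤ Real.exp (81 / 50 * d) * (Real.exp (-4 * N) * Real.exp (7 / 20 * N)) := by
        gcongr
        · exact five_pow d
        · exact sqrt_two_pow N
    _ = Real.exp (81 / 50 * d + (-4 * N + 7 / 20 * N)) := by rw [Real.exp_add, Real.exp_add]
    _ ≤ Real.exp (-d) := by
        apply Real.exp_le_exp.2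
        have : (0 : ℝ) ≤ d := Nat.cast_nonneg _
        linarith

theorem W_total {P : Measure (Fin N → E d)} (hP : Tails P) (m : ℕ) (hm : 1 ≤ m)
    (hN : 7 * N ≤ m * d) :
    P.real {B | ¬ RawW B m} ≤ Real.exp (-d) := by
  have := hP.prob
  have hsub : {B : Fin N → E d | ¬ RawW B m} ⊆ ⋃ S ∈ (Finset.univ : Finset (Finset (Fin N))),
      {B | ¬ ∀ (t : Fin m → E d), (∀ c : Fin m → ℝ, ‖∑ i, c i • t i‖ ^ 2 ≤ ∑ i, c i ^ 2) →
        ∑ ω ∈ S, ∑ i, ⟪B ω, t i⟫ ^ 2 ≤ 48 * m * (S.card + d)} := by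
    intro B hB
    by_contra hcon
    simp only [Set.mem_iUnion, not_exists] at hcon
    apply hB
    intro S
    exact not_not.1 (hcon S (Finset.mem_univ S))
  refine (measureReal_mono hsub (measure_ne_top _ _)).trans ?_
  have hm' : (1 : ℝ) ≤ m := by exact_mod_cast hm
  have hd0 : (0 : ℝ) ≤ d := Nat.cast_nonneg _
  have hN' : (7 : ℝ) * N ≤ m * d := by exact_mod_cast hN
  refine (biUnion_le P Finset.univ _ (Real.exp (-(69 / 50) * (m * d))) ?_).trans ?_
  · intro S _
    refine (W_event hP m S).trans ?_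
    have hS0 : (0 : ℝ) ≤ m * S.card := by positivity
    calc (5 : ℝ) ^ (m * d) *
          (Real.exp (-3 * (m * (S.card + d))) * (Real.sqrt 2) ^ (S.card * m))
        ≤ Real.exp (81 / 50 * ((m * d : ℕ) : ℝ)) *
          (Real.exp (-3 * (m * (S.card + d))) * Real.exp (7 / 20 * ((S.card * m : ℕ) : ℝ))) := by
          gcongr
          · exact five_pow _
          · exact sqrt_two_pow _
      _ = Real.exp (81 / 50 * ((m * d : ℕ) : ℝ) + (-3 * (m * (S.card + d)) +
            7 / 20 * ((S.card * m : ℕ) : ℝ))) := by rw [Real.exp_add, Real.exp_add]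
      _ ≤ Real.exp (-(69 / 50) * (m * d)) := by
          apply Real.exp_le_exp.2
          push_cast
          nlinarith
  · rw [Finset.card_univ, Fintype.card_finset, Fintype.card_fin]
    push_cast
    calc (2 : ℝ) ^ N * Real.exp (-(69 / 50) * (m * d))
        ≤ Real.exp (7 / 10 * N) * Real.exp (-(69 / 50) * (m * d)) := by
          gcongr
          exact two_pow N
      _ = Real.exp (7 / 10 * N + -(69 / 50) * (m * d)) := by rw [Real.exp_add]
      _ ≤ Real.exp (-d) := by
          apply Real.exp_le_exp.2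
          nlinarith

theorem Y_total {P : Measure (Fin N → E d)} (hP : Tails P) (m s₀ : ℕ) (hs : 64 * s₀ ≤ d)
    (c : ℝ)
    (hc : (((Finset.univ : Finset (Finset (Fin N))).filter (fun S => S.card ≤ s₀)).card : ℝ) ≤ c) :
    P.real {B | ¬ RawY B m s₀} ≤ c * (2 * Real.exp (-(41 / 100) * (m * d))) := by
  classical
  have := hP.prob
  have hsub : {B : Fin N → E d | ¬ RawY B m s₀} ⊆
      ⋃ S ∈ (Finset.univ : Finset (Finset (Fin N))).filter (fun S => S.card ≤ s₀),
      {B | ¬ ∀ y : Fin m → EuclideanSpace ℝ (Fin N),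
        Orthonormal ℝ y → (∀ i, ∀ ω, ω ∉ S → y i ω = 0) →
        (m * d : ℝ) / 20 ≤ ∑ i, ‖comb B (fun ω => y i ω)‖ ^ 2} := by
    intro B hB
    by_contra hcon
    simp only [Set.mem_iUnion, not_exists] at hcon
    apply hB
    intro S hS
    exact not_not.1 (hcon S (Finset.mem_filter.2 ⟨Finset.mem_univ S, hS⟩))
  refine (measureReal_mono hsub (measure_ne_top _ _)).trans ?_
  refine (biUnion_le P _ _ (2 * Real.exp (-(41 / 100) * (m * d))) ?_).trans
    (mul_le_mul_of_nonneg_right hc (by positivity))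
  intro S hS
  have hS' : S.card ≤ s₀ := (Finset.mem_filter.1 hS).2
  have hS64 : (64 : ℝ) * S.card ≤ d := by
    have : 64 * S.card ≤ d := (Nat.mul_le_mul_left 64 hS').trans hs
    exact_mod_cast this
  have hm0 : (0 : ℝ) ≤ m := Nat.cast_nonneg _
  have hd0 : (0 : ℝ) ≤ d := Nat.cast_nonneg _
  have hmd : (64 : ℝ) * (m * S.card) ≤ m * d := by nlinarith
  have hmd0 : (0 : ℝ) ≤ m * d := by positivity
  refine (Y_event hP m S).trans ?_
  rw [two_mul]
  refine add_le_add ?_ ?_
  · calc (5 : ℝ) ^ (m * S.card) * (Real.exp (-4 * (m * d)) * (Real.sqrt 2) ^ (m * d))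
        ≤ Real.exp (81 / 50 * ((m * S.card : ℕ) : ℝ)) *
          (Real.exp (-4 * (m * d)) * Real.exp (7 / 20 * ((m * d : ℕ) : ℝ))) := by
          gcongr
          · exact five_pow _
          · exact sqrt_two_pow _
      _ = Real.exp (81 / 50 * ((m * S.card : ℕ) : ℝ) + (-4 * (m * d) +
            7 / 20 * ((m * d : ℕ) : ℝ))) := by rw [Real.exp_add, Real.exp_add]
      _ ≤ Real.exp (-(41 / 100) * (m * d)) := by
          apply Real.exp_le_exp.2
          push_cast
          linarith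
  · calc (5 : ℝ) ^ (7 * (m * S.card)) * Real.exp (-(59 / 100) * (m * d))
        ≤ Real.exp (81 / 50 * ((7 * (m * S.card) : ℕ) : ℝ)) *
          Real.exp (-(59 / 100) * (m * d)) := by
          gcongr
          exact five_pow _
      _ = Real.exp (81 / 50 * ((7 * (m * S.card) : ℕ) : ℝ) + -(59 / 100) * (m * d)) := by
          rw [Real.exp_add]
      _ ≤ Real.exp (-(41 / 100) * (m * d)) := by
          apply Real.exp_le_exp.2
          push_cast
          linarith

theorem card_small_sets (N s₀ x : ℕ) (hx : 0 < x) :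
    (((Finset.univ : Finset (Finset (Fin N))).filter (fun S => S.card ≤ s₀)).card : ℝ) ≤
      Real.exp (x * s₀ + N / x) := by
  classical
  have hx' : (0 : ℝ) < x := by exact_mod_cast hx
  have hx1 : (1 : ℝ) ≤ x := by exact_mod_cast hx
  have h1 : ∀ S ∈ (Finset.univ : Finset (Finset (Fin N))).filter (fun S => S.card ≤ s₀),
      (1 : ℝ) ≤ (x : ℝ) ^ s₀ * ((1 / x : ℝ) ^ S.card * 1 ^ (Fintype.card (Fin N) - S.card)) := by
    intro S hS
    have hS' := (Finset.mem_filter.1 hS).2
    rw [one_pow, mul_one, one_div, inv_pow, ← div_eq_mul_inv, le_div_iff₀ (by positivity),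
      one_mul]
    exact pow_le_pow_right₀ hx1 hS'
  calc (((Finset.univ : Finset (Finset (Fin N))).filter (fun S => S.card ≤ s₀)).card : ℝ)
      = ∑ _S ∈ (Finset.univ : Finset (Finset (Fin N))).filter (fun S => S.card ≤ s₀), (1 : ℝ) := by
        rw [Finset.sum_const, nsmul_eq_mul, mul_one]
    _ ≤ ∑ S ∈ (Finset.univ : Finset (Finset (Fin N))).filter (fun S => S.card ≤ s₀),
        (x : ℝ) ^ s₀ * ((1 / x : ℝ) ^ S.card * 1 ^ (Fintype.card (Fin N) - S.card)) :=
        Finset.sum_le_sum h1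
    _ ≤ ∑ S : Finset (Fin N),
        (x : ℝ) ^ s₀ * ((1 / x : ℝ) ^ S.card * 1 ^ (Fintype.card (Fin N) - S.card)) :=
        Finset.sum_le_sum_of_subset_of_nonneg (Finset.filter_subset _ _)
          (fun _ _ _ => by positivity)
    _ = (x : ℝ) ^ s₀ * (1 / x + 1) ^ N := by
        rw [← Finset.mul_sum, Fintype.sum_pow_mul_eq_add_pow, Fintype.card_fin]
    _ ≤ Real.exp (x * s₀) * Real.exp (N / x) := by
        refine mul_le_mul ?_ ?_ (by positivity) (Real.exp_nonneg _)
        · rw [mul_comm (x : ℝ), Real.exp_nat_mul]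
          refine pow_le_pow_left₀ hx'.le ?_ _
          have := Real.add_one_le_exp (x : ℝ)
          linarith
        · rw [show (N : ℝ) / x = N * (1 / x) by ring, Real.exp_nat_mul]
          refine pow_le_pow_left₀ (by positivity) ?_ _
          exact Real.add_one_le_exp _
    _ = Real.exp (x * s₀ + N / x) := by rw [Real.exp_add]

/-- TARGET 1 from the Gaussian tail bounds. -/
theorem randomMatrix_of_tails (hG : GaussianTails) : RandomMatrix := by
  classical
  intro t ht
  have hp := hG.1 t ht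
  -- the mesh
  obtain ⟨j, hj⟩ : ∃ j : ℕ, 64 * (2 * (1 / 2 : ℝ) ^ j) ^ 2 < pt t / 2 * t ^ 2 := by
    have h0 : 0 < pt t / 2 * t ^ 2 := by positivity
    have hlim : Filter.Tendsto (fun j : ℕ => 64 * (2 * (1 / 2 : ℝ) ^ j) ^ 2) Filter.atTop
        (nhds (64 * (2 * 0) ^ 2)) :=
      ((((tendsto_pow_atTop_nhds_zero_of_lt_one (by norm_num) (by norm_num)).const_mul 2).pow
        2).const_mul 64)
    rw [show (64 * (2 * 0) ^ 2 : ℝ) = 0 by norm_num] at hlim
    exact (hlim.eventually_lt_const h0).exists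
  -- the ratio
  obtain ⟨R₀, hR₀⟩ := exists_nat_ge ((81 / 50 * j + 1) / (13 / 100 * pt t))
  refine ⟨max R₀ 2, le_max_right _ _, 10, ?_⟩
  set R := max R₀ 2 with hR
  have hR2 : 2 ≤ R := le_max_right _ _
  have hRj : 81 / 50 * j + 1 ≤ 13 / 100 * pt t * (R : ℝ) := by
    have h1 : (R₀ : ℝ) ≤ R := by exact_mod_cast le_max_left _ _
    have h2 := hR₀.trans h1
    rw [div_le_iff₀ (by positivity)] at h2
    linarith
  intro d hd
  obtain ⟨P, hP⟩ := hG.2 (R * d) d
  have := hP.prob
  have hd0 : 0 < d := by omega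
  have hdr : (10 : ℝ) ≤ d := by exact_mod_cast hd
  have hRr : (2 : ℝ) ≤ R := by exact_mod_cast hR2
  have hNr : ((R * d : ℕ) : ℝ) = R * d := by push_cast; ring
  have e1 : P.real {B | ¬ RawOp B} ≤ Real.exp (-d) := op_total hP (Nat.mul_le_mul_right d hR2)
  have e2 : P.real {B | ¬ RawW B (7 * R)} ≤ Real.exp (-d) :=
    W_total hP (7 * R) (by omega) (by rw [mul_assoc])
  have e3 : P.real {B | ¬ RawY B (7 * R) (d / 64)} ≤ 2 * Real.exp (-d) := by
    refine (Y_total hP (7 * R) (d / 64) (Nat.mul_div_le d 64) (Real.exp (7 / 10 * (R * d)))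
      ?_).trans ?_
    · calc (((Finset.univ : Finset (Finset (Fin (R * d)))).filter
          (fun S => S.card ≤ d / 64)).card : ℝ) ≤ ((2 ^ (R * d) : ℕ) : ℝ) := by
            have h1 := Finset.card_filter_le (Finset.univ : Finset (Finset (Fin (R * d))))
              (fun S => S.card ≤ d / 64)
            rw [Finset.card_univ, Fintype.card_finset, Fintype.card_fin] at h1
            exact_mod_cast h1
        _ ≤ Real.exp (7 / 10 * (R * d)) := by
            have := two_pow (R * d)
            rw [hNr] at this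
            exact_mod_cast this
    · have h1 : Real.exp (7 / 10 * (R * d)) * (2 * Real.exp (-(41 / 100) * ((7 * R : ℕ) * d))) =
          2 * Real.exp (7 / 10 * (R * d) + -(41 / 100) * ((7 * R : ℕ) * d)) := by
        rw [Real.exp_add]; ring
      rw [h1]
      refine mul_le_mul_of_nonneg_left ?_ (by norm_num)
      apply Real.exp_le_exp.2
      push_cast
      nlinarith
  have e4 : P.real {B | ¬ RawY B 1 (d / (400 * R))} ≤ 2 * Real.exp (-(31 / 100) * d) := by
    have hs : d / (400 * R) * (400 * R) ≤ d := Nat.div_mul_le_self _ _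
    have hs' : ((d / (400 * R) : ℕ) : ℝ) * (400 * R) ≤ d := by exact_mod_cast hs
    have hs64 : 64 * (d / (400 * R)) ≤ d := by
      refine le_trans ?_ hs
      rw [mul_comm]
      exact Nat.mul_le_mul_left _ (by omega)
    refine (Y_total hP 1 (d / (400 * R)) hs64 (Real.exp (d / 10)) ?_).trans ?_
    · refine (card_small_sets (R * d) (d / (400 * R)) (20 * R) (by omega)).trans ?_
      apply Real.exp_le_exp.2
      rw [hNr]
      have h1 : ((R : ℝ) * d) / ((20 * R : ℕ) : ℝ) = d / 20 := by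
        push_cast
        field_simp
      rw [h1]
      push_cast
      nlinarith
    · have h1 : Real.exp (d / 10) * (2 * Real.exp (-(41 / 100) * ((1 : ℕ) * d))) =
          2 * Real.exp (d / 10 + -(41 / 100) * ((1 : ℕ) * d)) := by
        rw [Real.exp_add]; ring
      rw [h1]
      refine mul_le_mul_of_nonneg_left ?_ (by norm_num)
      apply Real.exp_le_exp.2
      push_cast
      linarith
  have e5 : P.real {B | RawOp B ∧ ¬ RawCover B t} ≤ Real.exp (-d) := by
    refine (cover_event hP (by positivity) t ht j hj).trans ?_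
    calc (5 : ℝ) ^ (j * d) * Real.exp (-(13 / 100) * (pt t * ((R * d : ℕ) : ℝ)))
        ≤ Real.exp (81 / 50 * ((j * d : ℕ) : ℝ)) *
          Real.exp (-(13 / 100) * (pt t * ((R * d : ℕ) : ℝ))) := by
          gcongr
          exact five_pow _
      _ = Real.exp (81 / 50 * ((j * d : ℕ) : ℝ) +
          -(13 / 100) * (pt t * ((R * d : ℕ) : ℝ))) := by rw [Real.exp_add]
      _ ≤ Real.exp (-d) := by
          apply Real.exp_le_exp.2
          push_cast
          nlinarith
  by_contra hno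
  push Not at hno
  have hcov : (Set.univ : Set (Fin (R * d) → E d)) ⊆
      {B | ¬ RawOp B} ∪ ({B | ¬ RawW B (7 * R)} ∪ ({B | ¬ RawY B (7 * R) (d / 64)} ∪
        ({B | ¬ RawY B 1 (d / (400 * R))} ∪ {B | RawOp B ∧ ¬ RawCover B t}))) := by
    intro B _
    by_contra hcon
    simp only [Set.mem_union, Set.mem_ofPred_eq, not_or, not_not, not_and] at hcon
    obtain ⟨h1, h2, h3, h4, h5⟩ := hcon
    exact hno B (h5 h1) h1 h2 h3 h4
  have htot : (1 : ℝ) ≤ Real.exp (-d) + (Real.exp (-d) + (2 * Real.exp (-d) +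
      (2 * Real.exp (-(31 / 100) * d) + Real.exp (-d)))) := by
    calc (1 : ℝ) = P.real Set.univ := by rw [probReal_univ]
      _ ≤ _ := measureReal_mono hcov (measure_ne_top _ _)
      _ ≤ _ := measureReal_union_le _ _
      _ ≤ _ := add_le_add e1 ((measureReal_union_le _ _).trans (add_le_add e2
          ((measureReal_union_le _ _).trans (add_le_add e3
          ((measureReal_union_le _ _).trans (add_le_add e4 e5))))))
  have h7 : Real.exp (-(d : ℝ)) ≤ Real.exp (-(31 / 100) * d) := by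
    apply Real.exp_le_exp.2
    linarith
  have h8 : Real.exp (-(31 / 100) * d) ≤ Real.exp (-3) := by
    apply Real.exp_le_exp.2
    linarith
  have h9 : Real.exp (-3) < 1 / 7 := by
    rw [Real.exp_neg, ← one_div]
    apply one_div_lt_one_div_of_lt (by norm_num)
    have h10 : (2.7182818283 : ℝ) < Real.exp 1 := Real.exp_one_gt_d9
    have h11 : Real.exp 3 = Real.exp 1 ^ 3 := by rw [← Real.exp_nat_mul]; norm_num
    rw [h11]
    calc (7 : ℝ) < (2.7182818283 : ℝ) ^ 3 := by norm_num
      _ ≤ Real.exp 1 ^ 3 := pow_le_pow_left₀ (by norm_num) h10.le 3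
  linarith

end Pool.Agent.Lib.MP_bd1451_an
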