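import Pool.Agent.Lib.MP_bd1451_an.Defs

/-!
# Target 5: the Riesz product argument
-/

set_option autoImplicit false
open scoped BigOperators RealInnerProductSpace

namespace Pool.Agent.Lib.MP_bd1451_an

namespace RieszAux

/-- average over a finite type -/
noncomputable def Ex {α : Type} [Fintype α] (F : α → ℝ) : ℝ := (Fintype.card α : ℝ)⁻¹ * ∑ a, F a

section Ex

variable {α β κ : Type} [Fintype α] [Fintype β]

lemma Ex_const [Nonempty α] (c : ℝ) : Ex (fun _ : α => c) = c := by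
  unfold Ex
  rw [Finset.sum_const, Finset.card_univ, nsmul_eq_mul, ← mul_assoc, inv_mul_cancel₀, one_mul]
  exact_mod_cast Fintype.card_ne_zero

lemma Ex_add (F G : α → ℝ) : Ex (fun a => F a + G a) = Ex F + Ex G := by
  unfold Ex
  rw [Finset.sum_add_distrib, mul_add]

lemma Ex_mul_left (c : ℝ) (F : α → ℝ) : Ex (fun a => c * F a) = c * Ex F := by
  unfold Ex
  rw [← Finset.mul_sum]
  ring

lemma Ex_mul_right (c : ℝ) (F : α → ℝ) : Ex (fun a => F a * c) = Ex F * c := by
  unfold Ex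
  rw [← Finset.sum_mul]
  ring

lemma Ex_sum (s : Finset κ) (F : κ → α → ℝ) :
    Ex (fun a => ∑ i ∈ s, F i a) = ∑ i ∈ s, Ex (F i) := by
  unfold Ex
  rw [Finset.sum_comm, Finset.mul_sum]

lemma Ex_mono {F G : α → ℝ} (h : ∀ a, F a ≤ G a) : Ex F ≤ Ex G := by
  unfold Ex
  exact mul_le_mul_of_nonneg_left (Finset.sum_le_sum fun a _ => h a) (by positivity)

lemma Ex_nonneg {F : α → ℝ} (h : ∀ a, 0 ≤ F a) : 0 ≤ Ex F := by
  unfold Ex
  exact mul_nonneg (by positivity) (Finset.sum_nonneg fun a _ => h a)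

lemma exists_le_Ex [Nonempty α] (F : α → ℝ) : ∃ a, F a ≤ Ex F := by
  by_contra hcon
  push Not at hcon
  have h : Ex F * Fintype.card α < ∑ a, F a := by
    have := Finset.sum_lt_sum_of_nonempty (s := (Finset.univ : Finset α))
      Finset.univ_nonempty fun a _ => hcon a
    rw [Finset.sum_const, Finset.card_univ, nsmul_eq_mul] at this
    rwa [mul_comm]
  have hc : (0:ℝ) < Fintype.card α := by exact_mod_cast Fintype.card_pos
  have h2 : Ex F * Fintype.card α = ∑ a, F a := by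
    unfold Ex
    field_simp
  linarith

lemma Ex_comm (F : α → β → ℝ) :
    Ex (fun a => Ex fun b => F a b) = Ex (fun b => Ex fun a => F a b) := by
  unfold Ex
  rw [← Finset.mul_sum, ← Finset.mul_sum, Finset.sum_comm]
  ring

lemma abs_Ex_le (F : α → ℝ) : |Ex F| ≤ Ex fun a => |F a| := by
  unfold Ex
  rw [abs_mul, abs_of_nonneg (by positivity : (0:ℝ) ≤ (Fintype.card α : ℝ)⁻¹)]
  exact mul_le_mul_of_nonneg_left (Finset.abs_sum_le_sum_abs _ _) (by positivity)

lemma Ex_le_sqrt [Nonempty α] (F : α → ℝ) :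
    Ex F ≤ Real.sqrt (Ex fun a => F a ^ 2) := by
  apply Real.le_sqrt_of_sq_le
  unfold Ex
  have h := Finset.sum_mul_sq_le_sq_mul_sq Finset.univ (fun _ : α => (1:ℝ)) F
  simp only [one_mul, one_pow, Finset.sum_const, Finset.card_univ, nsmul_eq_mul, mul_one] at h
  have hc : (0:ℝ) < Fintype.card α := by exact_mod_cast Fintype.card_pos
  rw [mul_pow]
  calc ((Fintype.card α : ℝ)⁻¹) ^ 2 * (∑ a, F a) ^ 2
      ≤ ((Fintype.card α : ℝ)⁻¹) ^ 2 * (Fintype.card α * ∑ a, F a ^ 2) :=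
        mul_le_mul_of_nonneg_left h (by positivity)
    _ = _ := by field_simp

lemma Ex_prod {ι : Type} [Fintype ι] [DecidableEq ι] (φ : ι → β → ℝ) :
    Ex (fun p : ι → β => ∏ i, φ i (p i)) = ∏ i, Ex (φ i) := by
  unfold Ex
  rw [Finset.prod_mul_distrib, Finset.prod_univ_sum, Fintype.piFinset_univ, Finset.prod_const,
    Finset.card_univ, Fintype.card_fun]
  push_cast
  rw [inv_pow]

lemma Ex_odd (e : α ≃ α) {F : α → ℝ} (h : ∀ a, F (e a) = -F a) : Ex F = 0 := by
  unfold Ex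
  have h1 : ∑ a, F a = ∑ a, F (e a) := (Equiv.sum_comp e F).symm
  simp only [h, Finset.sum_neg_distrib] at h1
  have h2 : ∑ a, F a = 0 := by linarith
  rw [h2, mul_zero]

end Ex

/-- the sign of a bit -/
def sg (b : Bool) : ℝ := if b then 1 else -1

lemma sg_sq (b : Bool) : sg b ^ 2 = 1 := by cases b <;> simp [sg]

lemma sg_mul (b : Bool) : sg b * sg b = 1 := by cases b <;> simp [sg]

lemma sg_not (b : Bool) : sg (!b) = -sg b := by cases b <;> simp [sg]

lemma sg_abs (b : Bool) : |sg b| = 1 := by cases b <;> simp [sg]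

/-- flipping one coordinate -/
def flip {ι : Type} [DecidableEq ι] (i : ι) : (ι → Bool) ≃ (ι → Bool) :=
  Function.Involutive.toPerm (fun g => Function.update g i (!(g i))) (by
    intro g
    funext j
    by_cases h : j = i
    · subst h; simp
    · simp [Function.update_of_ne h])

lemma flip_self {ι : Type} [DecidableEq ι] (i : ι) (g : ι → Bool) : flip i g i = !(g i) := by
  show Function.update g i (!(g i)) i = !(g i)
  rw [Function.update_self]

lemma flip_ne {ι : Type} [DecidableEq ι] {i j : ι} (h : j ≠ i) (g : ι → Bool) :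
    flip i g j = g j := by
  show Function.update g i (!(g i)) j = g j
  rw [Function.update_of_ne h]

section Row

variable {ι : Type} [Fintype ι] [DecidableEq ι]

/-- the signed sum -/
noncomputable def X (v : ι → ℝ) (g : ι → Bool) : ℝ := ∑ j, sg (g j) * v j

lemma Ex_sg_mul {F : (ι → Bool) → ℝ} (i : ι) (h : ∀ g, F (flip i g) = F g) :
    Ex (fun g => sg (g i) * F g) = 0 := by
  apply Ex_odd (flip i)
  intro g
  rw [flip_self, sg_not, h]
  ring

lemma Ex_sg_sg (i j : ι) : Ex (fun g : ι → Bool => sg (g i) * sg (g j)) = if i = j then 1 else 0 := by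
  split_ifs with h
  · subst h
    simp only [sg_mul]
    exact Ex_const 1
  · apply Ex_sg_mul i
    intro g
    rw [flip_ne (Ne.symm h)]

lemma X_mul (u v : ι → ℝ) : Ex (fun g => X u g * X v g) = ∑ j, u j * v j := by
  have h1 : ∀ g, X u g * X v g = ∑ i, ∑ j, (u i * v j) * (sg (g i) * sg (g j)) := by
    intro g
    unfold X
    rw [Finset.sum_mul_sum]
    refine Finset.sum_congr rfl fun i _ => Finset.sum_congr rfl fun j _ => ?_
    ring
  simp_rw [h1]
  rw [Ex_sum]
  refine Finset.sum_congr rfl fun i _ => ?_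
  rw [Ex_sum]
  simp_rw [Ex_mul_left, Ex_sg_sg]
  simp

lemma X_four_aux (v : ι → ℝ) (T : Finset ι) :
    Ex (fun g : ι → Bool => (∑ j ∈ T, sg (g j) * v j) ^ 2) = ∑ j ∈ T, v j ^ 2 ∧
      Ex (fun g : ι → Bool => (∑ j ∈ T, sg (g j) * v j) ^ 4) ≤ 3 * (∑ j ∈ T, v j ^ 2) ^ 2 := by
  induction T using Finset.induction_on with
  | empty =>
    simp only [Finset.sum_empty]
    constructor
    · have := Ex_const (α := ι → Bool) (0 ^ 2 : ℝ)
      rw [this]; norm_num
    · have := Ex_const (α := ι → Bool) (0 ^ 4 : ℝ)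
      rw [this]; norm_num
  | insert i T hi ih =>
    obtain ⟨ih1, ih2⟩ := ih
    set S : (ι → Bool) → ℝ := fun g => ∑ j ∈ T, sg (g j) * v j with hS
    have hflip : ∀ g, S (flip i g) = S g := by
      intro g
      simp only [hS]
      refine Finset.sum_congr rfl fun j hj => ?_
      rw [flip_ne]
      rintro rfl
      exact hi hj
    have e1 : Ex (fun g => sg (g i) * S g) = 0 := Ex_sg_mul i hflip
    have e3 : Ex (fun g => sg (g i) * S g ^ 3) = 0 := Ex_sg_mul i fun g => by rw [hflip]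
    have h1 : ∀ g : ι → Bool, (∑ j ∈ insert i T, sg (g j) * v j) = sg (g i) * v i + S g := by
      intro g
      rw [Finset.sum_insert hi]
    simp_rw [h1]
    have h2 : ∀ g : ι → Bool, (sg (g i) * v i + S g) ^ 2 =
        v i ^ 2 + ((2 * v i) * (sg (g i) * S g) + S g ^ 2) := by
      intro g
      have := sg_sq (g i)
      linear_combination (v i ^ 2) * this
    have h4 : ∀ g : ι → Bool, (sg (g i) * v i + S g) ^ 4 =
        v i ^ 4 + ((4 * v i ^ 3) * (sg (g i) * S g) + ((6 * v i ^ 2) * S g ^ 2 +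
          ((4 * v i) * (sg (g i) * S g ^ 3) + S g ^ 4))) := by
      intro g
      have := sg_sq (g i)
      linear_combination (v i ^ 4 * (sg (g i) ^ 2 + 1) + 4 * v i ^ 3 * sg (g i) * S g +
        6 * v i ^ 2 * S g ^ 2) * this
    rw [Finset.sum_insert hi]
    constructor
    · simp_rw [h2]
      rw [Ex_add, Ex_add, Ex_mul_left, e1, Ex_const, ih1]
      ring
    · simp_rw [h4]
      rw [Ex_add, Ex_add, Ex_add, Ex_add, Ex_mul_left, Ex_mul_left, Ex_mul_left, e1, e3, Ex_const,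
        ih1]
      have h5 : 0 ≤ ∑ j ∈ T, v j ^ 2 := Finset.sum_nonneg fun j _ => sq_nonneg _
      nlinarith [sq_nonneg (v i ^ 2), mul_nonneg (sq_nonneg (v i)) h5]

lemma X_four (v : ι → ℝ) : Ex (fun g => X v g ^ 4) ≤ 3 * (∑ j, v j ^ 2) ^ 2 :=
  (X_four_aux v Finset.univ).2

end Row

section Tensor

variable {N d r : ℕ}

lemma norm_sq_sum (B : Fin N → E d) (c : Fin N → ℝ) :
    ‖∑ ω, c ω • B ω‖ ^ 2 = ∑ ω, ∑ ω', (c ω * c ω') * ⟪B ω, B ω'⟫ := by
  rw [← real_inner_self_eq_norm_sq, sum_inner]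
  refine Finset.sum_congr rfl fun ω _ => ?_
  rw [inner_sum]
  refine Finset.sum_congr rfl fun ω' _ => ?_
  rw [real_inner_smul_left, real_inner_smul_right]
  ring

/-- tensor powers -/
noncomputable def Vt (s : Fin N → ℝ) (θ : Fin N → Fin r → ℝ) (m : ℕ) :
    Fin N → (Fin m → Fin r) → ℝ := fun ω β => s ω * ∏ i, θ ω (β i)

lemma sum_Vt (s : Fin N → ℝ) (θ : Fin N → Fin r → ℝ) (m : ℕ) (ω ω' : Fin N) :
    ∑ β, Vt s θ m ω β * Vt s θ m ω' β = s ω * s ω' * (∑ j, θ ω j * θ ω' j) ^ m := by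
  have h : ∑ β : Fin m → Fin r, ∏ i, (θ ω (β i) * θ ω' (β i)) = (∑ j, θ ω j * θ ω' j) ^ m := by
    have := Finset.prod_univ_sum (ι := Fin m) (fun _ => (Finset.univ : Finset (Fin r)))
      (fun _ j => θ ω j * θ ω' j)
    rw [Finset.prod_const, Finset.card_univ, Fintype.card_fin, Fintype.piFinset_univ] at this
    exact this.symm
  rw [← h, Finset.mul_sum]
  refine Finset.sum_congr rfl fun β _ => ?_
  unfold Vt
  rw [Finset.prod_mul_distrib]
  ring

lemma opBd_Vt (s : Fin N → ℝ) (θ : Fin N → Fin r → ℝ) (hθ : ∀ ω, ∑ j, θ ω j ^ 2 ≤ 1) {μ : ℝ}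
    (h : OpBd (fun ω j => s ω * θ ω j) μ) (m : ℕ) : OpBd (Vt s θ (m + 1)) μ := by
  intro H
  have hθm : ∀ ω, ∑ β : Fin m → Fin r, (∏ i, θ ω (β i)) ^ 2 ≤ 1 := by
    intro ω
    have h1 := sum_Vt (fun _ => (1:ℝ)) θ m ω ω
    simp only [Vt, one_mul] at h1
    have h2 : ∑ β : Fin m → Fin r, (∏ i, θ ω (β i)) ^ 2 = (∑ j, θ ω j ^ 2) ^ m := by
      simp_rw [pow_two]
      exact h1
    rw [h2]
    exact pow_le_one₀ (Finset.sum_nonneg fun _ _ => sq_nonneg _) (hθ ω)
  -- split off the first index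
  have hsplit : ∀ F : (Fin (m + 1) → Fin r) → ℝ,
      ∑ β, F β = ∑ β' : Fin m → Fin r, ∑ i, F (Fin.cons i β') := by
    intro F
    rw [← (Fin.consEquiv (fun _ : Fin (m + 1) => Fin r)).sum_comp, Fintype.sum_prod_type,
      Finset.sum_comm]
    rfl
  have hV : ∀ ω (β' : Fin m → Fin r) (i : Fin r), Vt s θ (m + 1) ω (Fin.cons i β') =
      (∏ l, θ ω (β' l)) * (s ω * θ ω i) := by
    intro ω β' i
    unfold Vt
    rw [Fin.prod_univ_succ]
    simp only [Fin.cons_zero, Fin.cons_succ]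
    ring
  calc ∑ ω, (∑ β, Vt s θ (m + 1) ω β * H β) ^ 2
      = ∑ ω, (∑ β' : Fin m → Fin r, (∏ l, θ ω (β' l)) *
          ∑ i, (s ω * θ ω i) * H (Fin.cons i β')) ^ 2 := by
        refine Finset.sum_congr rfl fun ω _ => ?_
        rw [hsplit]
        congr 1
        refine Finset.sum_congr rfl fun β' _ => ?_
        rw [Finset.mul_sum]
        refine Finset.sum_congr rfl fun i _ => ?_
        rw [hV]
        ring
    _ ≤ ∑ ω, ∑ β' : Fin m → Fin r, (∑ i, (s ω * θ ω i) * H (Fin.cons i β')) ^ 2 := by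
        refine Finset.sum_le_sum fun ω _ => ?_
        refine (Finset.sum_mul_sq_le_sq_mul_sq _ _ _).trans ?_
        have h1 : 0 ≤ ∑ β' : Fin m → Fin r, (∑ i, (s ω * θ ω i) * H (Fin.cons i β')) ^ 2 :=
          Finset.sum_nonneg fun _ _ => sq_nonneg _
        nlinarith [hθm ω]
    _ = ∑ β' : Fin m → Fin r, ∑ ω, (∑ i, (s ω * θ ω i) * H (Fin.cons i β')) ^ 2 :=
        Finset.sum_comm
    _ ≤ ∑ β' : Fin m → Fin r, μ * ∑ i, H (Fin.cons i β') ^ 2 :=
        Finset.sum_le_sum fun β' _ => h fun i => H (Fin.cons i β')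
    _ = μ * ∑ β, H β ^ 2 := by
        rw [hsplit (fun β => H β ^ 2), Finset.mul_sum]

lemma Vt_sq_le (s : Fin N → ℝ) (θ : Fin N → Fin r → ℝ) (hθ : ∀ ω, ∑ j, θ ω j ^ 2 ≤ 1) (m : ℕ)
    (ω : Fin N) : ∑ β, Vt s θ (m + 1) ω β ^ 2 ≤ ∑ j, (s ω * θ ω j) ^ 2 := by
  have h1 := sum_Vt s θ (m + 1) ω ω
  simp_rw [pow_two (Vt s θ (m + 1) ω _), h1]
  have h2 : ∑ j, (s ω * θ ω j) ^ 2 = s ω * s ω * ∑ j, θ ω j ^ 2 := by
    rw [Finset.mul_sum]
    refine Finset.sum_congr rfl fun j _ => ?_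
    ring
  have h3 : ∑ j, θ ω j * θ ω j = ∑ j, θ ω j ^ 2 := by
    simp_rw [pow_two]
  rw [h2, h3]
  have h0 : 0 ≤ ∑ j, θ ω j ^ 2 := Finset.sum_nonneg fun _ _ => sq_nonneg _
  apply mul_le_mul_of_nonneg_left _ (mul_self_nonneg _)
  calc (∑ j, θ ω j ^ 2) ^ (m + 1) = (∑ j, θ ω j ^ 2) ^ m * ∑ j, θ ω j ^ 2 := pow_succ _ _
    _ ≤ 1 * ∑ j, θ ω j ^ 2 :=
        mul_le_mul_of_nonneg_right (pow_le_one₀ h0 (hθ ω)) h0
    _ = _ := one_mul _

/-- the products -/
noncomputable def xA {k : ℕ} (s : Fin N → ℝ) (θ : Fin N → Fin r → ℝ) (q : ℝ) (A : Finset (Fin k))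
    (G : Fin k → Fin r → Bool) (ω : Fin N) : ℝ := q * s ω * ∏ a ∈ A, (X (θ ω) (G a) / q)

lemma Ex_prod_mem {k : ℕ} (A : Finset (Fin k)) (φ : (Fin r → Bool) → ℝ) :
    Ex (fun G : Fin k → Fin r → Bool => ∏ a ∈ A, φ (G a)) = (Ex φ) ^ A.card := by
  have h1 : ∀ G : Fin k → Fin r → Bool, ∏ a ∈ A, φ (G a) =
      ∏ a, (if a ∈ A then φ (G a) else 1) := by
    intro G
    rw [Finset.prod_ite_mem, Finset.univ_inter]
  simp_rw [h1]
  have h2 := Ex_prod (β := Fin r → Bool) (fun (a : Fin k) g => if a ∈ A then φ g else 1)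
  rw [h2]
  have h3 : ∀ a : Fin k, Ex (fun g : Fin r → Bool => if a ∈ A then φ g else 1) =
      if a ∈ A then Ex φ else 1 := by
    intro a
    split_ifs
    · rfl
    · exact Ex_const 1
  simp_rw [h3]
  rw [Finset.prod_ite_mem, Finset.univ_inter, Finset.prod_const]

lemma Ex_xA {k : ℕ} (B : Fin N → E d) (s : Fin N → ℝ) (θ : Fin N → Fin r → ℝ) {q : ℝ} (hq : 1 ≤ q)
    (A : Finset (Fin k)) {m : ℕ} (hA : A.card = m + 1) :
    Ex (fun G : Fin k → Fin r → Bool => ‖comb B (xA s θ q A G)‖ ^ 2) ≤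
      Q B (Vt s θ (m + 1)) Finset.univ := by
  have hq0 : 0 < q := by linarith
  have h1 : ∀ G : Fin k → Fin r → Bool, ‖comb B (xA s θ q A G)‖ ^ 2 =
      ∑ ω, ∑ ω', (q ^ 2 * (s ω * s ω') * ⟪B ω, B ω'⟫) *
        ∏ a ∈ A, ((X (θ ω) (G a) * X (θ ω') (G a)) / q ^ 2) := by
    intro G
    unfold comb
    rw [norm_sq_sum]
    refine Finset.sum_congr rfl fun ω _ => Finset.sum_congr rfl fun ω' _ => ?_
    have h2 : ∏ a ∈ A, ((X (θ ω) (G a) * X (θ ω') (G a)) / q ^ 2) =
        (∏ a ∈ A, (X (θ ω) (G a) / q)) * ∏ a ∈ A, (X (θ ω') (G a) / q) := by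
      rw [← Finset.prod_mul_distrib]
      refine Finset.prod_congr rfl fun a _ => ?_
      field_simp
    rw [h2]
    unfold xA
    ring
  simp_rw [h1]
  rw [Ex_sum]
  simp_rw [Ex_sum, Ex_mul_left]
  have h3 : ∀ ω ω', Ex (fun G : Fin k → Fin r → Bool =>
      ∏ a ∈ A, ((X (θ ω) (G a) * X (θ ω') (G a)) / q ^ 2)) =
      ((∑ j, θ ω j * θ ω' j) / q ^ 2) ^ (m + 1) := by
    intro ω ω'
    have h4 := Ex_prod_mem A (fun g : Fin r → Bool => (X (θ ω) g * X (θ ω') g) / q ^ 2)
    rw [h4, hA]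
    congr 1
    simp_rw [div_eq_mul_inv]
    rw [Ex_mul_right, X_mul]
  simp_rw [h3]
  have hQ : Q B (Vt s θ (m + 1)) Finset.univ =
      ∑ ω, ∑ ω', (s ω * s ω' * (∑ j, θ ω j * θ ω' j) ^ (m + 1)) * ⟪B ω, B ω'⟫ := by
    unfold Q
    simp_rw [norm_sq_sum]
    rw [Finset.sum_comm]
    refine Finset.sum_congr rfl fun ω _ => ?_
    rw [Finset.sum_comm]
    refine Finset.sum_congr rfl fun ω' _ => ?_
    rw [← Finset.sum_mul, sum_Vt]
  have h5 : ∑ ω, ∑ ω', q ^ 2 * (s ω * s ω') * ⟪B ω, B ω'⟫ *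
      ((∑ j, θ ω j * θ ω' j) / q ^ 2) ^ (m + 1) =
      ((q ^ 2) ^ m)⁻¹ * Q B (Vt s θ (m + 1)) Finset.univ := by
    rw [hQ, Finset.mul_sum]
    refine Finset.sum_congr rfl fun ω _ => ?_
    rw [Finset.mul_sum]
    refine Finset.sum_congr rfl fun ω' _ => ?_
    rw [div_pow, pow_succ (q ^ 2) m]
    field_simp
  rw [h5]
  have h6 : 0 ≤ Q B (Vt s θ (m + 1)) Finset.univ := Finset.sum_nonneg fun _ _ => sq_nonneg _
  have h7 : ((q ^ 2) ^ m)⁻¹ ≤ 1 := inv_le_one_of_one_le₀ (one_le_pow₀ (one_le_pow₀ hq))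
  calc ((q ^ 2) ^ m)⁻¹ * Q B (Vt s θ (m + 1)) Finset.univ
      ≤ 1 * Q B (Vt s θ (m + 1)) Finset.univ := mul_le_mul_of_nonneg_right h7 h6
    _ = _ := one_mul _

end Tensor

section Gram

variable {k r : ℕ}

/-- inner product of two rows -/
noncomputable def gr (G : Fin k → Fin r → Bool) (a b : Fin k) : ℝ :=
  ∑ j, sg (G a j) * sg (G b j)

/-- flipping one entry of a sign matrix -/
def flipM (a : Fin k) (j : Fin r) : (Fin k → Fin r → Bool) ≃ (Fin k → Fin r → Bool) :=
  Function.Involutive.toPerm (fun G => Function.update G a (flip j (G a))) (by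
    intro G
    funext b
    by_cases h : b = a
    · subst h
      simp only [Function.update_self]
      funext l
      by_cases hl : l = j
      · subst hl
        rw [flip_self, flip_self, Bool.not_not]
      · rw [flip_ne hl, flip_ne hl]
    · simp [Function.update_of_ne h])

lemma flipM_self (a : Fin k) (j : Fin r) (G : Fin k → Fin r → Bool) :
    flipM a j G a j = !(G a j) := by
  show Function.update G a (flip j (G a)) a j = _
  rw [Function.update_self, flip_self]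

lemma flipM_ne {a b : Fin k} {j l : Fin r} (h : b ≠ a ∨ l ≠ j) (G : Fin k → Fin r → Bool) :
    flipM a j G b l = G b l := by
  show Function.update G a (flip j (G a)) b l = _
  by_cases hb : b = a
  · subst hb
    rw [Function.update_self, flip_ne]
    rcases h with h | h
    · exact absurd rfl h
    · exact h
  · rw [Function.update_of_ne hb]

lemma Ex_gr_sq {a b : Fin k} (hab : a ≠ b) : Ex (fun G : Fin k → Fin r → Bool => gr G a b ^ 2) = r := by
  have key : ∀ T : Finset (Fin r), Ex (fun G : Fin k → Fin r → Bool =>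
      (∑ j ∈ T, sg (G a j) * sg (G b j)) ^ 2) = T.card := by
    intro T
    induction T using Finset.induction_on with
    | empty =>
      simp only [Finset.sum_empty]
      have := Ex_const (α := Fin k → Fin r → Bool) (0 ^ 2 : ℝ)
      rw [this]
      simp
    | insert i T hi ih =>
      set S : (Fin k → Fin r → Bool) → ℝ := fun G => ∑ j ∈ T, sg (G a j) * sg (G b j) with hS
      have h1 : ∀ G : Fin k → Fin r → Bool, (∑ j ∈ insert i T, sg (G a j) * sg (G b j)) ^ 2 =
          1 + (2 * (sg (G a i) * sg (G b i) * S G) + S G ^ 2) := by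
        intro G
        rw [Finset.sum_insert hi]
        have e1 := sg_sq (G a i)
        have e2 := sg_sq (G b i)
        linear_combination (sg (G b i) ^ 2) * e1 + e2
      simp_rw [h1]
      have h2 : Ex (fun G : Fin k → Fin r → Bool => sg (G a i) * sg (G b i) * S G) = 0 := by
        apply Ex_odd (flipM a i)
        intro G
        have h3 : S (flipM a i G) = S G := by
          simp only [hS]
          refine Finset.sum_congr rfl fun j hj => ?_
          rw [flipM_ne (Or.inr (by rintro rfl; exact hi hj)), flipM_ne (Or.inl hab.symm)]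
        rw [h3, flipM_self, sg_not, flipM_ne (Or.inl hab.symm)]
        ring
      rw [Ex_add, Ex_add, Ex_mul_left, h2, ih, Ex_const, Finset.card_insert_of_notMem hi]
      push_cast
      ring
  have := key Finset.univ
  rw [Finset.card_univ, Fintype.card_fin] at this
  exact this

lemma Ex_gr_abs {a b : Fin k} (hab : a ≠ b) :
    Ex (fun G : Fin k → Fin r → Bool => |gr G a b|) ≤ Real.sqrt r := by
  refine (Ex_le_sqrt _).trans ?_
  simp_rw [sq_abs]
  rw [Ex_gr_sq hab]

end Gram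

section First

variable {k r N : ℕ}

lemma Ex_abs_one_add (α : ℝ) : Ex (fun b : Bool => |1 + sg b * α|) ≤ 1 + α ^ 4 := by
  unfold Ex
  rw [Fintype.card_bool, Fintype.sum_bool]
  simp only [sg, if_true, Bool.false_eq_true, if_false, one_mul]
  push_cast
  have h4 : 0 ≤ α ^ 4 := by positivity
  have key : |1 + α| + |1 + -1 * α| ≤ 2 * (1 + α ^ 4) := by
    rcases le_total |α| 1 with h | h
    · obtain ⟨h1, h2⟩ := abs_le.mp h
      rw [abs_of_nonneg (by linarith), abs_of_nonneg (by linarith)]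
      linarith
    · have h5 : |1 + α| ≤ 1 + |α| := by
        calc |1 + α| ≤ |1| + |α| := abs_add_le _ _
          _ = 1 + |α| := by rw [abs_one]
      have h6 : 1 ≤ |α| ^ 2 := one_le_pow₀ h
      have h7 : α ^ 4 = (|α| ^ 2) ^ 2 := by rw [sq_abs]; ring
      have h8 : |α| ≤ |α| ^ 2 := by nlinarith
      rcases abs_cases (1 + α) with ⟨e1, e2⟩ | ⟨e1, e2⟩ <;>
        rcases abs_cases (1 + -1 * α) with ⟨e3, e4⟩ | ⟨e3, e4⟩ <;>
        rcases abs_cases α with ⟨e5, e6⟩ | ⟨e5, e6⟩ <;>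
        nlinarith
  linarith

lemma Ex_prod_one_add (α : Fin k → ℝ) :
    Ex (fun ε : Fin k → Bool => |∏ a, (1 + sg (ε a) * α a)|) ≤ ∏ a, (1 + α a ^ 4) := by
  simp_rw [Finset.abs_prod]
  rw [Ex_prod (fun (a : Fin k) (b : Bool) => |1 + sg b * α a|)]
  exact Finset.prod_le_prod (fun a _ => Ex_nonneg fun _ => abs_nonneg _)
    fun a _ => Ex_abs_one_add (α a)

lemma exp_three : Real.exp 3 ≤ 21 := by
  have h1 := Real.exp_one_lt_d9
  have h2 : Real.exp 3 = Real.exp 1 ^ 3 := by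
    rw [← Real.exp_nat_mul]
    norm_num
  rw [h2]
  have h3 : Real.exp 1 ^ 3 ≤ 2.7182818286 ^ 3 := pow_le_pow_left₀ (Real.exp_pos _).le h1.le 3
  linarith [show (2.7182818286 : ℝ) ^ 3 ≤ 21 by norm_num]

lemma Ex_first (θ : Fin r → ℝ) (hθ : ∑ j, θ j ^ 2 ≤ 1) {q : ℝ} (hq : 0 < q) (hk : (k : ℝ) = q ^ 4) :
    Ex (fun G : Fin k → Fin r → Bool => Ex fun ε : Fin k → Bool =>
      |∏ a, (1 + sg (ε a) * (X θ (G a) / q))|) ≤ 21 := by
  have h1 : Ex (fun G : Fin k → Fin r → Bool => Ex fun ε : Fin k → Bool =>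
      |∏ a, (1 + sg (ε a) * (X θ (G a) / q))|) ≤
      Ex (fun G : Fin k → Fin r → Bool => ∏ a, (1 + (X θ (G a) / q) ^ 4)) :=
    Ex_mono fun G => Ex_prod_one_add _
  refine h1.trans ?_
  rw [Ex_prod (fun (_ : Fin k) (g : Fin r → Bool) => 1 + (X θ g / q) ^ 4), Finset.prod_const,
    Finset.card_univ, Fintype.card_fin, Ex_add, Ex_const]
  simp_rw [div_pow, div_eq_mul_inv]
  rw [Ex_mul_right]
  have h2 := X_four θ
  have h3 : 0 ≤ Ex fun g => X θ g ^ 4 := Ex_nonneg fun g => by positivity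
  have h4 : Ex (fun g => X θ g ^ 4) ≤ 3 := by
    have h5 : 0 ≤ ∑ j, θ j ^ 2 := Finset.sum_nonneg fun _ _ => sq_nonneg _
    nlinarith
  have h5 : 1 + Ex (fun g => X θ g ^ 4) * (q ^ 4)⁻¹ ≤ Real.exp (3 * (q ^ 4)⁻¹) := by
    have h6 := Real.add_one_le_exp (3 * (q ^ 4)⁻¹)
    have h7 : Ex (fun g => X θ g ^ 4) * (q ^ 4)⁻¹ ≤ 3 * (q ^ 4)⁻¹ :=
      mul_le_mul_of_nonneg_right h4 (by positivity)
    linarith
  calc (1 + Ex (fun g => X θ g ^ 4) * (q ^ 4)⁻¹) ^ k ≤ (Real.exp (3 * (q ^ 4)⁻¹)) ^ k :=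
        pow_le_pow_left₀ (by positivity) h5 k
    _ = Real.exp 3 := by
        rw [← Real.exp_nat_mul, hk]
        congr 1
        field_simp
    _ ≤ 21 := exp_three

end First

section Linear

variable {N d : ℕ} {B : Fin N → E d}

lemma comb_add (x y : Fin N → ℝ) : comb B (x + y) = comb B x + comb B y := by
  unfold comb
  simp only [Pi.add_apply, add_smul, Finset.sum_add_distrib]

lemma comb_smul (c : ℝ) (x : Fin N → ℝ) : comb B (c • x) = c • comb B x := by
  unfold comb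
  simp only [Pi.smul_apply, smul_eq_mul, mul_smul, Finset.smul_sum]

lemma comb_zero : comb B 0 = 0 := by
  unfold comb
  simp

lemma lin {κ : Type} [DecidableEq κ] {φ : (Fin N → ℝ) → ℝ}
    (hadd : ∀ x y, comb B x = 0 → comb B y = 0 → φ (x + y) = φ x + φ y)
    (hsmul : ∀ (c : ℝ) x, comb B x = 0 → φ (c • x) = c * φ x) (T : Finset κ) (c : κ → ℝ)
    (z : κ → Fin N → ℝ) (hz : ∀ i ∈ T, comb B (z i) = 0) :
    comb B (∑ i ∈ T, c i • z i) = 0 ∧ φ (∑ i ∈ T, c i • z i) = ∑ i ∈ T, c i * φ (z i) := by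
  induction T using Finset.induction_on with
  | empty =>
    refine ⟨by rw [Finset.sum_empty, comb_zero], ?_⟩
    rw [Finset.sum_empty, Finset.sum_empty]
    have := hsmul 0 0 comb_zero
    simpa using this
  | insert i T hi ih =>
    obtain ⟨h1, h2⟩ := ih fun j hj => hz j (Finset.mem_insert_of_mem hj)
    have h3 : comb B (c i • z i) = 0 := by
      rw [comb_smul, hz i (Finset.mem_insert_self i T), smul_zero]
    rw [Finset.sum_insert hi, Finset.sum_insert hi]
    refine ⟨by rw [comb_add, h1, h3, add_zero], ?_⟩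
    rw [hadd _ _ h3 h1, h2, hsmul _ _ (hz i (Finset.mem_insert_self i T))]

end Linear

/-- product of signs over a set -/
noncomputable def sA {k : ℕ} (ε : Fin k → Bool) (A : Finset (Fin k)) : ℝ := ∏ a ∈ A, sg (ε a)

lemma sA_abs {k : ℕ} (ε : Fin k → Bool) (A : Finset (Fin k)) : |sA ε A| = 1 := by
  unfold sA
  rw [Finset.abs_prod]
  exact Finset.prod_eq_one fun a _ => sg_abs _

lemma Ex_sA {k : ℕ} (a : Fin k) {A : Finset (Fin k)} (hA : A.Nonempty) :
    Ex (fun ε : Fin k → Bool => sg (ε a) * sA ε A) = if A = {a} then 1 else 0 := by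
  split_ifs with h
  · subst h
    have : ∀ ε : Fin k → Bool, sg (ε a) * sA ε {a} = 1 := by
      intro ε
      unfold sA
      rw [Finset.prod_singleton, sg_mul]
    simp_rw [this]
    exact Ex_const 1
  · obtain ⟨b, hb, hba⟩ : ∃ b ∈ A, b ≠ a := by
      by_contra hcon
      push Not at hcon
      apply h
      obtain ⟨b, hb⟩ := hA
      apply Finset.eq_singleton_iff_unique_mem.mpr
      exact ⟨by rw [← hcon b hb]; exact hb, hcon⟩
    apply Ex_odd (flip b)
    intro ε
    have h1 : sA (flip b ε) A = -sA ε A := by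
      unfold sA
      rw [← Finset.mul_prod_erase A _ hb, ← Finset.mul_prod_erase A _ hb, flip_self, sg_not,
        neg_mul]
      congr 2
      refine Finset.prod_congr rfl fun c hc => ?_
      rw [flip_ne (Finset.ne_of_mem_erase hc)]
    rw [h1, flip_ne (Ne.symm hba)]
    ring

end RieszAux

open RieszAux

theorem riesz : Riesz := by
  intro C' hC'
  obtain ⟨q, hqC⟩ := exists_nat_gt (726 * C')
  have hq1 : (1:ℝ) ≤ q := by nlinarith
  have hq0 : (0:ℝ) < q := by linarith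
  obtain ⟨k, hk⟩ : ∃ k : ℕ, k = q ^ 4 := ⟨_, rfl⟩
  have hkr : (k : ℝ) = (q : ℝ) ^ 4 := by rw [hk]; push_cast; rfl
  have hk0 : (0:ℝ) < k := by rw [hkr]; positivity
  refine ⟨1 / (3 * 2 ^ k * 10 ^ 6), by positivity, (3 * k) ^ 2, ?_⟩
  intro N d B hcover r hr f μ hf hsum hop hlev Φ hadd hsmul hbi hbd
  -- size of `r`
  have hr3 : (3 * k : ℝ) ≤ Real.sqrt r := by
    apply Real.le_sqrt_of_sq_le
    exact_mod_cast hr
  have hrs0 : 0 < Real.sqrt r := by linarith
  have hr0 : (0:ℝ) < r := Real.sqrt_pos.mp hrs0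
  have hrr : Real.sqrt r * Real.sqrt r = r := Real.mul_self_sqrt hr0.le
  -- normalisation
  set n2 : Fin N → ℝ := fun ω => Real.sqrt (∑ j, f j ω ^ 2) with hn2
  set s : Fin N → ℝ := fun ω => n2 ω / Real.sqrt r with hs
  set θ : Fin N → Fin r → ℝ := fun ω j => f j ω / n2 ω with hθdef
  have hn20 : ∀ ω, 0 ≤ n2 ω := fun ω => Real.sqrt_nonneg _
  have hs0 : ∀ ω, 0 ≤ s ω := fun ω => div_nonneg (hn20 ω) hrs0.le
  have hn2sq : ∀ ω, n2 ω ^ 2 = ∑ j, f j ω ^ 2 := fun ω =>
    Real.sq_sqrt (Finset.sum_nonneg fun _ _ => sq_nonneg _)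
  have hθ : ∀ ω, ∑ j, θ ω j ^ 2 ≤ 1 := by
    intro ω
    simp only [hθdef, div_pow]
    rw [← Finset.sum_div, ← hn2sq]
    exact div_self_le_one _
  have hsθ : ∀ ω j, s ω * θ ω j = f j ω / Real.sqrt r := by
    intro ω j
    simp only [hs, hθdef]
    by_cases h : n2 ω = 0
    · have h1 : f j ω ^ 2 = 0 := by
        have h2 := hn2sq ω
        rw [h] at h2
        have h3 := (Finset.sum_eq_zero_iff_of_nonneg (fun j _ => sq_nonneg (f j ω))).1
          (by rw [← h2]; norm_num) j (Finset.mem_univ j)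
        exact h3
      have h2 : f j ω = 0 := by simpa using h1
      rw [h2]
      simp
    · field_simp
  have hs8 : ∑ ω, s ω ≤ 8 := by
    simp only [hs]
    rw [← Finset.sum_div, div_le_iff₀ hrs0]
    exact hsum
  have hop' : OpBd (fun ω j => s ω * θ ω j) μ := by
    have : (fun ω j => s ω * θ ω j) = fun ω j => f j ω / Real.sqrt r := by
      funext ω j
      exact hsθ ω j
    rw [this]
    exact hop
  -- the three averages
  set P : Finset (Finset (Fin k)) := Finset.univ.filter Finset.Nonempty with hP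
  have hPcard : (P.card : ℝ) ≤ 2 ^ k := by
    have h1 : P.card ≤ (Finset.univ : Finset (Finset (Fin k))).card := Finset.card_filter_le _ _
    rw [Finset.card_univ, Fintype.card_finset, Fintype.card_fin] at h1
    exact_mod_cast h1
  set Z1 : (Fin k → Fin r → Bool) → ℝ := fun G => Ex fun ε : Fin k → Bool =>
    ∑ ω, |q * s ω * ∏ a, (1 + sg (ε a) * (X (θ ω) (G a) / q))| with hZ1
  set Z2 : (Fin k → Fin r → Bool) → ℝ := fun G => ∑ A ∈ P, ‖comb B (xA s θ q A G)‖ with hZ2
  set Z3 : (Fin k → Fin r → Bool) → ℝ := fun G =>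
    ∑ a, ∑ b, if a = b then 0 else |gr G a b| with hZ3
  have hZ1nn : ∀ G, 0 ≤ Z1 G := fun G => Ex_nonneg fun ε => Finset.sum_nonneg fun _ _ => abs_nonneg _
  have hZ2nn : ∀ G, 0 ≤ Z2 G := fun G => Finset.sum_nonneg fun _ _ => norm_nonneg _
  have hZ3nn : ∀ G, 0 ≤ Z3 G := fun G => Finset.sum_nonneg fun a _ => Finset.sum_nonneg fun b _ => by
    split_ifs
    · exact le_rfl
    · exact abs_nonneg _
  have hEZ1 : Ex Z1 ≤ 168 * q := by
    have h1 : ∀ G, Z1 G = ∑ ω, (q * s ω) * Ex fun ε : Fin k → Bool =>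
        |∏ a, (1 + sg (ε a) * (X (θ ω) (G a) / q))| := by
      intro G
      simp only [hZ1]
      rw [Ex_sum]
      refine Finset.sum_congr rfl fun ω _ => ?_
      rw [← Ex_mul_left]
      congr 1
      funext ε
      rw [abs_mul, abs_of_nonneg (mul_nonneg hq0.le (hs0 ω))]
    rw [show Z1 = fun G => ∑ ω, (q * s ω) * Ex fun ε : Fin k → Bool =>
        |∏ a, (1 + sg (ε a) * (X (θ ω) (G a) / q))| from funext h1]
    rw [Ex_sum]
    calc ∑ ω, Ex (fun G : Fin k → Fin r → Bool => (q * s ω) * Ex fun ε : Fin k → Bool =>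
          |∏ a, (1 + sg (ε a) * (X (θ ω) (G a) / q))|) ≤ ∑ ω, (q * s ω) * 21 := by
          refine Finset.sum_le_sum fun ω _ => ?_
          rw [Ex_mul_left]
          exact mul_le_mul_of_nonneg_left (Ex_first (θ ω) (hθ ω) hq0 hkr)
            (mul_nonneg hq0.le (hs0 ω))
      _ = (q * 21) * ∑ ω, s ω := by
          rw [Finset.mul_sum]
          exact Finset.sum_congr rfl fun ω _ => by ring
      _ ≤ (q * 21) * 8 := mul_le_mul_of_nonneg_left hs8 (by positivity)
      _ = _ := by ring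
  have hEZ2 : Ex Z2 ≤ 2 ^ k * 10 ^ 6 := by
    simp only [hZ2]
    rw [Ex_sum]
    have h1 : ∀ A ∈ P, Ex (fun G => ‖comb B (xA s θ q A G)‖) ≤ 10 ^ 6 := by
      intro A hA
      have hAne : A.Nonempty := (Finset.mem_filter.mp hA).2
      obtain ⟨m, hm⟩ : ∃ m, A.card = m + 1 :=
        ⟨A.card - 1, by have := Finset.card_pos.mpr hAne; omega⟩
      refine (Ex_le_sqrt _).trans ?_
      have h2 := Ex_xA B s θ hq1 A hm
      have h3 := hlev (Fin (m + 1) → Fin r) (Vt s θ (m + 1)) (opBd_Vt s θ hθ hop' m) (by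
        intro ω
        refine (Vt_sq_le s θ hθ m ω).trans (le_of_eq ?_)
        exact Finset.sum_congr rfl fun j _ => by rw [hsθ])
      rw [show (10 ^ 6 : ℝ) = Real.sqrt ((10 ^ 6) ^ 2) by rw [Real.sqrt_sq (by norm_num)]]
      exact Real.sqrt_le_sqrt (h2.trans h3)
    calc ∑ A ∈ P, Ex (fun G => ‖comb B (xA s θ q A G)‖) ≤ ∑ A ∈ P, (10 ^ 6 : ℝ) :=
          Finset.sum_le_sum h1
      _ = P.card * 10 ^ 6 := by rw [Finset.sum_const, nsmul_eq_mul]
      _ ≤ _ := mul_le_mul_of_nonneg_right hPcard (by norm_num)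
  have hEZ3 : Ex Z3 ≤ k ^ 2 * Real.sqrt r := by
    simp only [hZ3]
    rw [Ex_sum]
    calc ∑ a : Fin k, Ex (fun G : Fin k → Fin r → Bool => ∑ b, if a = b then 0 else |gr G a b|)
        ≤ ∑ a : Fin k, ∑ b : Fin k, Real.sqrt r := by
          refine Finset.sum_le_sum fun a _ => ?_
          rw [Ex_sum]
          refine Finset.sum_le_sum fun b _ => ?_
          by_cases h : a = b
          · simp only [h, if_true]
            rw [Ex_const]
            exact hrs0.le
          · simp only [h, if_false]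
            exact Ex_gr_abs h
      _ = _ := by
          simp only [Finset.sum_const, Finset.card_univ, Fintype.card_fin, nsmul_eq_mul]
          ring
  -- choice of `G`
  obtain ⟨G, hG⟩ := exists_le_Ex (fun G => (168 * (q:ℝ))⁻¹ * Z1 G + ((2 ^ k * 10 ^ 6 : ℝ)⁻¹ * Z2 G +
    (k ^ 2 * Real.sqrt r)⁻¹ * Z3 G))
  have hEtot : Ex (fun G => (168 * (q:ℝ))⁻¹ * Z1 G + ((2 ^ k * 10 ^ 6 : ℝ)⁻¹ * Z2 G +
      (k ^ 2 * Real.sqrt r)⁻¹ * Z3 G)) ≤ 3 := by
    rw [Ex_add, Ex_add, Ex_mul_left, Ex_mul_left, Ex_mul_left]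
    have h1 : (168 * (q:ℝ))⁻¹ * Ex Z1 ≤ 1 := by
      rw [inv_mul_le_iff₀ (by positivity), mul_one]
      exact hEZ1
    have h2 : (2 ^ k * 10 ^ 6 : ℝ)⁻¹ * Ex Z2 ≤ 1 := by
      rw [inv_mul_le_iff₀ (by positivity), mul_one]
      exact hEZ2
    have h3 : (k ^ 2 * Real.sqrt r)⁻¹ * Ex Z3 ≤ 1 := by
      rw [inv_mul_le_iff₀ (by positivity), mul_one]
      exact hEZ3
    linarith
  have hG' := hG.trans hEtot
  have hp1 : 0 ≤ (168 * (q:ℝ))⁻¹ * Z1 G := mul_nonneg (by positivity) (hZ1nn G)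
  have hp2 : 0 ≤ (2 ^ k * 10 ^ 6 : ℝ)⁻¹ * Z2 G := mul_nonneg (by positivity) (hZ2nn G)
  have hp3 : 0 ≤ (k ^ 2 * Real.sqrt r)⁻¹ * Z3 G := mul_nonneg (by positivity) (hZ3nn G)
  have hG1 : Z1 G ≤ 504 * q := by
    have : (168 * (q:ℝ))⁻¹ * Z1 G ≤ 3 := by linarith
    rw [inv_mul_le_iff₀ (by positivity)] at this
    linarith
  have hG2 : Z2 G ≤ 2 ^ k * 10 ^ 6 * 3 := by
    have : (2 ^ k * 10 ^ 6 : ℝ)⁻¹ * Z2 G ≤ 3 := by linarith
    rwa [inv_mul_le_iff₀ (by positivity)] at this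
  have hG3 : Z3 G ≤ k * r := by
    have : (k ^ 2 * Real.sqrt r)⁻¹ * Z3 G ≤ 3 := by linarith
    rw [inv_mul_le_iff₀ (by positivity)] at this
    refine this.trans ?_
    have h1 : (3 * k : ℝ) * Real.sqrt r ≤ Real.sqrt r * Real.sqrt r :=
      mul_le_mul_of_nonneg_right hr3 hrs0.le
    rw [hrr] at h1
    nlinarith
  -- corrections
  have hcor : ∀ A : Finset (Fin k), ∃ y : Fin N → ℝ, comb B y = comb B (xA s θ q A G) ∧
      ∑ ω, |y ω| ≤ 1 / (3 * 2 ^ k * 10 ^ 6) * ‖comb B (xA s θ q A G)‖ := fun A => hcover _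
  choose y hy1 hy2 using hcor
  set z : Finset (Fin k) → Fin N → ℝ := fun A => xA s θ q A G + (-1 : ℝ) • y A with hz
  have hzX : ∀ A, comb B (z A) = 0 := by
    intro A
    simp only [hz]
    rw [comb_add, comb_smul, hy1]
    simp
  -- the singletons
  have hsing : ∀ a : Fin k, xA s θ q {a} G = ∑ i, (sg (G a i) / Real.sqrt r) • f i := by
    intro a
    funext ω
    rw [Finset.sum_apply]
    unfold xA
    rw [Finset.prod_singleton]
    have h1 : q * s ω * (X (θ ω) (G a) / q) = s ω * X (θ ω) (G a) := by field_simp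
    rw [h1]
    unfold X
    rw [Finset.mul_sum]
    refine Finset.sum_congr rfl fun i _ => ?_
    rw [Pi.smul_apply, smul_eq_mul]
    have := hsθ ω i
    calc s ω * (sg (G a i) * θ ω i) = sg (G a i) * (s ω * θ ω i) := by ring
      _ = _ := by rw [this]; ring
  have hsingz : ∀ a : Fin k, z {a} = ∑ i, (sg (G a i) / Real.sqrt r) • f i := by
    intro a
    have h1 : comb B (xA s θ q {a} G) = 0 := by
      rw [hsing a]
      exact (lin (φ := fun _ => 0) (fun _ _ _ _ => by simp) (fun _ _ _ => by simp) Finset.univ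
        (fun i => sg (G a i) / Real.sqrt r) f (fun i _ => hf i)).1
    have h2 := hy2 {a}
    rw [h1, norm_zero, mul_zero] at h2
    have h3 : y {a} = 0 := by
      funext ω
      have h4 : |y {a} ω| ≤ ∑ ω, |y {a} ω| :=
        Finset.single_le_sum (f := fun ω => |y {a} ω|) (fun _ _ => abs_nonneg _)
          (Finset.mem_univ ω)
      have h5 := abs_nonneg (y {a} ω)
      exact abs_eq_zero.mp (le_antisymm (h4.trans h2) h5)
    simp only [hz]
    rw [h3, smul_zero, add_zero, hsing a]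
  have hΦsing : ∀ (a : Fin k) (j : Fin r), Φ j (z {a}) = sg (G a j) / Real.sqrt r := by
    intro a j
    rw [hsingz a, (lin (hadd j) (hsmul j) Finset.univ _ f (fun i _ => hf i)).2]
    simp_rw [hbi]
    simp
  -- the random vector
  set x : (Fin k → Bool) → Fin N → ℝ := fun ε => ∑ A ∈ P, sA ε A • z A with hx
  have hxX : ∀ ε, comb B (x ε) = 0 := fun ε =>
    (lin (φ := fun _ => 0) (fun _ _ _ _ => by simp) (fun _ _ _ => by simp) P (fun A => sA ε A) z
      (fun A _ => hzX A)).1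
  have hΦx : ∀ ε j, Φ j (x ε) = ∑ A ∈ P, sA ε A * Φ j (z A) := fun ε j =>
    (lin (hadd j) (hsmul j) P (fun A => sA ε A) z (fun A _ => hzX A)).2
  -- norm bound
  have hxnorm : ∀ ε, ∑ ω, |x ε ω| ≤
      ∑ ω, |q * s ω * ∏ a, (1 + sg (ε a) * (X (θ ω) (G a) / q))| + (8 * q + 1) := by
    intro ε
    have h1 : ∀ ω, x ε ω = q * s ω * ∏ a, (1 + sg (ε a) * (X (θ ω) (G a) / q)) - q * s ω +
        ∑ A ∈ P, (-(sA ε A * y A ω)) := by
      intro ω
      have h2 : ∏ a, (1 + sg (ε a) * (X (θ ω) (G a) / q)) =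
          1 + ∑ A ∈ P, sA ε A * ∏ a ∈ A, (X (θ ω) (G a) / q) := by
        rw [Finset.prod_one_add, Finset.powerset_univ]
        have h3 : (Finset.univ : Finset (Finset (Fin k))) = insert ∅ P := by
          ext A
          simp only [hP, Finset.mem_univ, Finset.mem_insert, Finset.mem_filter, true_and]
          rcases Finset.eq_empty_or_nonempty A with h | h
          · simp [h]
          · simp [h]
        rw [h3, Finset.sum_insert (by simp [hP])]
        rw [Finset.prod_empty]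
        congr 1
        refine Finset.sum_congr rfl fun A _ => ?_
        rw [Finset.prod_mul_distrib]
        rfl
      rw [h2]
      simp only [hx, hz]
      rw [Finset.sum_apply, mul_add, Finset.mul_sum]
      rw [mul_one, add_sub_cancel_left, ← Finset.sum_add_distrib]
      refine Finset.sum_congr rfl fun A _ => ?_
      simp only [Pi.smul_apply, Pi.add_apply, smul_eq_mul, xA]
      ring
    have h2 : ∀ ω, |x ε ω| ≤ |q * s ω * ∏ a, (1 + sg (ε a) * (X (θ ω) (G a) / q))| + q * s ω +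
        ∑ A ∈ P, |y A ω| := by
      intro ω
      rw [h1]
      refine (abs_add_le _ _).trans ?_
      apply add_le_add
      · refine (abs_sub _ _).trans ?_
        rw [abs_of_nonneg (mul_nonneg hq0.le (hs0 ω))]
      · refine (Finset.abs_sum_le_sum_abs _ _).trans ?_
        refine Finset.sum_le_sum fun A _ => ?_
        rw [abs_neg, abs_mul, sA_abs, one_mul]
    refine (Finset.sum_le_sum fun ω _ => h2 ω).trans ?_
    rw [Finset.sum_add_distrib, Finset.sum_add_distrib, add_assoc]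
    apply add_le_add le_rfl
    apply add_le_add
    · rw [← Finset.mul_sum]
      nlinarith
    · rw [Finset.sum_comm]
      calc ∑ A ∈ P, ∑ ω, |y A ω| ≤
            ∑ A ∈ P, 1 / (3 * 2 ^ k * 10 ^ 6) * ‖comb B (xA s θ q A G)‖ :=
            Finset.sum_le_sum fun A _ => hy2 A
        _ = 1 / (3 * 2 ^ k * 10 ^ 6) * Z2 G := by rw [← Finset.mul_sum]
        _ ≤ 1 / (3 * 2 ^ k * 10 ^ 6) * (2 ^ k * 10 ^ 6 * 3) :=
            mul_le_mul_of_nonneg_left hG2 (by positivity)
        _ = 1 := by field_simp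
  -- the pairing
  set W : (Fin k → Bool) → ℝ := fun ε => ∑ j, (∑ a, sg (ε a) * sg (G a j)) * Φ j (x ε) with hW
  have hEW : Ex W = k * Real.sqrt r := by
    have h1 : ∀ ε, W ε = ∑ j, ∑ a, ∑ A ∈ P, (sg (G a j) * Φ j (z A)) * (sg (ε a) * sA ε A) := by
      intro ε
      simp only [hW]
      refine Finset.sum_congr rfl fun j _ => ?_
      rw [Finset.sum_mul]
      refine Finset.sum_congr rfl fun a _ => ?_
      rw [hΦx, Finset.mul_sum]
      refine Finset.sum_congr rfl fun A _ => ?_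
      ring
    rw [show W = fun ε => ∑ j, ∑ a, ∑ A ∈ P, (sg (G a j) * Φ j (z A)) * (sg (ε a) * sA ε A)
      from funext h1]
    rw [Ex_sum]
    simp_rw [Ex_sum, Ex_mul_left]
    have h2 : ∀ (j : Fin r) (a : Fin k), ∑ A ∈ P, (sg (G a j) * Φ j (z A)) *
        Ex (fun ε : Fin k → Bool => sg (ε a) * sA ε A) = 1 / Real.sqrt r := by
      intro j a
      have h3 : ∀ A ∈ P, (sg (G a j) * Φ j (z A)) *
          Ex (fun ε : Fin k → Bool => sg (ε a) * sA ε A) =
          if A = {a} then (sg (G a j) * Φ j (z A)) else 0 := by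
        intro A hA
        rw [Ex_sA a (Finset.mem_filter.mp hA).2]
        split_ifs <;> simp
      rw [Finset.sum_congr rfl h3, Finset.sum_ite_eq' P {a}, if_pos (by simp [hP]), hΦsing]
      rw [← mul_div_assoc, sg_mul]
    simp_rw [h2]
    simp only [Finset.sum_const, Finset.card_univ, Fintype.card_fin, nsmul_eq_mul]
    have h4 : (r : ℝ) * (1 / Real.sqrt r) = Real.sqrt r := by
      rw [mul_one_div, div_eq_iff hrs0.ne', hrr]
    calc (r : ℝ) * (k * (1 / Real.sqrt r)) = k * (r * (1 / Real.sqrt r)) := by ring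
      _ = k * Real.sqrt r := by rw [h4]
  have hGram : ∀ ε : Fin k → Bool, ∑ j, (∑ a, sg (ε a) * sg (G a j)) ^ 2 ≤ 2 * (k * r) := by
    intro ε
    have h1 : ∑ j, (∑ a, sg (ε a) * sg (G a j)) ^ 2 =
        ∑ a, ∑ b, sg (ε a) * sg (ε b) * gr G a b := by
      simp_rw [pow_two, Finset.sum_mul_sum]
      rw [Finset.sum_comm]
      refine Finset.sum_congr rfl fun a _ => ?_
      rw [Finset.sum_comm]
      refine Finset.sum_congr rfl fun b _ => ?_
      unfold gr
      rw [Finset.mul_sum]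
      refine Finset.sum_congr rfl fun j _ => ?_
      ring
    rw [h1]
    have h2 : ∀ a b : Fin k, sg (ε a) * sg (ε b) * gr G a b ≤
        (if a = b then (r : ℝ) else 0) + if a = b then 0 else |gr G a b| := by
      intro a b
      by_cases h : a = b
      · subst h
        rw [sg_mul, one_mul, if_pos rfl, if_pos rfl, add_zero]
        unfold gr
        simp_rw [sg_mul]
        simp
      · rw [if_neg h, if_neg h, zero_add]
        refine (le_abs_self _).trans ?_
        rw [abs_mul, abs_mul, sg_abs, sg_abs]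
        simp
    refine (Finset.sum_le_sum fun a _ => Finset.sum_le_sum fun b _ => h2 a b).trans ?_
    simp_rw [Finset.sum_add_distrib]
    have h3 : ∑ a : Fin k, ∑ b : Fin k, (if a = b then (r : ℝ) else 0) = k * r := by
      simp
    rw [h3]
    have h4 : ∑ a, ∑ b, (if a = b then 0 else |gr G a b|) = Z3 G := rfl
    rw [h4]
    linarith
  have hWle : ∀ ε, W ε ≤ Real.sqrt (2 * (k * r)) * (C' * ∑ ω, |x ε ω|) := by
    intro ε
    refine (Real.sum_mul_le_sqrt_mul_sqrt _ _ _).trans ?_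
    exact mul_le_mul (Real.sqrt_le_sqrt (hGram ε)) (hbd _ (hxX ε)) (Real.sqrt_nonneg _)
      (Real.sqrt_nonneg _)
  -- final contradiction
  have hfinal : (k : ℝ) * Real.sqrt r ≤
      Real.sqrt (2 * (k * r)) * (C' * (504 * q + (8 * q + 1))) := by
    rw [← hEW]
    refine (Ex_mono hWle).trans ?_
    rw [Ex_mul_left, Ex_mul_left]
    apply mul_le_mul_of_nonneg_left _ (Real.sqrt_nonneg _)
    apply mul_le_mul_of_nonneg_left _ (by linarith)
    refine (Ex_mono hxnorm).trans ?_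
    rw [Ex_add, Ex_const]
    exact add_le_add hG1 le_rfl
  have hsq : Real.sqrt (2 * (k * r)) = Real.sqrt 2 * (q ^ 2 * Real.sqrt r) := by
    rw [Real.sqrt_mul (by norm_num), Real.sqrt_mul hk0.le, hkr,
      show ((q:ℝ) ^ 4) = ((q:ℝ) ^ 2) ^ 2 by ring, Real.sqrt_sq (by positivity)]
  rw [hsq, hkr] at hfinal
  have h2 : Real.sqrt 2 ≤ 1.415 := by
    rw [show (1.415 : ℝ) = Real.sqrt (1.415 ^ 2) by rw [Real.sqrt_sq (by norm_num)]]
    apply Real.sqrt_le_sqrt
    norm_num
  have h3 : (q:ℝ) ^ 4 * Real.sqrt r ≤ 1.415 * (q ^ 2 * Real.sqrt r) * (C' * (513 * q)) := by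
    refine hfinal.trans ?_
    apply mul_le_mul
    · exact mul_le_mul_of_nonneg_right h2 (by positivity)
    · apply mul_le_mul_of_nonneg_left _ (by linarith)
      linarith
    · positivity
    · positivity
  have h4 : (q:ℝ) ^ 3 * Real.sqrt r * q ≤ (q:ℝ) ^ 3 * Real.sqrt r * (726 * C') := by
    have h5 : 0 < (q:ℝ) ^ 3 * Real.sqrt r * C' := by positivity
    nlinarith
  have h5 := le_of_mul_le_mul_left h4 (by positivity)
  linarith

end Pool.Agent.Lib.MP_bd1451_an
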