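import Pool.Agent.Lib.MP_bd1451_an.Symm
import Pool.Agent.Lib.MP_bd1451_an.Riesz
import Pool.Agent.Lib.MP_bd1451_an.LevelSets
import Pool.Agent.Lib.MP_bd1451_an.CoverOfRaw
import Pool.Agent.Lib.MP_bd1451_an.Derived
import Pool.Agent.Lib.MP_bd1451_an.RandomMatrix
import Pool.Agent.Lib.MP_bd1451_an.GaussInterface

/-!
# MP_bd1451_an: assembly of the negative answer
-/

set_option autoImplicit false
open scoped BigOperators RealInnerProductSpace
open Filter Topology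

namespace Pool.Agent.Lib.MP_bd1451_an

/-- the linear map `x ↦ ∑ x ω • B ω` on `ℓ₁^N` -/
noncomputable def combP {N d : ℕ} (B : Fin N → E d) : PiLp 1 (fun _ : Fin N => ℝ) →ₗ[ℝ] E d where
  toFun x := comb B (fun ω => x ω)
  map_add' _ _ := comb_add B _ _
  map_smul' c _ := comb_smul B c _

/-- the space `X ⊆ ℓ₁^N` -/
noncomputable abbrev XB {N d : ℕ} (B : Fin N → E d) : Submodule ℝ (PiLp 1 (fun _ : Fin N => ℝ)) :=
  LinearMap.ker (combP B)

lemma mem_XB {N d : ℕ} {B : Fin N → E d} (x : PiLp 1 (fun _ : Fin N => ℝ)) :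
    x ∈ XB B ↔ comb B (fun ω => x ω) = 0 := Iff.rfl

lemma finrank_XB {N d : ℕ} (B : Fin N → E d) : N ≤ Module.finrank ℝ (XB B) + d := by
  have h1 := LinearMap.finrank_range_add_finrank_ker (combP B)
  have h2 : Module.finrank ℝ (LinearMap.range (combP B)) ≤ d := by
    have := Submodule.finrank_le (LinearMap.range (combP B))
    simpa using this
  have h3 : Module.finrank ℝ (PiLp 1 (fun _ : Fin N => ℝ)) = N := by
    rw [(WithLp.linearEquiv 1 ℝ (Fin N → ℝ)).finrank_eq]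
    simp
  rw [h3] at h1
  have h4 : Module.finrank ℝ (XB B) = Module.finrank ℝ (LinearMap.ker (combP B)) := rfl
  omega

lemma norm_XB {N d : ℕ} {B : Fin N → E d} (x : XB B) : ‖x‖ = ∑ ω, |(x : PiLp 1 (fun _ : Fin N => ℝ)) ω| := by
  rw [Submodule.coe_norm, PiLp.norm_eq_of_L1]
  rfl

/-- core: no well complemented 2-symmetric subspace of large dimension -/
theorem core (C : ℝ) (hC : 1 ≤ C) : ∃ k₀ : ℕ, ∀ n₀ : ℕ, ∃ (N d : ℕ) (B : Fin N → E d),
    n₀ ≤ Module.finrank ℝ (XB B) ∧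
    ∀ (k : ℕ), k₀ ≤ k → ∀ e : Fin k → XB B, LinearIndependent ℝ e →
      (∃ P : XB B →L[ℝ] XB B,
          (∀ x, P x ∈ Submodule.span ℝ (Set.range e)) ∧
          (∀ y ∈ Submodule.span ℝ (Set.range e), P y = y) ∧ ‖P‖ ≤ C) →
      (∀ σ : Equiv.Perm (Fin k), ∀ ε : Fin k → ℝ, (∀ i, ε i = 1 ∨ ε i = -1) →
        ∀ a : Fin k → ℝ, ‖∑ i, (ε i * a i) • e (σ i)‖ ≤ 2 * ‖∑ i, a i • e i‖) → False := by
  obtain ⟨κ, hκ, r₀, hR⟩ := riesz (16 * C) (by linarith)
  obtain ⟨R, hR2, d₀, hB⟩ := randomMatrix_of_tails gaussianTails (1 / κ) (by positivity)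
  obtain ⟨K, hK1, d₁, hD⟩ := derived R hR2
  obtain ⟨δ, hδ, hL⟩ := levelSets R (7 * R) hR2
  -- choice of r
  have hlim : Tendsto (fun r : ℕ => (7 * R * (36 * K ^ 2)) / Real.sqrt r) atTop (𝓝 0) :=
    Tendsto.div_atTop tendsto_const_nhds
      ((Real.tendsto_sqrt_atTop).comp tendsto_natCast_atTop_atTop)
  obtain ⟨r, hr1, hr0, hrδ⟩ : ∃ r : ℕ, 1 ≤ r ∧ r₀ ≤ r ∧ (7 * R * (36 * K ^ 2)) / Real.sqrt r < δ := by
    have h1 := (hlim.eventually (gt_mem_nhds hδ)).and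
      ((eventually_ge_atTop 1).and (eventually_ge_atTop r₀))
    obtain ⟨r, h2, h3, h4⟩ := h1.exists
    exact ⟨r, h3, h4, h2⟩
  obtain ⟨k₀, hS⟩ := Pool.Agent.Lib.MP_bd1451_an.symm C K hC hK1 r hr1
  refine ⟨k₀, fun n₀ => ?_⟩
  set d := max (max d₀ d₁) (max n₀ 1) with hd
  have hd0 : d₀ ≤ d := le_trans (le_max_left _ _) (le_max_left _ _)
  have hd1 : d₁ ≤ d := le_trans (le_max_right _ _) (le_max_left _ _)
  have hdn : n₀ ≤ d := le_trans (le_max_left _ _) (le_max_right _ _)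
  have hdpos : 0 < d := lt_of_lt_of_le one_pos (le_trans (le_max_right _ _) (le_max_right _ _))
  obtain ⟨B, hcov, hop, hW, hY, hY1⟩ := hB d hd0
  obtain ⟨hP0, hP1, hP2, hKH⟩ := hD d hd1 B hop hW hY hY1
  have hcover : Cover B κ := by
    have := coverOfRaw _ _ B (1 / κ) (by positivity) hcov
    rwa [one_div_one_div] at this
  have hNpos : 0 < R * d := Nat.mul_pos (by omega) hdpos
  refine ⟨R * d, d, B, ?_, ?_⟩
  · have h1 := finrank_XB B
    have h2 : 2 * d ≤ R * d := Nat.mul_le_mul_right d hR2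
    omega
  intro k hk e hli hP hsym
  obtain ⟨P, hPr, hPid, hPn⟩ := hP
  -- translate to functions
  let e' : Fin k → Fin (R * d) → ℝ := fun i ω => (e i : PiLp 1 (fun _ : Fin (R * d) => ℝ)) ω
  have heX : ∀ i, comb B (e' i) = 0 := fun i => (e i).2
  let mk : ∀ x : Fin (R * d) → ℝ, comb B x = 0 → XB B := fun x hx => ⟨WithLp.toLp 1 x, hx⟩
  have hnorm : ∀ x hx, ‖mk x hx‖ = ∑ ω, |x ω| := fun x hx => norm_XB _
  -- the coordinates
  let L : XB B →ₗ[ℝ] (Fin k →₀ ℝ) := hli.repr ∘ₗ (P.toLinearMap.codRestrict (Submodule.span ℝ (Set.range e)) hPr)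
  have hLsum : ∀ x : XB B, P x = ∑ i, L x i • e i := by
    intro x
    have h1 := hli.linearCombination_repr ⟨P x, hPr x⟩
    calc P x = Finsupp.linearCombination ℝ e (hli.repr ⟨P x, hPr x⟩) := h1.symm
      _ = ∑ i, L x i • e i := by
        rw [Finsupp.linearCombination_apply, Finsupp.sum_fintype _ _ (by simp)]
        rfl
  have hLe : ∀ i j, L (e j) i = if i = j then 1 else 0 := by
    intro i j
    have h1 : L (e j) = hli.repr ⟨P (e j), hPr (e j)⟩ := rfl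
    have h2 : P (e j) = e j := hPid _ (Submodule.subset_span ⟨j, rfl⟩)
    rw [h1, hli.repr_eq_single j _ h2, Finsupp.single_apply]
    simp [eq_comm]
  let c : Fin k → ((Fin (R * d) → ℝ) → ℝ) := fun i x => if h : comb B x = 0 then L (mk x h) i else 0
  have hcdef : ∀ i x (h : comb B x = 0), c i x = L (mk x h) i := fun i x h => by simp only [c, dif_pos h]
  have hli' : LinearIndependent ℝ e' := by
    let T : XB B →ₗ[ℝ] (Fin (R * d) → ℝ) :=
      (WithLp.linearEquiv 1 ℝ (Fin (R * d) → ℝ)).toLinearMap ∘ₗ (XB B).subtype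
    have hT : LinearMap.ker T = ⊥ := by
      rw [LinearMap.ker_eq_bot]
      exact (WithLp.linearEquiv 1 ℝ (Fin (R * d) → ℝ)).injective.comp (Submodule.injective_subtype _)
    exact hli.map' T hT
  have hsym' : ∀ (σ : Equiv.Perm (Fin k)) (ε : Fin k → ℝ), (∀ i, ε i = 1 ∨ ε i = -1) →
        ∀ a : Fin k → ℝ,
          ∑ ω, |∑ i, (ε i * a i) * e' (σ i) ω| ≤ 2 * ∑ ω, |∑ i, a i * e' i ω| := by
    intro σ ε hε a
    have h1 := hsym σ ε hε a
    rw [norm_XB, norm_XB] at h1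
    refine le_trans (le_of_eq ?_) (h1.trans (le_of_eq ?_))
    · refine Finset.sum_congr rfl fun ω _ => ?_
      congr 1
      simp [e']
    · congr 1
      refine Finset.sum_congr rfl fun ω _ => ?_
      congr 1
      simp [e']
  have hcadd : ∀ i x y, comb B x = 0 → comb B y = 0 → c i (x + y) = c i x + c i y := by
    intro i x y hx hy
    have hxy : comb B (x + y) = 0 := by rw [comb_add, hx, hy, add_zero]
    rw [hcdef _ _ hxy, hcdef _ _ hx, hcdef _ _ hy]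
    have : mk (x + y) hxy = mk x hx + mk y hy := rfl
    rw [this, map_add]; rfl
  have hcsmul : ∀ i (s : ℝ) x, comb B x = 0 → c i (s • x) = s * c i x := by
    intro i s x hx
    have hsx : comb B (s • x) = 0 := by rw [comb_smul, hx, smul_zero]
    rw [hcdef _ _ hsx, hcdef _ _ hx]
    have : mk (s • x) hsx = s • mk x hx := rfl
    rw [this, map_smul]; rfl
  have hce : ∀ i j, c i (e' j) = if i = j then 1 else 0 := by
    intro i j
    rw [hcdef _ _ (heX j)]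
    exact hLe i j
  have hcP : ∀ x, comb B x = 0 → ∑ ω, |∑ i, c i x * e' i ω| ≤ C * ∑ ω, |x ω| := by
    intro x hx
    have h1 : ‖P (mk x hx)‖ ≤ C * ‖mk x hx‖ :=
      (P.le_opNorm _).trans (mul_le_mul_of_nonneg_right hPn (norm_nonneg _))
    rw [hnorm, hLsum, norm_XB] at h1
    refine le_trans (le_of_eq ?_) h1
    refine Finset.sum_congr rfl fun ω _ => ?_
    congr 1
    simp only [hcdef _ _ hx]
    simp [e']
  obtain ⟨f, Φ, hfX, hf8, hfOp, hΦ1, hΦ2, hΦf, hΦn⟩ :=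
    hS (R * d) d B hNpos hKH k hk e' heX hli' hsym' c hcadd hcsmul hce hcP
  -- Riesz
  have hNr : ((R * d : ℕ) : ℝ) = (R : ℝ) * d := by push_cast; ring
  have hsr : 0 < Real.sqrt r := Real.sqrt_pos.2 (by exact_mod_cast hr1)
  have hRd : (0 : ℝ) < (R : ℝ) * d := by rw [← hNr]; exact_mod_cast hNpos
  refine hR (R * d) d B hcover r hr0 f (36 * K ^ 2 / ((R * d : ℕ) * Real.sqrt r)) hfX hf8 hfOp ?_ Φ hΦ1 hΦ2 hΦf hΦn
  intro ι _ V hV hVle
  refine hL d hdpos B hP0 hP1 hP2 r (fun ω j => f j ω / Real.sqrt r) _ hfOp (by positivity) ?_ ?_ ?_ ι V hV hVle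
  · rw [hNr]
    refine le_trans (le_of_eq ?_) hrδ.le
    push_cast
    field_simp
  · have h1 : ∀ ω, Real.sqrt (∑ i, (f i ω / Real.sqrt r) ^ 2) = Real.sqrt (∑ i, f i ω ^ 2) / Real.sqrt r := by
      intro ω
      have : ∑ i, (f i ω / Real.sqrt r) ^ 2 = (∑ i, f i ω ^ 2) / (Real.sqrt r) ^ 2 := by
        rw [Finset.sum_div]; exact Finset.sum_congr rfl fun i _ => by rw [div_pow]
      rw [this, Real.sqrt_div (Finset.sum_nonneg fun _ _ => sq_nonneg _), Real.sqrt_sq hsr.le]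
    simp_rw [h1]
    rw [← Finset.sum_div, div_le_iff₀ hsr]
    exact hf8
  · intro j
    have : (fun ω => f j ω / Real.sqrt r) = (1 / Real.sqrt r) • f j := by
      funext ω; simp [div_eq_inv_mul]
    rw [this, comb_smul, hfX, smul_zero]

/-- the negative answer -/
theorem not_main :
    ¬ (∃ C : ℝ, ∃ k : ℕ → ℕ, Tendsto k atTop atTop ∧
      ∀ n : ℕ, ∀ (X : Type) [NormedAddCommGroup X] [NormedSpace ℝ X],
        Module.finrank ℝ X = n →
        ∃ e : Fin (k n) → X, LinearIndependent ℝ e ∧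
          (∃ P : X →L[ℝ] X,
              (∀ x : X, P x ∈ Submodule.span ℝ (Set.range e)) ∧
              (∀ y ∈ Submodule.span ℝ (Set.range e), P y = y) ∧
              ‖P‖ ≤ C) ∧
          ∀ σ : Equiv.Perm (Fin (k n)), ∀ ε : Fin (k n) → ℝ,
            (∀ i, ε i = 1 ∨ ε i = -1) →
            ∀ a : Fin (k n) → ℝ,
              ‖∑ i, (ε i * a i) • e (σ i)‖ ≤ 2 * ‖∑ i, a i • e i‖) := by
  rintro ⟨C, k, hk, H⟩
  obtain ⟨k₀, hk₀⟩ := core (max C 1) (le_max_right _ _)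
  obtain ⟨n₀, hn₀⟩ := Filter.eventually_atTop.1 (hk.eventually (eventually_ge_atTop k₀))
  obtain ⟨N, d, B, hn, hB⟩ := hk₀ n₀
  obtain ⟨e, hli, ⟨P, h1, h2, h3⟩, hsym⟩ := H (Module.finrank ℝ (XB B)) (XB B) rfl
  exact hB _ (hn₀ _ hn) e hli ⟨P, h1, h2, h3.trans (le_max_left _ _)⟩ hsym

end Pool.Agent.Lib.MP_bd1451_an
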