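import Mathlib

/-!
# Gaussian tails for `stdGaussian` on a finite-dimensional inner product space
(MP_bd1451_an, TARGET 1a)
-/

set_option autoImplicit false
open scoped BigOperators RealInnerProductSpace ENNReal
open MeasureTheory ProbabilityTheory Real

namespace Pool.Agent.Lib.MP_bd1451_an

/-! ### one-dimensional integrals -/

lemma lintegral_exp_mul_gaussian (c : ℝ) :
    ∫⁻ s, ENNReal.ofReal (exp (c * s)) ∂(gaussianReal 0 1) = ENNReal.ofReal (exp (c ^ 2 / 2)) := by
  rw [← ofReal_integral_eq_lintegral_ofReal (integrable_exp_mul_gaussianReal c)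
    (Filter.Eventually.of_forall fun s => (exp_pos _).le)]
  have h := mgf_gaussianReal (p := gaussianReal 0 1) (X := fun x : ℝ => x) (μ := 0) (v := 1)
    (by simp) c
  rw [mgf] at h
  rw [h]
  simp

lemma lintegral_exp_sq_gaussian (b : ℝ) (hb : b < 1 / 2) :
    ∫⁻ s, ENNReal.ofReal (exp (b * s ^ 2)) ∂(gaussianReal 0 1) =
      ENNReal.ofReal (√(1 / (1 - 2 * b))) := by
  have hb' : 0 < 1 / 2 - b := by linarith
  rw [gaussianReal_of_var_ne_zero 0 (by norm_num)]
  rw [lintegral_withDensity_eq_lintegral_mul _ (measurable_gaussianPDF 0 1) (by fun_prop)]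
  have h1 : ∀ s : ℝ, (gaussianPDF 0 1 * fun s => ENNReal.ofReal (exp (b * s ^ 2))) s =
      ENNReal.ofReal ((√(2 * π))⁻¹ * exp (-(1 / 2 - b) * s ^ 2)) := by
    intro s
    rw [Pi.mul_apply, gaussianPDF, ← ENNReal.ofReal_mul (gaussianPDFReal_nonneg _ _ _)]
    congr 1
    rw [gaussianPDFReal]
    rw [mul_assoc, ← exp_add]
    congr 2
    · simp
    · simp
      ring
  simp_rw [h1]
  rw [← ofReal_integral_eq_lintegral_ofReal]
  · congr 1
    rw [integral_const_mul, integral_gaussian, ← Real.sqrt_inv, ← Real.sqrt_mul (by positivity)]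
    congr 1
    have : (1 : ℝ) - 2 * b ≠ 0 := by linarith
    have h2 : (1 : ℝ) / 2 - b ≠ 0 := by linarith
    have h3 : π ≠ 0 := Real.pi_ne_zero
    field_simp
  · exact (integrable_exp_neg_mul_sq hb').const_mul _
  · exact Filter.Eventually.of_forall fun s => by positivity

/-- product formula -/
lemma lintegral_pi_prod {A : Type*} [Fintype A] (F : ℝ → ℝ≥0∞) (hF : Measurable F) :
    ∫⁻ x : A → ℝ, ∏ a, F (x a) ∂(Measure.pi fun _ => gaussianReal 0 1) =
      (∫⁻ s, F s ∂(gaussianReal 0 1)) ^ (Fintype.card A) := by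
  have h := lintegral_prod_eq_prod_lintegral_of_indepFun
    (μ := Measure.pi fun _ : A => gaussianReal 0 1) Finset.univ
    (fun (a : A) (x : A → ℝ) => F (x a))
    (iIndepFun_pi (X := fun _ => F) (fun _ => hF.aemeasurable))
    (fun a => hF.comp (measurable_pi_apply a))
  rw [h]
  have h2 : ∀ a : A, ∫⁻ x : A → ℝ, F (x a) ∂(Measure.pi fun _ => gaussianReal 0 1) =
      ∫⁻ s, F s ∂(gaussianReal 0 1) := by
    intro a
    exact (measurePreserving_eval (fun _ : A => gaussianReal 0 1) a).lintegral_comp hF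
  simp_rw [h2]
  simp

variable {E : Type*} [NormedAddCommGroup E] [InnerProductSpace ℝ E] [FiniteDimensional ℝ E]
  [MeasurableSpace E] [BorelSpace E]

lemma map_inner_stdGaussian (u : E) :
    (stdGaussian E).map (fun x => ⟪u, x⟫) = gaussianReal 0 (‖u‖ ^ 2).toNNReal := by
  have h : (fun x : E => ⟪u, x⟫) = (innerSL ℝ u : E →L[ℝ] ℝ) := by
    ext x; simp
  rw [h, IsGaussian.map_eq_gaussianReal]
  congr 1
  · exact integral_strongDual_stdGaussian _
  · rw [variance_dual_stdGaussian]
    simp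

lemma lintegral_exp_inner (u : E) :
    ∫⁻ x, ENNReal.ofReal (exp ⟪u, x⟫) ∂(stdGaussian E) = ENNReal.ofReal (exp (‖u‖ ^ 2 / 2)) := by
  have h := map_inner_stdGaussian u
  have hm : Measurable (fun x : E => ⟪u, x⟫) := by fun_prop
  have h1 : ∫⁻ x, ENNReal.ofReal (exp ⟪u, x⟫) ∂(stdGaussian E) =
      ∫⁻ s, ENNReal.ofReal (exp s) ∂(gaussianReal 0 (‖u‖ ^ 2).toNNReal) := by
    rw [← h, lintegral_map (by fun_prop) hm]
  rw [h1]
  have h2 : Integrable (fun s => exp s) (gaussianReal 0 (‖u‖ ^ 2).toNNReal) := by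
    simpa using integrable_exp_mul_gaussianReal (μ := 0) (v := (‖u‖ ^ 2).toNNReal) 1
  rw [← ofReal_integral_eq_lintegral_ofReal h2
    (Filter.Eventually.of_forall fun s => (exp_pos _).le)]
  have h3 := mgf_gaussianReal (p := gaussianReal 0 (‖u‖ ^ 2).toNNReal) (X := fun x : ℝ => x)
    (μ := 0) (v := (‖u‖ ^ 2).toNNReal) (by simp) 1
  rw [mgf] at h3
  simp only [one_mul] at h3
  rw [h3]
  congr 2
  simp

/-! ### G1: upper tail -/

theorem lintegral_exp_sum_sq {A : Type*} [Fintype A] (g : A → E)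
    (hg : ∀ c : A → ℝ, ‖∑ a, c a • g a‖ ^ 2 ≤ ∑ a, c a ^ 2) :
    ∫⁻ x, ENNReal.ofReal (exp (1 / 4 * ∑ a, ⟪g a, x⟫ ^ 2)) ∂(stdGaussian E) ≤
      ENNReal.ofReal ((√2) ^ (Fintype.card A)) := by
  have key : ∀ z : A → ℝ, ENNReal.ofReal (exp (1 / 4 * ∑ a, z a ^ 2)) =
      ∫⁻ η : A → ℝ, ENNReal.ofReal (exp (∑ a, (z a / √2) * η a))
        ∂(Measure.pi fun _ => gaussianReal 0 1) := by
    intro z
    have h := lintegral_prod_eq_prod_lintegral_of_indepFun
      (μ := Measure.pi fun _ : A => gaussianReal 0 1) Finset.univ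
      (fun (a : A) (η : A → ℝ) => ENNReal.ofReal (exp ((z a / √2) * η a)))
      (iIndepFun_pi (X := fun a s => ENNReal.ofReal (exp ((z a / √2) * s)))
        (fun _ => by fun_prop))
      (fun a => by fun_prop)
    have h2 : ∀ a : A, ∫⁻ η : A → ℝ, ENNReal.ofReal (exp ((z a / √2) * η a))
        ∂(Measure.pi fun _ => gaussianReal 0 1) = ENNReal.ofReal (exp (1 / 4 * z a ^ 2)) := by
      intro a
      rw [(measurePreserving_eval (fun _ : A => gaussianReal 0 1) a).lintegral_comp
        (f := fun s => ENNReal.ofReal (exp ((z a / √2) * s))) (by fun_prop)]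
      rw [lintegral_exp_mul_gaussian]
      congr 2
      rw [div_pow, Real.sq_sqrt (by norm_num)]
      ring
    simp_rw [h2] at h
    rw [← ENNReal.ofReal_prod_of_nonneg (fun a _ => (exp_pos _).le), ← exp_sum,
      ← Finset.mul_sum] at h
    rw [← h]
    refine lintegral_congr fun η => ?_
    rw [exp_sum, ENNReal.ofReal_prod_of_nonneg (fun a _ => (exp_pos _).le)]
  calc ∫⁻ x, ENNReal.ofReal (exp (1 / 4 * ∑ a, ⟪g a, x⟫ ^ 2)) ∂(stdGaussian E)
      = ∫⁻ x, ∫⁻ η : A → ℝ, ENNReal.ofReal (exp (∑ a, (⟪g a, x⟫ / √2) * η a))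
        ∂(Measure.pi fun _ => gaussianReal 0 1) ∂(stdGaussian E) := by
        exact lintegral_congr fun x => key _
    _ = ∫⁻ η : A → ℝ, ∫⁻ x, ENNReal.ofReal (exp (∑ a, (⟪g a, x⟫ / √2) * η a))
        ∂(stdGaussian E) ∂(Measure.pi fun _ => gaussianReal 0 1) := by
        rw [lintegral_lintegral_swap]
        apply Measurable.aemeasurable
        apply ENNReal.measurable_ofReal.comp
        apply Real.measurable_exp.comp
        apply Finset.measurable_sum
        intro a _
        have h1 : Measurable fun p : E × (A → ℝ) => ⟪g a, p.1⟫ := by fun_prop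
        have h2 : Measurable fun p : E × (A → ℝ) => p.2 a := by fun_prop
        exact (h1.div_const _).mul h2
    _ = ∫⁻ η : A → ℝ, ENNReal.ofReal (exp (‖∑ a, η a • g a‖ ^ 2 / 4))
        ∂(Measure.pi fun _ => gaussianReal 0 1) := by
        refine lintegral_congr fun η => ?_
        have h1 : ∀ x : E, ∑ a, (⟪g a, x⟫ / √2) * η a = ⟪(√2)⁻¹ • ∑ a, η a • g a, x⟫ := by
          intro x
          rw [real_inner_smul_left, sum_inner, Finset.mul_sum]
          refine Finset.sum_congr rfl fun a _ => ?_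
          rw [real_inner_smul_left]
          field_simp
        simp_rw [h1]
        rw [lintegral_exp_inner]
        congr 2
        rw [norm_smul, mul_pow, Real.norm_eq_abs, sq_abs, inv_pow, Real.sq_sqrt (by norm_num)]
        ring
    _ ≤ ∫⁻ η : A → ℝ, ∏ a, ENNReal.ofReal (exp (1 / 4 * (η a) ^ 2))
        ∂(Measure.pi fun _ => gaussianReal 0 1) := by
        refine lintegral_mono fun η => ?_
        rw [← ENNReal.ofReal_prod_of_nonneg (fun a _ => (exp_pos _).le), ← exp_sum,
          ← Finset.mul_sum]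
        apply ENNReal.ofReal_le_ofReal
        apply Real.exp_le_exp.2
        have := hg η
        linarith
    _ = ENNReal.ofReal ((√2) ^ (Fintype.card A)) := by
        rw [lintegral_pi_prod (fun s => ENNReal.ofReal (exp (1 / 4 * s ^ 2))) (by fun_prop)]
        rw [lintegral_exp_sq_gaussian (1 / 4) (by norm_num),
          ← ENNReal.ofReal_pow (Real.sqrt_nonneg _)]
        congr 3
        norm_num

/-- **G1** (upper tail for a contraction family). -/
theorem gauss_upper {A : Type*} [Fintype A] (g : A → E)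
    (hg : ∀ c : A → ℝ, ‖∑ a, c a • g a‖ ^ 2 ≤ ∑ a, c a ^ 2) (y : ℝ) :
    (stdGaussian E).real {x | y ≤ ∑ a, ⟪g a, x⟫ ^ 2} ≤ exp (-y / 4) * (√2) ^ (Fintype.card A) := by
  have h1 : ENNReal.ofReal (exp (y / 4)) * (stdGaussian E) {x | y ≤ ∑ a, ⟪g a, x⟫ ^ 2} ≤
      ENNReal.ofReal ((√2) ^ (Fintype.card A)) := by
    refine le_trans ?_ (lintegral_exp_sum_sq g hg)
    refine le_trans ?_ (mul_meas_ge_le_lintegral (by fun_prop) (ENNReal.ofReal (exp (y / 4))))
    gcongr
    intro hx
    apply ENNReal.ofReal_le_ofReal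
    apply Real.exp_le_exp.2
    linarith
  have h2 : exp (y / 4) * (stdGaussian E).real {x | y ≤ ∑ a, ⟪g a, x⟫ ^ 2} ≤
      (√2) ^ (Fintype.card A) := by
    have := ENNReal.toReal_mono ENNReal.ofReal_ne_top h1
    rwa [ENNReal.toReal_mul, ENNReal.toReal_ofReal (exp_pos _).le,
      ENNReal.toReal_ofReal (by positivity)] at this
  have h3 : exp (-y / 4) * exp (y / 4) = 1 := by
    rw [← exp_add]; simp [neg_div]
  calc (stdGaussian E).real {x | y ≤ ∑ a, ⟪g a, x⟫ ^ 2}
      = exp (-y / 4) * (exp (y / 4) * (stdGaussian E).real {x | y ≤ ∑ a, ⟪g a, x⟫ ^ 2}) := by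
        rw [← mul_assoc, h3, one_mul]
    _ ≤ _ := by gcongr

/-! ### the law of the coordinates -/

lemma map_coords_stdGaussian {A : Type*} [Fintype A] (g : A → E) (hg : Orthonormal ℝ g) :
    (stdGaussian E).map (fun x (a : A) => ⟪g a, x⟫) = Measure.pi fun _ => gaussianReal 0 1 := by
  have hm : Measurable (fun (x : E) (a : A) => ⟪g a, x⟫) := by
    rw [measurable_pi_iff]
    intro a
    fun_prop
  have h1 : ((stdGaussian E).map (fun x (a : A) => ⟪g a, x⟫)).map (WithLp.toLp 2) =
      stdGaussian (EuclideanSpace ℝ A) := by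
    rw [Measure.map_map (by fun_prop) hm]
    apply Measure.ext_of_charFun (E := EuclideanSpace ℝ A)
    ext t
    rw [charFun_stdGaussian, charFun_apply, integral_map (by fun_prop)
      (Measurable.aestronglyMeasurable (by fun_prop))]
    have h2 : ∀ x : E, ⟪(WithLp.toLp 2 ∘ fun (x : E) (a : A) => ⟪g a, x⟫) x, t⟫ =
        ⟪x, ∑ a, t a • g a⟫ := by
      intro x
      rw [inner_sum]
      simp only [Function.comp_apply, PiLp.inner_apply]
      refine Finset.sum_congr rfl fun a _ => ?_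
      rw [real_inner_smul_right, real_inner_comm]
      simp [mul_comm, real_inner_comm]
    simp_rw [h2]
    rw [← charFun_apply, charFun_stdGaussian]
    congr 3
    have h3 : ‖∑ a, t a • g a‖ ^ 2 = ‖t‖ ^ 2 := by
      rw [← real_inner_self_eq_norm_sq, hg.inner_sum]
      rw [EuclideanSpace.real_norm_sq_eq]
      simp [sq]
    exact_mod_cast h3
  have h4 : (stdGaussian (EuclideanSpace ℝ A)).map WithLp.ofLp =
      Measure.pi fun _ : A => gaussianReal 0 1 := by
    rw [← map_pi_eq_stdGaussian, Measure.map_map (by fun_prop) (by fun_prop)]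
    have : (WithLp.ofLp ∘ WithLp.toLp 2 : (A → ℝ) → (A → ℝ)) = id := by
      ext x; rfl
    rw [this, Measure.map_id]
  rw [← h4, ← h1, Measure.map_map (by fun_prop) (by fun_prop)]
  have : (WithLp.ofLp ∘ WithLp.toLp 2 : (A → ℝ) → (A → ℝ)) = id := by
    ext x; rfl
  rw [this, Measure.map_id]

lemma lintegral_prod_coords {A : Type*} [Fintype A] (g : A → E) (hg : Orthonormal ℝ g)
    (F : ℝ → ℝ≥0∞) (hF : Measurable F) :
    ∫⁻ x, ∏ a, F ⟪g a, x⟫ ∂(stdGaussian E) = (∫⁻ s, F s ∂(gaussianReal 0 1)) ^ (Fintype.card A) := by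
  have hm : Measurable (fun (x : E) (a : A) => ⟪g a, x⟫) := by
    rw [measurable_pi_iff]
    intro a
    fun_prop
  rw [← lintegral_pi_prod F hF, ← map_coords_stdGaussian g hg, lintegral_map _ hm]
  exact Finset.measurable_prod _ fun a _ => hF.comp (measurable_pi_apply a)

/-! ### G2: lower tail -/

/-- **G2** (lower tail for an orthonormal family). -/
theorem gauss_lower {A : Type*} [Fintype A] (g : A → E) (hg : Orthonormal ℝ g) :
    (stdGaussian E).real {x | ∑ a, ⟪g a, x⟫ ^ 2 ≤ (Fintype.card A : ℝ) / 8} ≤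
      exp (-(59 / 100) * (Fintype.card A : ℝ)) := by
  set n : ℕ := Fintype.card A with hn
  have h0 : ∫⁻ x, ENNReal.ofReal (exp (-4 * ∑ a, ⟪g a, x⟫ ^ 2)) ∂(stdGaussian E) =
      ENNReal.ofReal ((1 / 3) ^ n) := by
    have h := lintegral_prod_coords g hg (fun s => ENNReal.ofReal (exp (-4 * s ^ 2))) (by fun_prop)
    rw [lintegral_exp_sq_gaussian (-4) (by norm_num),
      ← ENNReal.ofReal_pow (Real.sqrt_nonneg _)] at h
    have h9 : √(1 / (1 - 2 * (-4 : ℝ))) = 1 / 3 := by
      rw [show (1 : ℝ) / (1 - 2 * (-4)) = (1 / 3) ^ 2 by norm_num]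
      exact Real.sqrt_sq (by norm_num)
    rw [h9] at h
    rw [← h]
    refine lintegral_congr fun x => ?_
    rw [← ENNReal.ofReal_prod_of_nonneg (fun a _ => (exp_pos _).le), ← exp_sum, ← Finset.mul_sum]
  have h1 : ENNReal.ofReal (exp (-(n / 2 : ℝ))) *
      (stdGaussian E) {x | ∑ a, ⟪g a, x⟫ ^ 2 ≤ (n : ℝ) / 8} ≤ ENNReal.ofReal ((1 / 3) ^ n) := by
    rw [← h0]
    refine le_trans ?_ (mul_meas_ge_le_lintegral (by fun_prop)
      (ENNReal.ofReal (exp (-(n / 2 : ℝ)))))
    gcongr
    intro hx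
    apply ENNReal.ofReal_le_ofReal
    apply Real.exp_le_exp.2
    linarith
  have h2 : exp (-(n / 2 : ℝ)) * (stdGaussian E).real {x | ∑ a, ⟪g a, x⟫ ^ 2 ≤ (n : ℝ) / 8} ≤
      (1 / 3) ^ n := by
    have := ENNReal.toReal_mono ENNReal.ofReal_ne_top h1
    rwa [ENNReal.toReal_mul, ENNReal.toReal_ofReal (exp_pos _).le,
      ENNReal.toReal_ofReal (by positivity)] at this
  have h3 : exp (n / 2 : ℝ) * exp (-(n / 2 : ℝ)) = 1 := by
    rw [← exp_add]; simp
  have h5 : (1 / 3 : ℝ) ≤ exp (-(109 / 100)) := by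
    have h6 : exp (109 / 100 : ℝ) ≤ 3 := by
      have h7 : (109 / 100 : ℝ) = 1 + 9 / 100 := by norm_num
      rw [h7, exp_add]
      have h8 := Real.exp_one_lt_d9
      have h9 : exp (9 / 100 : ℝ) ≤ 1.095 := by
        have h10 := Real.exp_bound' (x := 9 / 100) (by norm_num) (by norm_num) (n := 3) (by norm_num)
        refine h10.trans ?_
        norm_num [Finset.sum_range_succ, Nat.factorial]
      have h11 : 0 < exp (9 / 100 : ℝ) := exp_pos _
      nlinarith [exp_pos (1 : ℝ)]
    rw [exp_neg, one_div]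
    exact inv_anti₀ (exp_pos _) h6
  calc (stdGaussian E).real {x | ∑ a, ⟪g a, x⟫ ^ 2 ≤ (n : ℝ) / 8}
      = exp (n / 2 : ℝ) * (exp (-(n / 2 : ℝ)) *
        (stdGaussian E).real {x | ∑ a, ⟪g a, x⟫ ^ 2 ≤ (n : ℝ) / 8}) := by
        rw [← mul_assoc, h3, one_mul]
    _ ≤ exp (n / 2 : ℝ) * (1 / 3) ^ n := by gcongr
    _ ≤ exp (n / 2 : ℝ) * (exp (-(109 / 100))) ^ n := by gcongr
    _ = exp (-(59 / 100) * (n : ℝ)) := by
        rw [← exp_nat_mul, ← exp_add]
        congr 1
        ring

/-! ### G3: counting large coordinates -/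

lemma tail_pos (t : ℝ) : 0 < (gaussianReal 0 1).real {x | 2 * t ≤ |x|} := by
  have h1 : 0 < (gaussianReal 0 1) {x : ℝ | 2 * t ≤ |x|} := by
    have h2 : (volume : Measure ℝ) ≪ gaussianReal 0 1 :=
      gaussianReal_absolutelyContinuous' 0 (by norm_num)
    rw [pos_iff_ne_zero]
    intro h0
    have h3 := h2 h0
    have h4 : Set.Ioo (2 * |t|) (2 * |t| + 1) ⊆ {x : ℝ | 2 * t ≤ |x|} := by
      intro x hx
      simp only [Set.mem_setOf_eq]
      have := le_abs_self t
      have := le_abs_self x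
      linarith [hx.1]
    have h5 : (volume : Measure ℝ) (Set.Ioo (2 * |t|) (2 * |t| + 1)) = 0 :=
      measure_mono_null h4 h3
    rw [Real.volume_Ioo] at h5
    simp at h5
  exact ENNReal.toReal_pos h1.ne' (measure_ne_top _ _)


/-- **G3** (number of large coordinates). -/
theorem gauss_count {N : ℕ} (g : Fin N → E) (hg : Orthonormal ℝ g) (t : ℝ) :
    (stdGaussian E).real {x | (((Finset.univ.filter fun i => 2 * t ≤ |⟪g i, x⟫|).card : ℕ) : ℝ) ≤
        (gaussianReal 0 1).real {x | 2 * t ≤ |x|} * N / 2} ≤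
      exp (-(13 / 100) * ((gaussianReal 0 1).real {x | 2 * t ≤ |x|} * N)) := by
  set p : ℝ := (gaussianReal 0 1).real {x | 2 * t ≤ |x|} with hp
  have hp0 : 0 < p := tail_pos t
  have hp1 : p ≤ 1 := measureReal_le_one
  have hmS : MeasurableSet {x : ℝ | 2 * t ≤ |x|} :=
    measurableSet_le measurable_const (by fun_prop)
  set F : ℝ → ℝ := fun s => if 2 * t ≤ |s| then exp (-1) else 1 with hF
  have hFm : Measurable F := Measurable.ite hmS measurable_const measurable_const
  have hFpos : ∀ s, 0 < F s := by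
    intro s
    rw [hF]
    simp only
    split_ifs
    · exact exp_pos _
    · norm_num
  have hprod : ∀ x : E, ∏ i, F ⟪g i, x⟫ =
      exp (-(((Finset.univ.filter fun i => 2 * t ≤ |⟪g i, x⟫|).card : ℕ) : ℝ)) := by
    intro x
    rw [hF]
    simp only
    rw [Finset.prod_ite]
    simp only [Finset.prod_const, Finset.prod_const_one, mul_one]
    rw [← exp_nat_mul]
    congr 1
    ring
  have hint : ∫⁻ s, ENNReal.ofReal (F s) ∂(gaussianReal 0 1) =
      ENNReal.ofReal (1 - p * (1 - exp (-1))) := by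
    have hi : Integrable F (gaussianReal 0 1) := by
      apply Integrable.of_bound hFm.aestronglyMeasurable 1
      refine Filter.Eventually.of_forall fun s => ?_
      rw [Real.norm_eq_abs, abs_of_pos (hFpos s), hF]
      simp only
      split_ifs
      · rw [exp_le_one_iff]; norm_num
      · norm_num
    rw [← ofReal_integral_eq_lintegral_ofReal hi
      (Filter.Eventually.of_forall fun s => (hFpos s).le)]
    congr 1
    have hF2 : F = fun s => 1 + Set.indicator {x : ℝ | 2 * t ≤ |x|} (fun _ => exp (-1) - 1) s := by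
      ext s
      rw [hF]
      simp only [Set.indicator, Set.mem_setOf_eq]
      split_ifs <;> ring
    rw [hF2, integral_add (integrable_const _) ((integrable_const _).indicator hmS),
      integral_indicator hmS, setIntegral_const]
    simp only [integral_const, smul_eq_mul, probReal_univ]
    rw [← hp]
    ring
  have h0 : ∫⁻ x, ENNReal.ofReal
      (exp (-(((Finset.univ.filter fun i => 2 * t ≤ |⟪g i, x⟫|).card : ℕ) : ℝ)))
        ∂(stdGaussian E) = ENNReal.ofReal ((1 - p * (1 - exp (-1))) ^ N) := by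
    have h := lintegral_prod_coords g hg (fun s => ENNReal.ofReal (F s)) (by fun_prop)
    rw [hint, Fintype.card_fin, ← ENNReal.ofReal_pow] at h
    · rw [← h]
      refine lintegral_congr fun x => ?_
      rw [← ENNReal.ofReal_prod_of_nonneg (fun a _ => (hFpos _).le), hprod]
    · have : exp (-1 : ℝ) > 0 := exp_pos _
      nlinarith
  have hmeas : Measurable fun x : E => ENNReal.ofReal
      (exp (-(((Finset.univ.filter fun i => 2 * t ≤ |⟪g i, x⟫|).card : ℕ) : ℝ))) := by
    simp_rw [← hprod]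
    apply ENNReal.measurable_ofReal.comp
    exact Finset.measurable_prod _ fun a _ => hFm.comp (by fun_prop)
  have he : exp (-1 : ℝ) ≤ 37 / 100 := by
    rw [exp_neg]
    have := Real.exp_one_gt_d9
    rw [inv_le_comm₀ (exp_pos _) (by norm_num)]
    norm_num at this ⊢
    linarith
  have h1 : ENNReal.ofReal (exp (-(p * N / 2))) *
      (stdGaussian E) {x | (((Finset.univ.filter fun i => 2 * t ≤ |⟪g i, x⟫|).card : ℕ) : ℝ) ≤
        p * N / 2} ≤ ENNReal.ofReal ((1 - p * (1 - exp (-1))) ^ N) := by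
    rw [← h0]
    refine le_trans ?_ (mul_meas_ge_le_lintegral hmeas (ENNReal.ofReal (exp (-(p * N / 2)))))
    gcongr
    intro hx
    apply ENNReal.ofReal_le_ofReal
    apply Real.exp_le_exp.2
    linarith
  have hnn : 0 ≤ 1 - p * (1 - exp (-1)) := by
    have : exp (-1 : ℝ) > 0 := exp_pos _
    nlinarith
  have h2 : exp (-(p * N / 2)) *
      (stdGaussian E).real {x | (((Finset.univ.filter fun i => 2 * t ≤ |⟪g i, x⟫|).card : ℕ) : ℝ) ≤
        p * N / 2} ≤ (1 - p * (1 - exp (-1))) ^ N := by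
    have := ENNReal.toReal_mono ENNReal.ofReal_ne_top h1
    rwa [ENNReal.toReal_mul, ENNReal.toReal_ofReal (exp_pos _).le,
      ENNReal.toReal_ofReal (by positivity)] at this
  have h3 : exp (p * N / 2) * exp (-(p * N / 2)) = 1 := by
    rw [← exp_add]; simp
  have h4 : (1 - p * (1 - exp (-1))) ≤ exp (-(63 / 100 * p)) := by
    have h5 := Real.add_one_le_exp (-(63 / 100 * p))
    nlinarith
  calc (stdGaussian E).real
        {x | (((Finset.univ.filter fun i => 2 * t ≤ |⟪g i, x⟫|).card : ℕ) : ℝ) ≤ p * N / 2}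
      = exp (p * N / 2) * (exp (-(p * N / 2)) * (stdGaussian E).real
        {x | (((Finset.univ.filter fun i => 2 * t ≤ |⟪g i, x⟫|).card : ℕ) : ℝ) ≤ p * N / 2}) := by
        rw [← mul_assoc, h3, one_mul]
    _ ≤ exp (p * N / 2) * (1 - p * (1 - exp (-1))) ^ N := by gcongr
    _ ≤ exp (p * N / 2) * (exp (-(63 / 100 * p))) ^ N := by gcongr
    _ = exp (-(13 / 100) * (p * N)) := by
        rw [← exp_nat_mul, ← exp_add]
        congr 1
        ring

end Pool.Agent.Lib.MP_bd1451_an
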