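import Mathlib

/-!
# MP_bd1451_an: nets in finite-dimensional normed spaces
-/

set_option autoImplicit false

namespace Pool.Agent.Lib.MP_bd1451_an

open Module

section
variable {V : Type*} [NormedAddCommGroup V] [NormedSpace ℝ V] [FiniteDimensional ℝ V]

/-- the unit ball has a `1/2`-net of at most `5^dim` points of the unit ball -/
theorem net_ball (V : Type*) [NormedAddCommGroup V] [NormedSpace ℝ V] [FiniteDimensional ℝ V] :
    ∃ s : Finset V, s.card ≤ 5 ^ finrank ℝ V ∧ (∀ x ∈ s, ‖x‖ ≤ 1) ∧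
      ∀ x : V, ‖x‖ ≤ 1 → ∃ y ∈ s, ‖x - y‖ ≤ 1 / 2 := by
  classical
  let P : ℕ → Prop := fun k => ∃ s : Finset V, s.card = k ∧ (∀ x ∈ s, ‖x‖ ≤ 1) ∧
    ∀ x ∈ s, ∀ y ∈ s, x ≠ y → 1 / 2 ≤ ‖x - y‖
  have hP : ∀ k, P k → k ≤ 5 ^ finrank ℝ V := by
    rintro k ⟨s, rfl, h1, h2⟩
    have h := Besicovitch.card_le_of_separated (s.image (fun x : V => (2 : ℝ) • x)) ?_ ?_
    · rwa [Finset.card_image_of_injective _ (smul_right_injective V (two_ne_zero))] at h
    · intro c hc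
      obtain ⟨x, hx, rfl⟩ := Finset.mem_image.1 hc
      have := h1 x hx
      rw [norm_smul, Real.norm_eq_abs, abs_of_pos (by norm_num : (0 : ℝ) < 2)]
      linarith
    · intro c hc d hd hcd
      obtain ⟨x, hx, rfl⟩ := Finset.mem_image.1 hc
      obtain ⟨y, hy, rfl⟩ := Finset.mem_image.1 hd
      have hxy : x ≠ y := fun h => hcd (by rw [h])
      have := h2 x hx y hy hxy
      rw [← smul_sub, norm_smul, Real.norm_eq_abs, abs_of_pos (by norm_num : (0 : ℝ) < 2)]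
      linarith
  have h0 : P 0 := ⟨∅, rfl, by simp, by simp⟩
  obtain ⟨s, hs, h1, h2⟩ := Nat.findGreatest_spec (P := P) (Nat.zero_le (5 ^ finrank ℝ V)) h0
  refine ⟨s, by rw [hs]; exact Nat.findGreatest_le _, h1, ?_⟩
  intro x hx
  by_contra hcon
  push Not at hcon
  have hxs : x ∉ s := by
    intro h
    have := hcon x h
    simp at this
    linarith
  have hP' : P (s.card + 1) := by
    refine ⟨insert x s, Finset.card_insert_of_notMem hxs, ?_, ?_⟩
    · intro z hz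
      rcases Finset.mem_insert.1 hz with rfl | hz
      · exact hx
      · exact h1 z hz
    · intro z hz y hy hzy
      rcases Finset.mem_insert.1 hz with hzx | hz'
      · rcases Finset.mem_insert.1 hy with hyx | hy'
        · exact absurd (hzx.trans hyx.symm) hzy
        · rw [hzx]; exact (hcon y hy').le
      · rcases Finset.mem_insert.1 hy with hyx | hy'
        · rw [hyx, norm_sub_rev]; exact (hcon z hz').le
        · exact h2 z hz' y hy' hzy
  have := Nat.le_findGreatest (P := P) (hP _ hP') hP'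
  omega

/-- iterated net: `5^(j dim)` balls of radius `2^{-j}` cover the unit ball -/
theorem net_iter (V : Type*) [NormedAddCommGroup V] [NormedSpace ℝ V] [FiniteDimensional ℝ V]
    (j : ℕ) : ∃ s : Finset V, s.card ≤ 5 ^ (j * finrank ℝ V) ∧
      ∀ x : V, ‖x‖ ≤ 1 → ∃ y ∈ s, ‖x - y‖ ≤ (1 / 2) ^ j := by
  classical
  induction j with
  | zero => exact ⟨{0}, by simp, fun x hx => ⟨0, by simp, by simpa using hx⟩⟩
  | succ j ih =>
    obtain ⟨s, hs, h⟩ := ih
    obtain ⟨b, hb, -, hb'⟩ := net_ball V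
    refine ⟨(s ×ˢ b).image (fun p => p.1 + ((1 / 2 : ℝ) ^ j) • p.2), ?_, ?_⟩
    · refine Finset.card_image_le.trans ?_
      rw [Finset.card_product, add_mul, one_mul, pow_add]
      exact Nat.mul_le_mul hs hb
    · intro x hx
      obtain ⟨y, hy, hxy⟩ := h x hx
      have hpos : (0 : ℝ) < (1 / 2) ^ j := by positivity
      obtain ⟨z, hz, hxz⟩ := hb' (((1 / 2 : ℝ) ^ j)⁻¹ • (x - y)) (by
        rw [norm_smul, norm_inv, Real.norm_eq_abs, abs_of_pos hpos, inv_mul_le_iff₀ hpos]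
        simpa using hxy)
      refine ⟨y + ((1 / 2 : ℝ) ^ j) • z, Finset.mem_image.2 ⟨(y, z), by simp [hy, hz], rfl⟩, ?_⟩
      have he : x - (y + ((1 / 2 : ℝ) ^ j) • z) =
          ((1 / 2 : ℝ) ^ j) • ((((1 / 2 : ℝ) ^ j)⁻¹ • (x - y)) - z) := by
        rw [smul_sub, smul_smul, mul_inv_cancel₀ hpos.ne', one_smul]
        abel
      rw [he, norm_smul, Real.norm_eq_abs, abs_of_pos hpos, pow_succ]
      exact mul_le_mul_of_nonneg_left hxz hpos.le

/-- net inside a subset of the unit ball -/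
theorem net_sub (V : Type*) [NormedAddCommGroup V] [NormedSpace ℝ V] [FiniteDimensional ℝ V]
    (K : Set V) (hK : ∀ x ∈ K, ‖x‖ ≤ 1) (j : ℕ) :
    ∃ s : Finset V, s.card ≤ 5 ^ (j * finrank ℝ V) ∧ (∀ y ∈ s, y ∈ K) ∧
      ∀ x ∈ K, ∃ y ∈ s, ‖x - y‖ ≤ 2 * (1 / 2) ^ j := by
  classical
  obtain ⟨s, hs, h⟩ := net_iter V j
  let good : V → Prop := fun y => ∃ x ∈ K, ‖x - y‖ ≤ (1 / 2) ^ j
  choose! f hf using fun (y : V) (hy : good y) => hy
  refine ⟨(s.filter good).image f, ?_, ?_, ?_⟩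
  · exact (Finset.card_image_le.trans (Finset.card_filter_le _ _)).trans hs
  · intro y hy
    obtain ⟨z, hz, rfl⟩ := Finset.mem_image.1 hy
    exact (hf z (Finset.mem_filter.1 hz).2).1
  · intro x hx
    obtain ⟨y, hy, hxy⟩ := h x (hK x hx)
    have hg : good y := ⟨x, hx, hxy⟩
    refine ⟨f y, Finset.mem_image.2 ⟨y, Finset.mem_filter.2 ⟨hy, hg⟩, rfl⟩, ?_⟩
    have h2 := (hf y hg).2
    calc ‖x - f y‖ = ‖(x - y) - (f y - y)‖ := by congr 1; abel
      _ ≤ ‖x - y‖ + ‖f y - y‖ := norm_sub_le _ _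
      _ ≤ 2 * (1 / 2) ^ j := by linarith

/-- operator norm from a `1/2`-net -/
theorem op_of_net {V F : Type*} [NormedAddCommGroup V] [NormedSpace ℝ V]
    [NormedAddCommGroup F] [NormedSpace ℝ F] (T : V →L[ℝ] F) (s : Finset V) (M : ℝ) (hM : 0 ≤ M)
    (hs : ∀ x : V, ‖x‖ ≤ 1 → ∃ y ∈ s, ‖x - y‖ ≤ 1 / 2) (h : ∀ y ∈ s, ‖T y‖ ≤ M) :
    ‖T‖ ≤ 2 * M := by
  have h1 : ‖T‖ ≤ M + ‖T‖ / 2 := by
    refine ContinuousLinearMap.opNorm_le_of_unit_norm ?_ ?_
    · have := norm_nonneg T; positivity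
    · intro x hx
      obtain ⟨y, hy, hxy⟩ := hs x hx.le
      have h2 : ‖T (x - y)‖ ≤ ‖T‖ * (1 / 2) :=
        (T.le_opNorm _).trans (mul_le_mul_of_nonneg_left hxy (norm_nonneg T))
      calc ‖T x‖ = ‖T y + T (x - y)‖ := by rw [map_sub]; congr 1; abel
        _ ≤ ‖T y‖ + ‖T (x - y)‖ := norm_add_le _ _
        _ ≤ M + ‖T‖ / 2 := by have := h y hy; linarith
  linarith

end

end Pool.Agent.Lib.MP_bd1451_an
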