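import Mathlib

/-!
# Random signs: moments and Khintchine's inequality with constant 1/2
-/

set_option autoImplicit false
open scoped BigOperators

namespace Pool.Agent.Lib.MP_bd1451_an

/-- the sign attached to a boolean -/
def sg (b : Bool) : ℝ := cond b 1 (-1)

@[simp] lemma sg_true : sg true = 1 := rfl
@[simp] lemma sg_false : sg false = -1 := rfl
lemma sg_or (b : Bool) : sg b = 1 ∨ sg b = -1 := by cases b <;> simp
lemma sg_mul_self (b : Bool) : sg b * sg b = 1 := by cases b <;> simp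
lemma sg_sq (b : Bool) : sg b ^ 2 = 1 := by cases b <;> simp
lemma abs_sg (b : Bool) : |sg b| = 1 := by cases b <;> simp

/-- average over all boolean vectors -/
noncomputable def EB (n : ℕ) (F : (Fin n → Bool) → ℝ) : ℝ := (∑ s, F s) / 2 ^ n

lemma EB_succ (n : ℕ) (F : (Fin (n + 1) → Bool) → ℝ) :
    EB (n + 1) F = (EB n (fun s => F (Fin.cons true s)) + EB n (fun s => F (Fin.cons false s))) / 2 := by
  unfold EB
  rw [← (Fin.consEquiv (fun _ : Fin (n + 1) => Bool)).sum_comp, Fintype.sum_prod_type]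
  simp only [Fintype.sum_bool]
  rw [pow_succ]
  have h : ∀ b : Bool, ∑ y : Fin n → Bool, F ((Fin.consEquiv fun _ : Fin (n + 1) => Bool) (b, y)) =
      ∑ y : Fin n → Bool, F (Fin.cons b y) := fun b => rfl
  rw [h, h]
  field_simp

lemma EB_zero (F : (Fin 0 → Bool) → ℝ) : EB 0 F = F default := by
  unfold EB
  rw [Fintype.sum_unique, pow_zero, div_one]
  exact congrArg F (Subsingleton.elim _ _)

lemma EB_mono (n : ℕ) {F G : (Fin n → Bool) → ℝ} (h : ∀ s, F s ≤ G s) : EB n F ≤ EB n G := by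
  unfold EB
  have := Finset.sum_le_sum (fun s (_ : s ∈ (Finset.univ : Finset (Fin n → Bool))) => h s)
  gcongr

lemma EB_const (n : ℕ) (c : ℝ) : EB n (fun _ => c) = c := by
  unfold EB
  simp

lemma EB_le_of_le (n : ℕ) {F : (Fin n → Bool) → ℝ} {c : ℝ} (h : ∀ s, F s ≤ c) : EB n F ≤ c := by
  have := EB_mono n (G := fun _ => c) h
  rwa [EB_const] at this

lemma le_EB_of_le (n : ℕ) {F : (Fin n → Bool) → ℝ} {c : ℝ} (h : ∀ s, c ≤ F s) : c ≤ EB n F := by
  have := EB_mono n (F := fun _ => c) h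
  rwa [EB_const] at this

lemma EB_add (n : ℕ) (F G : (Fin n → Bool) → ℝ) : EB n (fun s => F s + G s) = EB n F + EB n G := by
  unfold EB
  rw [Finset.sum_add_distrib, add_div]

lemma EB_mul (n : ℕ) (c : ℝ) (F : (Fin n → Bool) → ℝ) : EB n (fun s => c * F s) = c * EB n F := by
  unfold EB
  rw [← Finset.mul_sum, mul_div_assoc]

lemma EB_sum (n : ℕ) {ι : Type*} (T : Finset ι) (F : ι → (Fin n → Bool) → ℝ) :
    EB n (fun s => ∑ i ∈ T, F i s) = ∑ i ∈ T, EB n (F i) := by
  unfold EB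
  rw [Finset.sum_comm, Finset.sum_div]

/-- second moment -/
lemma EB_sq (n : ℕ) (a : Fin n → ℝ) (c : ℝ) :
    EB n (fun s => (c + ∑ i, sg (s i) * a i) ^ 2) = c ^ 2 + ∑ i, a i ^ 2 := by
  induction n generalizing c with
  | zero => rw [EB_zero]; simp
  | succ n ih =>
    rw [EB_succ]
    simp only [Fin.sum_univ_succ, Fin.cons_zero, Fin.cons_succ, sg_true, sg_false]
    have h1 : EB n (fun s => (c + (1 * a 0 + ∑ i : Fin n, sg (s i) * a i.succ)) ^ 2) =
        (c + a 0) ^ 2 + ∑ i : Fin n, a i.succ ^ 2 := by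
      rw [← ih (fun i => a i.succ) (c + a 0)]
      congr 1; funext s; ring
    have h2 : EB n (fun s => (c + (-1 * a 0 + ∑ i : Fin n, sg (s i) * a i.succ)) ^ 2) =
        (c - a 0) ^ 2 + ∑ i : Fin n, a i.succ ^ 2 := by
      rw [← ih (fun i => a i.succ) (c - a 0)]
      congr 1; funext s; ring
    rw [h1, h2]; ring

/-- fourth moment -/
lemma EB_four (n : ℕ) (a : Fin n → ℝ) (c : ℝ) :
    EB n (fun s => (c + ∑ i, sg (s i) * a i) ^ 4) ≤
      c ^ 4 + 6 * c ^ 2 * (∑ i, a i ^ 2) + 3 * (∑ i, a i ^ 2) ^ 2 := by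
  induction n generalizing c with
  | zero => rw [EB_zero]; simp
  | succ n ih =>
    rw [EB_succ]
    simp only [Fin.sum_univ_succ, Fin.cons_zero, Fin.cons_succ, sg_true, sg_false]
    have h1 : EB n (fun s => (c + (1 * a 0 + ∑ i : Fin n, sg (s i) * a i.succ)) ^ 4) ≤
        (c + a 0) ^ 4 + 6 * (c + a 0) ^ 2 * (∑ i : Fin n, a i.succ ^ 2) + 3 * (∑ i : Fin n, a i.succ ^ 2) ^ 2 := by
      refine le_trans (le_of_eq ?_) (ih (fun i => a i.succ) (c + a 0))
      congr 1; funext s; ring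
    have h2 : EB n (fun s => (c + (-1 * a 0 + ∑ i : Fin n, sg (s i) * a i.succ)) ^ 4) ≤
        (c - a 0) ^ 4 + 6 * (c - a 0) ^ 2 * (∑ i : Fin n, a i.succ ^ 2) + 3 * (∑ i : Fin n, a i.succ ^ 2) ^ 2 := by
      refine le_trans (le_of_eq ?_) (ih (fun i => a i.succ) (c - a 0))
      congr 1; funext s; ring
    set A := ∑ i : Fin n, a i.succ ^ 2
    have h3 : 0 ≤ a 0 ^ 4 := by positivity
    nlinarith [h1, h2, h3]

lemma EB_sq' (n : ℕ) (a : Fin n → ℝ) :
    EB n (fun s => (∑ i, sg (s i) * a i) ^ 2) = ∑ i, a i ^ 2 := by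
  have := EB_sq n a 0
  simpa using this

lemma EB_four' (n : ℕ) (a : Fin n → ℝ) :
    EB n (fun s => (∑ i, sg (s i) * a i) ^ 4) ≤ 3 * (∑ i, a i ^ 2) ^ 2 := by
  have := EB_four n a 0
  simpa using this

/-- `E |S| ≤ |a|₂` -/
lemma EB_abs_le (n : ℕ) (a : Fin n → ℝ) :
    EB n (fun s => |∑ i, sg (s i) * a i|) ≤ Real.sqrt (∑ i, a i ^ 2) := by
  set A := ∑ i, a i ^ 2 with hA
  have hA0 : 0 ≤ A := Finset.sum_nonneg fun i _ => sq_nonneg _
  rcases hA0.eq_or_lt with h | h
  · have ha : ∀ i, a i = 0 := by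
      intro i
      have := (Finset.sum_eq_zero_iff_of_nonneg (fun i _ => sq_nonneg (a i))).1 h.symm i (Finset.mem_univ i)
      exact pow_eq_zero_iff (two_ne_zero) |>.1 this
    rw [← h]
    simp [ha, EB_const]
  · set l := Real.sqrt A with hl
    have hl0 : 0 < l := Real.sqrt_pos.2 h
    have hll : l * l = A := Real.mul_self_sqrt hA0
    have h1 : EB n (fun s => |∑ i, sg (s i) * a i|) ≤
        EB n (fun s => (1 / (2 * l)) * (∑ i, sg (s i) * a i) ^ 2 + l / 2) := by
      apply EB_mono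
      intro s
      set y := ∑ i, sg (s i) * a i
      have h2 : 0 ≤ (|y| - l) ^ 2 := sq_nonneg _
      have h3 : |y| ^ 2 = y ^ 2 := sq_abs y
      rw [← sub_nonneg]
      have : (1 / (2 * l)) * y ^ 2 + l / 2 - |y| = (|y| - l) ^ 2 / (2 * l) := by
        field_simp
        rw [← h3]; ring
      rw [this]; positivity
    rw [EB_add, EB_mul, EB_sq', EB_const] at h1
    refine h1.trans (le_of_eq ?_)
    rw [← hA, ← hll]
    field_simp
    ring

/-- Khintchine: `E |S| ≥ |a|₂ / 2` -/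
lemma khintchine (n : ℕ) (a : Fin n → ℝ) :
    Real.sqrt (∑ i, a i ^ 2) ≤ 2 * EB n (fun s => |∑ i, sg (s i) * a i|) := by
  set A := ∑ i, a i ^ 2 with hA
  have hA0 : 0 ≤ A := Finset.sum_nonneg fun i _ => sq_nonneg _
  rcases hA0.eq_or_lt with h | h
  · rw [← h, Real.sqrt_zero]
    have : 0 ≤ EB n (fun s => |∑ i, sg (s i) * a i|) := le_EB_of_le n fun s => abs_nonneg _
    linarith
  · set l := Real.sqrt A with hl
    have hl0 : 0 < l := Real.sqrt_pos.2 h
    have hll : l * l = A := Real.mul_self_sqrt hA0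
    have h1 : EB n (fun s => (1 / l) * (∑ i, sg (s i) * a i) ^ 2 +
        (-(4 / (27 * l ^ 3))) * (∑ i, sg (s i) * a i) ^ 4) ≤ EB n (fun s => |∑ i, sg (s i) * a i|) := by
      apply EB_mono
      intro s
      set y := ∑ i, sg (s i) * a i
      have h3 : |y| ^ 2 = y ^ 2 := sq_abs y
      have h4 : |y| ^ 4 = y ^ 4 := by
        calc |y| ^ 4 = (|y| ^ 2) ^ 2 := by ring
          _ = y ^ 4 := by rw [h3]; ring
      rw [← sub_nonneg, ← h3, ← h4]
      set z := |y|
      have hz : 0 ≤ z := abs_nonneg y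
      have : z - (1 / l * z ^ 2 + (-(4 / (27 * l ^ 3))) * z ^ 4) =
          z * (1 - 2 / 3 * (z / l)) ^ 2 * (1 + (z / l) / 3) := by
        field_simp
        ring
      rw [this]
      positivity
    rw [EB_add, EB_mul, EB_mul, EB_sq'] at h1
    have h5 := EB_four' n a
    rw [← hA] at h5 h1
    have h6 : (-(4 / (27 * l ^ 3))) * EB n (fun s => (∑ i, sg (s i) * a i) ^ 4) ≥
        (-(4 / (27 * l ^ 3))) * (3 * A ^ 2) := by
      apply mul_le_mul_of_nonpos_left h5
      have : 0 < 4 / (27 * l ^ 3) := by positivity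
      linarith
    have h7 : (1 / l) * A + (-(4 / (27 * l ^ 3))) * (3 * A ^ 2) = 5 / 9 * l := by
      rw [← hll]; field_simp; ring
    linarith

/-- convexity: from signs to the cube -/
lemma cube_bound {V : Type*} [AddCommGroup V] [Module ℝ V] (p : V → ℝ)
    (hadd : ∀ x y, p (x + y) ≤ p x + p y) (hsmul : ∀ (c : ℝ) x, 0 ≤ c → p (c • x) = c * p x)
    (D : ℝ) : ∀ (n : ℕ) (g : V) (f : Fin n → V),
    (∀ s : Fin n → Bool, p (g + ∑ i, sg (s i) • f i) ≤ D) →
    ∀ t : Fin n → ℝ, (∀ i, |t i| ≤ 1) → p (g + ∑ i, t i • f i) ≤ D := by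
  intro n
  induction n with
  | zero => intro g f h t ht; simpa using h default
  | succ n ih =>
    intro g f h t ht
    have h1 : ∀ b : Bool, p ((g + sg b • f 0) + ∑ i : Fin n, t i.succ • f i.succ) ≤ D := by
      intro b
      refine ih (g + sg b • f 0) (fun i => f i.succ) ?_ (fun i => t i.succ) (fun i => ht i.succ)
      intro s
      have := h (Fin.cons b s)
      simpa [Fin.sum_univ_succ, add_assoc] using this
    have hT := h1 true
    have hF := h1 false
    have ht0 := abs_le.1 (ht 0)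
    have key : g + ∑ i, t i • f i =
        ((1 + t 0) / 2) • ((g + sg true • f 0) + ∑ i : Fin n, t i.succ • f i.succ) +
        ((1 - t 0) / 2) • ((g + sg false • f 0) + ∑ i : Fin n, t i.succ • f i.succ) := by
      rw [Fin.sum_univ_succ]
      simp only [sg_true, sg_false]
      module
    rw [key]
    refine (hadd _ _).trans ?_
    rw [hsmul _ _ (by linarith), hsmul _ _ (by linarith)]
    nlinarith [mul_le_mul_of_nonneg_left hT (by linarith : 0 ≤ (1 + t 0) / 2),
      mul_le_mul_of_nonneg_left hF (by linarith : 0 ≤ (1 - t 0) / 2)]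

end Pool.Agent.Lib.MP_bd1451_an
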