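import Pool.Agent.Lib.MP_bd1451_an.Defs
import Pool.Agent.Lib.MP_bd1451_an.Signs

/-!
# TARGET 6: symmetric bases in a `K`-Hilbertian subspace of `ℓ₁^N`
-/

set_option autoImplicit false
open scoped BigOperators

namespace Pool.Agent.Lib.MP_bd1451_an

/-- the `ℓ₁` norm -/
noncomputable def l1 {N : ℕ} (x : Fin N → ℝ) : ℝ := ∑ ω, |x ω|

lemma l1_nonneg {N : ℕ} (x : Fin N → ℝ) : 0 ≤ l1 x := Finset.sum_nonneg fun _ _ => abs_nonneg _

lemma l1_add {N : ℕ} (x y : Fin N → ℝ) : l1 (x + y) ≤ l1 x + l1 y := by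
  unfold l1
  rw [← Finset.sum_add_distrib]
  exact Finset.sum_le_sum fun ω _ => abs_add_le _ _

lemma l1_smul {N : ℕ} (c : ℝ) (x : Fin N → ℝ) : l1 (c • x) = |c| * l1 x := by
  unfold l1
  rw [Finset.mul_sum]
  exact Finset.sum_congr rfl fun ω _ => by simp [abs_mul]

lemma l1_sum {N : ℕ} {ι : Type*} (T : Finset ι) (x : ι → Fin N → ℝ) :
    l1 (∑ i ∈ T, x i) ≤ ∑ i ∈ T, l1 (x i) := by
  classical
  induction T using Finset.induction_on with
  | empty => simp [l1]
  | insert a s ha ih =>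
    rw [Finset.sum_insert ha, Finset.sum_insert ha]
    exact (l1_add _ _).trans (by linarith)

/-- the hypothesis on the basis -/
def SymH {N k : ℕ} (e : Fin k → Fin N → ℝ) : Prop :=
  ∀ (σ : Equiv.Perm (Fin k)) (ε : Fin k → ℝ), (∀ i, ε i = 1 ∨ ε i = -1) →
    ∀ a : Fin k → ℝ, ∑ ω, |∑ i, (ε i * a i) * e (σ i) ω| ≤ 2 * ∑ ω, |∑ i, a i * e i ω|

/-- master lemma: restrict to `ι₂`, move to `ι₁`, change signs -/
lemma emb {N k : ℕ} {e : Fin k → Fin N → ℝ} (he : SymH e) {α : Type*} [Fintype α]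
    (ι₁ ι₂ : α ↪ Fin k) (ε : α → ℝ) (hε : ∀ x, ε x = 1 ∨ ε x = -1) (c : Fin k → ℝ) :
    l1 (fun ω => ∑ x, (ε x * c (ι₂ x)) * e (ι₁ x) ω) ≤ 2 * l1 (fun ω => ∑ i, c i * e i ω) := by
  classical
  obtain ⟨σ, hσ⟩ := Equiv.Perm.exists_extending_pair ι₂ ι₁ ι₂.injective ι₁.injective
  have hσ' : ∀ x, σ (ι₂ x) = ι₁ x := hσ
  -- extend the signs
  let δ : ℝ → Fin k → ℝ := fun b i => if h : ∃ x, ι₂ x = i then ε h.choose else b
  have hδ1 : ∀ b x, δ b (ι₂ x) = ε x := by
    intro b x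
    have h : ∃ y, ι₂ y = ι₂ x := ⟨x, rfl⟩
    have h2 : h.choose = x := ι₂.injective h.choose_spec
    simp only [δ, dif_pos h, h2]
  have hδ2 : ∀ b i, (b = 1 ∨ b = -1) → δ b i = 1 ∨ δ b i = -1 := by
    intro b i hb
    by_cases h : ∃ x, ι₂ x = i
    · simp only [δ, dif_pos h]; exact hε _
    · simp only [δ, dif_neg h]; exact hb
  -- the sum over the range of ι₂
  have hsum : ∀ (F : Fin k → ℝ), ∑ i ∈ Finset.univ.map ι₂, F i = ∑ x, F (ι₂ x) := by
    intro F; rw [Finset.sum_map]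
  have key : ∀ ω, ∑ x, (ε x * c (ι₂ x)) * e (ι₁ x) ω =
      (1 / 2 : ℝ) * (∑ i, (δ 1 i * c i) * e (σ i) ω + ∑ i, (δ (-1) i * c i) * e (σ i) ω) := by
    intro ω
    rw [← Finset.sum_add_distrib]
    rw [← Finset.sum_add_sum_compl (Finset.univ.map ι₂)]
    have h0 : ∑ i ∈ (Finset.univ.map ι₂)ᶜ, ((δ 1 i * c i) * e (σ i) ω + (δ (-1) i * c i) * e (σ i) ω) = 0 := by
      apply Finset.sum_eq_zero
      intro i hi
      have h : ¬ ∃ x, ι₂ x = i := by simpa using hi
      simp only [δ, dif_neg h]; ring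
    rw [h0, hsum, add_zero, Finset.mul_sum]
    refine Finset.sum_congr rfl fun x _ => ?_
    rw [hδ1, hδ1, hσ']; ring
  have h1 := he σ (δ 1) (fun i => hδ2 1 i (Or.inl rfl)) c
  have h2 := he σ (δ (-1)) (fun i => hδ2 (-1) i (Or.inr rfl)) c
  unfold l1
  have h3 : ∑ ω, |∑ x, (ε x * c (ι₂ x)) * e (ι₁ x) ω| ≤
      ∑ ω, ((1 / 2 : ℝ) * (|∑ i, (δ 1 i * c i) * e (σ i) ω| + |∑ i, (δ (-1) i * c i) * e (σ i) ω|)) := by
    refine Finset.sum_le_sum fun ω _ => ?_
    rw [key ω, abs_mul, abs_of_pos (by norm_num : (0 : ℝ) < 1 / 2)]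
    exact mul_le_mul_of_nonneg_left (abs_add_le _ _) (by norm_num)
  rw [← Finset.mul_sum, Finset.sum_add_distrib] at h3
  linarith

/-- variant with coefficients on `α` -/
lemma emb' {N k : ℕ} {e : Fin k → Fin N → ℝ} (he : SymH e) {α : Type*} [Fintype α]
    (ι₁ ι₂ : α ↪ Fin k) (ε : α → ℝ) (hε : ∀ x, ε x = 1 ∨ ε x = -1) (a : α → ℝ) :
    l1 (fun ω => ∑ x, (ε x * a x) * e (ι₁ x) ω) ≤ 2 * l1 (fun ω => ∑ x, a x * e (ι₂ x) ω) := by
  classical
  let c : Fin k → ℝ := fun i => if h : ∃ x, ι₂ x = i then a h.choose else 0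
  have hc1 : ∀ x, c (ι₂ x) = a x := by
    intro x
    have h : ∃ y, ι₂ y = ι₂ x := ⟨x, rfl⟩
    have h2 : h.choose = x := ι₂.injective h.choose_spec
    simp only [c, dif_pos h, h2]
  have h1 := emb he ι₁ ι₂ ε hε c
  have h2 : ∀ ω, ∑ i, c i * e i ω = ∑ x, a x * e (ι₂ x) ω := by
    intro ω
    rw [← Finset.sum_add_sum_compl (Finset.univ.map ι₂), Finset.sum_map]
    have h0 : ∑ i ∈ (Finset.univ.map ι₂)ᶜ, c i * e i ω = 0 := by
      apply Finset.sum_eq_zero
      intro i hi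
      have h : ¬ ∃ x, ι₂ x = i := by simpa using hi
      simp only [c, dif_neg h]; ring
    rw [h0, add_zero]
    exact Finset.sum_congr rfl fun x _ => by rw [hc1]
  simp only [hc1, h2] at h1
  exact h1

/-- `φ(ι)` -/
noncomputable def ph {N k : ℕ} (e : Fin k → Fin N → ℝ) {α : Type*} [Fintype α] (ι : α ↪ Fin k) : ℝ :=
  l1 (fun ω => ∑ x, e (ι x) ω)

lemma ph_signs {N k : ℕ} {e : Fin k → Fin N → ℝ} (he : SymH e) {α : Type*} [Fintype α]
    (ι : α ↪ Fin k) (ε : α → ℝ) (hε : ∀ x, ε x = 1 ∨ ε x = -1) :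
    l1 (fun ω => ∑ x, ε x * e (ι x) ω) ≤ 2 * ph e ι := by
  have := emb' he ι ι ε hε (fun _ => 1)
  simpa [ph] using this

lemma ph_le_signs {N k : ℕ} {e : Fin k → Fin N → ℝ} (he : SymH e) {α : Type*} [Fintype α]
    (ι : α ↪ Fin k) (ε : α → ℝ) (hε : ∀ x, ε x = 1 ∨ ε x = -1) :
    ph e ι ≤ 2 * l1 (fun ω => ∑ x, ε x * e (ι x) ω) := by
  have := emb' he ι ι ε hε ε
  have h : ∀ x, ε x * ε x = 1 := fun x => by rcases hε x with h | h <;> rw [h] <;> norm_num
  simpa [ph, h] using this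

lemma ph_comp {N k : ℕ} {e : Fin k → Fin N → ℝ} (he : SymH e) {α : Type*} [Fintype α]
    (ι₁ ι₂ : α ↪ Fin k) : ph e ι₁ ≤ 2 * ph e ι₂ := by
  have := emb' he ι₁ ι₂ (fun _ => 1) (fun _ => Or.inl rfl) (fun _ => 1)
  simpa [ph] using this

lemma sum_sqrt_le {N : ℕ} (A : Fin N → ℝ) (hA : ∀ ω, 0 ≤ A ω) :
    (∑ ω, Real.sqrt (A ω)) ^ 2 ≤ N * ∑ ω, A ω := by
  have := sq_sum_le_card_mul_sum_sq (s := (Finset.univ : Finset (Fin N))) (f := fun ω => Real.sqrt (A ω))
  simpa [Real.sq_sqrt (hA _)] using this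

lemma EB_l1 {N : ℕ} (n : ℕ) (F : Fin n → Fin N → ℝ) :
    EB n (fun s => l1 (fun ω => ∑ x, sg (s x) * F x ω)) =
      ∑ ω, EB n (fun s => |∑ x, sg (s x) * F x ω|) := by
  unfold l1
  rw [EB_sum]

lemma l1_single_le {N k : ℕ} {e : Fin k → Fin N → ℝ} (he : SymH e) (i j : Fin k) :
    l1 (e i) ≤ 2 * l1 (e j) := by
  have h := ph_comp he (α := Unit) ⟨fun _ => i, fun _ _ _ => rfl⟩ ⟨fun _ => j, fun _ _ _ => rfl⟩
  simp only [ph, Finset.univ_unique, Finset.sum_singleton] at h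
  exact h

/-- upper bound of `φ` from the Hilbertian property -/
lemma ph_upper {N d k : ℕ} {B : Fin N → E d} {K : ℝ} (hK : 0 ≤ K) (hH : KHilb B K)
    {e : Fin k → Fin N → ℝ} (heX : ∀ i, comb B (e i) = 0) (he : SymH e) {M : ℕ}
    (ι : Fin M ↪ Fin k) (i₀ : Fin k) : ph e ι ≤ 4 * K * Real.sqrt M * l1 (e i₀) := by
  have h1 : ph e ι ≤ 2 * ∑ ω, Real.sqrt (∑ x, e (ι x) ω ^ 2) := by
    have h2 : ph e ι ≤ EB M (fun s => 2 * l1 (fun ω => ∑ x, sg (s x) * e (ι x) ω)) :=
      le_EB_of_le M fun s => ph_le_signs he ι (fun x => sg (s x)) (fun x => sg_or _)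
    rw [EB_mul, EB_l1 M (fun x => e (ι x))] at h2
    refine h2.trans (mul_le_mul_of_nonneg_left ?_ (by norm_num))
    exact Finset.sum_le_sum fun ω _ => EB_abs_le M (fun x => e (ι x) ω)
  have h3 : (∑ ω, Real.sqrt (∑ x, e (ι x) ω ^ 2)) ^ 2 ≤ M * (2 * K * l1 (e i₀)) ^ 2 := by
    refine (sum_sqrt_le _ (fun ω => Finset.sum_nonneg fun _ _ => sq_nonneg _)).trans ?_
    rw [Finset.sum_comm, Finset.mul_sum]
    have : ∀ x : Fin M, (N : ℝ) * ∑ ω, e (ι x) ω ^ 2 ≤ (2 * K * l1 (e i₀)) ^ 2 := by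
      intro x
      have h4 := hH (e (ι x)) (heX _)
      have h5 : Real.sqrt N * Real.sqrt (∑ ω, e (ι x) ω ^ 2) ≤ 2 * K * l1 (e i₀) := by
        refine h4.trans ?_
        have := l1_single_le he (ι x) i₀
        unfold l1 at this ⊢
        nlinarith
      have h6 : (Real.sqrt N * Real.sqrt (∑ ω, e (ι x) ω ^ 2)) ^ 2 = (N : ℝ) * ∑ ω, e (ι x) ω ^ 2 := by
        rw [mul_pow, Real.sq_sqrt (Nat.cast_nonneg _),
          Real.sq_sqrt (Finset.sum_nonneg fun _ _ => sq_nonneg _)]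
      rw [← h6]
      exact pow_le_pow_left₀ (by positivity) h5 2
    calc ∑ x : Fin M, (N : ℝ) * ∑ ω, e (ι x) ω ^ 2 ≤ ∑ _x : Fin M, (2 * K * l1 (e i₀)) ^ 2 :=
          Finset.sum_le_sum fun x _ => this x
      _ = M * (2 * K * l1 (e i₀)) ^ 2 := by simp
  have h7 : ∑ ω, Real.sqrt (∑ x, e (ι x) ω ^ 2) ≤ Real.sqrt M * (2 * K * l1 (e i₀)) := by
    refine abs_le_of_sq_le_sq' ?_ ?_ |>.2
    · rw [mul_pow, Real.sq_sqrt (Nat.cast_nonneg _)]; exact h3
    · have := l1_nonneg (e i₀); positivity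
  nlinarith

/-- scale selection -/
lemma scale {K : ℝ} (r J : ℕ) (hJ : 4 * K < 2 ^ J) (φ : ℕ → ℝ)
    (h0 : 0 < φ 0) (hφJ : φ J ≤ 4 * K * Real.sqrt ((r : ℝ) ^ J) * φ 0) (hr : 1 ≤ r) :
    ∃ j < J, φ (j + 1) ≤ 2 * Real.sqrt r * φ j := by
  by_contra hcon
  push Not at hcon
  have hr' : (0 : ℝ) < Real.sqrt r := Real.sqrt_pos.2 (by exact_mod_cast hr)
  have h1 : ∀ j ≤ J, (2 * Real.sqrt r) ^ j * φ 0 ≤ φ j := by
    intro j
    induction j with
    | zero => intro _; simp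
    | succ j ih =>
      intro hj
      have h2 := ih (by omega)
      have h3 := hcon j (by omega)
      rw [pow_succ]
      nlinarith
  have h2 := h1 J le_rfl
  have h3 : (2 * Real.sqrt r) ^ J = 2 ^ J * Real.sqrt ((r : ℝ) ^ J) := by
    rw [mul_pow]
    congr 1
    rw [eq_comm, Real.sqrt_eq_iff_mul_self_eq (by positivity) (by positivity), ← mul_pow,
      Real.mul_self_sqrt (Nat.cast_nonneg _)]
  have h4 : 0 < Real.sqrt ((r : ℝ) ^ J) := Real.sqrt_pos.2 (by positivity)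
  rw [h3] at h2
  have h5 : 4 * K * Real.sqrt ((r : ℝ) ^ J) * φ 0 < 2 ^ J * Real.sqrt ((r : ℝ) ^ J) * φ 0 := by
    apply mul_lt_mul_of_pos_right _ h0
    exact mul_lt_mul_of_pos_right hJ h4
  linarith

lemma comb_add {N d : ℕ} (B : Fin N → E d) (x y : Fin N → ℝ) :
    comb B (x + y) = comb B x + comb B y := by
  unfold comb
  rw [← Finset.sum_add_distrib]
  exact Finset.sum_congr rfl fun ω _ => by rw [Pi.add_apply, add_smul]

lemma comb_smul {N d : ℕ} (B : Fin N → E d) (c : ℝ) (x : Fin N → ℝ) :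
    comb B (c • x) = c • comb B x := by
  unfold comb
  rw [Finset.smul_sum]
  exact Finset.sum_congr rfl fun ω _ => by rw [Pi.smul_apply, smul_eq_mul, mul_smul]

lemma comb_zero {N d : ℕ} (B : Fin N → E d) : comb B 0 = 0 := by
  unfold comb; simp

lemma comb_sum_zero {N d : ℕ} (B : Fin N → E d) {ι : Type*} (T : Finset ι) (x : ι → Fin N → ℝ)
    (h : ∀ i ∈ T, comb B (x i) = 0) : comb B (∑ i ∈ T, x i) = 0 := by
  classical
  induction T using Finset.induction_on with
  | empty => simpa using comb_zero B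
  | insert a s ha ih =>
    rw [Finset.sum_insert ha, comb_add, h a (Finset.mem_insert_self _ _),
      ih (fun i hi => h i (Finset.mem_insert_of_mem hi)), add_zero]

/-- linear functional on `X` -/
def LinX {N d : ℕ} (B : Fin N → E d) (c : (Fin N → ℝ) → ℝ) : Prop :=
  (∀ x y, comb B x = 0 → comb B y = 0 → c (x + y) = c x + c y) ∧
  (∀ (s : ℝ) x, comb B x = 0 → c (s • x) = s * c x)

lemma LinX.map_zero {N d : ℕ} {B : Fin N → E d} {c : (Fin N → ℝ) → ℝ} (h : LinX B c) : c 0 = 0 := by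
  have := h.2 0 0 (comb_zero B)
  simpa using this

lemma LinX.map_sum {N d : ℕ} {B : Fin N → E d} {c : (Fin N → ℝ) → ℝ} (h : LinX B c)
    {ι : Type*} (T : Finset ι) (x : ι → Fin N → ℝ) (hx : ∀ i ∈ T, comb B (x i) = 0) :
    c (∑ i ∈ T, x i) = ∑ i ∈ T, c (x i) := by
  classical
  induction T using Finset.induction_on with
  | empty => simpa using h.map_zero
  | insert a s ha ih =>
    rw [Finset.sum_insert ha, Finset.sum_insert ha, h.1 _ _ (hx a (Finset.mem_insert_self _ _))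
      (comb_sum_zero B s x fun i hi => hx i (Finset.mem_insert_of_mem hi)),
      ih (fun i hi => hx i (Finset.mem_insert_of_mem hi))]

/-- Minkowski's inequality `|(‖y_j‖₁)_j|₂ ≤ ‖ |y|₂ ‖₁` -/
lemma minkowski {N r : ℕ} (y : Fin r → Fin N → ℝ) :
    Real.sqrt (∑ j, (l1 (y j)) ^ 2) ≤ ∑ ω, Real.sqrt (∑ j, y j ω ^ 2) := by
  let v : Fin N → EuclideanSpace ℝ (Fin r) := fun ω => WithLp.toLp 2 (fun j => |y j ω|)
  have h1 : ‖∑ ω, v ω‖ ≤ ∑ ω, ‖v ω‖ := norm_sum_le _ _
  have h2 : ∀ ω, ‖v ω‖ = Real.sqrt (∑ j, y j ω ^ 2) := by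
    intro ω
    rw [EuclideanSpace.norm_eq]
    congr 1
    refine Finset.sum_congr rfl fun j _ => ?_
    simp [v]
  have h3 : ‖∑ ω, v ω‖ = Real.sqrt (∑ j, (l1 (y j)) ^ 2) := by
    rw [EuclideanSpace.norm_eq]
    congr 1
    refine Finset.sum_congr rfl fun j _ => ?_
    have : (∑ ω, v ω) j = l1 (y j) := by
      rw [WithLp.ofLp_sum, Finset.sum_apply]
      rfl
    rw [this, Real.norm_eq_abs, sq_abs]
  rw [← h3]
  refine h1.trans (le_of_eq ?_)
  exact Finset.sum_congr rfl fun ω _ => h2 ω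

/-- the block construction -/
theorem blocks {N d k : ℕ} (hN : 0 < N) {B : Fin N → E d} {C K : ℝ} (hC : 1 ≤ C) (hK : 1 ≤ K)
    (hH : KHilb B K) {e : Fin k → Fin N → ℝ} (heX : ∀ i, comb B (e i) = 0) (he : SymH e)
    {r ℓ : ℕ} (hr : 1 ≤ r) (hℓ : 0 < ℓ) (ι : Fin r × Fin ℓ ↪ Fin k) (ι₀ : Fin ℓ ↪ Fin k)
    (hφ : 0 < ph e ι₀) (hsc : ph e ι ≤ 2 * Real.sqrt r * ph e ι₀)
    (c : Fin k → ((Fin N → ℝ) → ℝ)) (hc : ∀ i, LinX B (c i))
    (hce : ∀ i j, c i (e j) = if i = j then 1 else 0)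
    (hcP : ∀ x, comb B x = 0 → l1 (fun ω => ∑ i, c i x * e i ω) ≤ C * l1 x) :
    ∃ (f : Fin r → Fin N → ℝ) (Φ : Fin r → ((Fin N → ℝ) → ℝ)),
          (∀ j, comb B (f j) = 0) ∧
          (∑ ω, Real.sqrt (∑ j, f j ω ^ 2) ≤ 8 * Real.sqrt r) ∧
          OpBd (fun ω j => f j ω / Real.sqrt r) (36 * K ^ 2 / (N * Real.sqrt r)) ∧
          (∀ j x y, comb B x = 0 → comb B y = 0 → Φ j (x + y) = Φ j x + Φ j y) ∧
          (∀ j (s : ℝ) x, comb B x = 0 → Φ j (s • x) = s * Φ j x) ∧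
          (∀ i j, Φ i (f j) = if i = j then 1 else 0) ∧
          (∀ x, comb B x = 0 → Real.sqrt (∑ j, Φ j x ^ 2) ≤ 16 * C * ∑ ω, |x ω|) := by
  classical
  set φ := ph e ι₀ with hφdef
  have hrpos : (0 : ℝ) < r := by exact_mod_cast hr
  have hsr : 0 < Real.sqrt r := Real.sqrt_pos.2 hrpos
  have hℓ' : (0 : ℝ) < ℓ := by exact_mod_cast hℓ
  let f : Fin r → Fin N → ℝ := fun j => (1 / φ) • ∑ u : Fin ℓ, e (ι (j, u))
  have hfX : ∀ j, comb B (f j) = 0 := by
    intro j
    simp only [f]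
    rw [comb_smul, comb_sum_zero B _ _ (fun u _ => heX _), smul_zero]
  -- linear combinations of the blocks
  have hblk : ∀ b : Fin r → ℝ, (fun ω => ∑ j, b j * f j ω) =
      fun ω => ∑ x : Fin r × Fin ℓ, (b x.1 / φ) * e (ι x) ω := by
    intro b
    funext ω
    rw [Fintype.sum_prod_type]
    refine Finset.sum_congr rfl fun j _ => ?_
    simp only [f, Pi.smul_apply, Finset.sum_apply, smul_eq_mul]
    rw [Finset.mul_sum, Finset.mul_sum]
    refine Finset.sum_congr rfl fun u _ => ?_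
    ring
  -- sign changes on the blocks
  have hsign : ∀ (b : Fin r → ℝ) (s : Fin r → Bool),
      l1 (fun ω => ∑ j, sg (s j) * (b j * f j ω)) ≤ 2 * l1 (fun ω => ∑ j, b j * f j ω) := by
    intro b s
    have h1 := emb' he ι ι (fun x => sg (s x.1)) (fun x => sg_or _) (fun x => b x.1 / φ)
    rw [hblk b]
    refine le_trans (le_of_eq ?_) h1
    have h2 := hblk (fun j => sg (s j) * b j)
    congr 1
    funext ω
    have h3 := congrFun h2 ω
    calc ∑ j, sg (s j) * (b j * f j ω) = ∑ j, sg (s j) * b j * f j ω :=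
          Finset.sum_congr rfl fun j _ => by ring
      _ = _ := h3
      _ = _ := Finset.sum_congr rfl fun x _ => by ring
  have hflat : ∀ s : Fin r → Bool, l1 (fun ω => ∑ j, sg (s j) * f j ω) ≤ 4 * Real.sqrt r := by
    intro s
    have h1 := hsign (fun _ => 1) s
    simp only [one_mul] at h1
    refine h1.trans ?_
    have h2 := hblk (fun _ => 1)
    simp only [one_mul] at h2
    rw [h2]
    have h3 : l1 (fun ω => ∑ x : Fin r × Fin ℓ, (1 / φ) * e (ι x) ω) = (1 / φ) * ph e ι := by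
      have : (fun ω => ∑ x : Fin r × Fin ℓ, (1 / φ) * e (ι x) ω) =
          (1 / φ) • (fun ω => ∑ x : Fin r × Fin ℓ, e (ι x) ω) := by
        funext ω
        simp [Finset.mul_sum]
      rw [this, l1_smul, abs_of_pos (by positivity)]
      rfl
    rw [h3]
    have h4 : (1 / φ) * ph e ι ≤ (1 / φ) * (2 * Real.sqrt r * φ) :=
      mul_le_mul_of_nonneg_left hsc (by positivity)
    have h5 : (1 / φ) * (2 * Real.sqrt r * φ) = 2 * Real.sqrt r := by field_simp
    linarith
  -- norms of the blocks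
  have hfn : ∀ j, 1 / 2 ≤ l1 (f j) ∧ l1 (f j) ≤ 2 := by
    intro j
    let ιj : Fin ℓ ↪ Fin k := ⟨fun u => ι (j, u), fun u v h => by
      have := ι.injective h
      simpa using this⟩
    have h1 := ph_comp he ιj ι₀
    have h2 := ph_comp he ι₀ ιj
    have h3 : l1 (f j) = (1 / φ) * ph e ιj := by
      simp only [f]
      rw [l1_smul, abs_of_pos (by positivity)]
      congr 2
      funext ω
      rw [Finset.sum_apply]
      rfl
    rw [h3]
    rw [← hφdef] at h1 h2
    constructor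
    · rw [div_le_iff₀ (by norm_num : (0:ℝ) < 2)]
      have : (1 / φ) * ph e ιj * 2 ≥ (1 / φ) * φ := by
        have := mul_le_mul_of_nonneg_left h2 (by positivity : 0 ≤ 1 / φ)
        linarith
      have h5 : (1 / φ) * φ = 1 := by field_simp
      linarith
    · have := mul_le_mul_of_nonneg_left h1 (by positivity : 0 ≤ 1 / φ)
      have h5 : (1 / φ) * (2 * φ) = 2 := by field_simp
      linarith
  -- lower 2-estimate
  have hlow : ∀ b : Fin r → ℝ, Real.sqrt (∑ j, b j ^ 2) ≤ 8 * l1 (fun ω => ∑ j, b j * f j ω) := by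
    intro b
    have h1 : ∑ ω, Real.sqrt (∑ j, (b j * f j ω) ^ 2) ≤ 4 * l1 (fun ω => ∑ j, b j * f j ω) := by
      have h2 : ∑ ω, Real.sqrt (∑ j, (b j * f j ω) ^ 2) ≤
          ∑ ω, 2 * EB r (fun s => |∑ j, sg (s j) * (b j * f j ω)|) :=
        Finset.sum_le_sum fun ω _ => khintchine r (fun j => b j * f j ω)
      rw [← Finset.mul_sum, ← EB_l1 r (fun j ω => b j * f j ω)] at h2
      have h3 : EB r (fun s => l1 (fun ω => ∑ j, sg (s j) * (b j * f j ω))) ≤
          2 * l1 (fun ω => ∑ j, b j * f j ω) := EB_le_of_le r fun s => hsign b s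
      linarith
    have h4 := minkowski (fun j ω => b j * f j ω)
    have h5 : Real.sqrt (∑ j, b j ^ 2) / 2 ≤ Real.sqrt (∑ j, (l1 (fun ω => b j * f j ω)) ^ 2) := by
      have h6 : Real.sqrt (∑ j, b j ^ 2) / 2 = Real.sqrt (∑ j, (b j / 2) ^ 2) := by
        have : ∑ j, (b j / 2) ^ 2 = (∑ j, b j ^ 2) * (1 / 2) ^ 2 := by
          rw [Finset.sum_mul]; exact Finset.sum_congr rfl fun j _ => by ring
        rw [this, Real.sqrt_mul (Finset.sum_nonneg fun _ _ => sq_nonneg _),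
          Real.sqrt_sq (by norm_num)]
        ring
      rw [h6]
      apply Real.sqrt_le_sqrt
      refine Finset.sum_le_sum fun j _ => ?_
      have h7 : l1 (fun ω => b j * f j ω) = |b j| * l1 (f j) := by
        rw [← l1_smul]; rfl
      rw [h7, ← sq_abs (b j / 2), abs_div, abs_of_pos (by norm_num : (0:ℝ) < 2)]
      apply pow_le_pow_left₀ (by positivity)
      have := (hfn j).1
      have h8 := abs_nonneg (b j)
      nlinarith
    linarith
  -- (b)
  have hb : ∑ ω, Real.sqrt (∑ j, f j ω ^ 2) ≤ 8 * Real.sqrt r := by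
    have h2 : ∑ ω, Real.sqrt (∑ j, f j ω ^ 2) ≤
        ∑ ω, 2 * EB r (fun s => |∑ j, sg (s j) * f j ω|) :=
      Finset.sum_le_sum fun ω _ => khintchine r (fun j => f j ω)
    rw [← Finset.mul_sum, ← EB_l1 r (fun j ω => f j ω)] at h2
    have h3 : EB r (fun s => l1 (fun ω => ∑ j, sg (s j) * f j ω)) ≤ 4 * Real.sqrt r :=
      EB_le_of_le r hflat
    linarith
  -- (c) upper estimate
  have hup : ∀ h : Fin r → ℝ, l1 (fun ω => ∑ j, h j * f j ω) ≤
      6 * Real.sqrt (Real.sqrt r) * Real.sqrt (∑ j, h j ^ 2) := by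
    intro h
    set H := Real.sqrt (∑ j, h j ^ 2) with hH'
    set ρ := Real.sqrt (Real.sqrt r) with hρ
    have hρ0 : 0 < ρ := Real.sqrt_pos.2 hsr
    have hρ2 : ρ * ρ = Real.sqrt r := Real.mul_self_sqrt hsr.le
    have hS0 : 0 ≤ ∑ j, h j ^ 2 := Finset.sum_nonneg fun _ _ => sq_nonneg _
    have hHH : H * H = ∑ j, h j ^ 2 := Real.mul_self_sqrt hS0
    rcases (Real.sqrt_nonneg (∑ j, h j ^ 2)).eq_or_lt with h0 | h0
    · have hz : ∀ j, h j = 0 := by
        intro j
        have h1 : ∑ j, h j ^ 2 = 0 := by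
          have := (Real.sqrt_eq_zero hS0).1 h0.symm
          exact this
        have := (Finset.sum_eq_zero_iff_of_nonneg (fun i _ => sq_nonneg (h i))).1 h1 j (Finset.mem_univ j)
        exact pow_eq_zero_iff two_ne_zero |>.1 this
      have h2 : (fun ω : Fin N => ∑ j, h j * f j ω) = 0 := by
        funext ω; simp [hz]
      rw [h2]
      have : l1 (0 : Fin N → ℝ) = 0 := by simp [l1]
      rw [this]; positivity
    · rw [← hH'] at h0
      set η := H / ρ with hη
      have hη0 : 0 < η := by positivity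
      -- splitting
      let t : Fin r → ℝ := fun j => if |h j| ≤ η then h j / η else 0
      have ht : ∀ j, |t j| ≤ 1 := by
        intro j
        simp only [t]
        split_ifs with hj
        · rw [abs_div, abs_of_pos hη0, div_le_one hη0]; exact hj
        · simp
      have hsplit : (fun ω => ∑ j, h j * f j ω) =
          η • (0 + ∑ j, t j • f j) + ∑ j ∈ Finset.univ.filter (fun j => ¬ |h j| ≤ η), h j • f j := by
        funext ω
        simp only [zero_add, Pi.add_apply, Pi.smul_apply, Finset.sum_apply, smul_eq_mul]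
        rw [← Finset.sum_filter_add_sum_filter_not Finset.univ (fun j => |h j| ≤ η) (fun j => h j * f j ω)]
        congr 1
        rw [Finset.mul_sum, Finset.sum_filter]
        refine Finset.sum_congr rfl fun j _ => ?_
        simp only [t]
        split_ifs
        · field_simp
        · ring
      rw [hsplit]
      refine (l1_add _ _).trans ?_
      have h1 : l1 (η • (0 + ∑ j, t j • f j)) ≤ η * (4 * Real.sqrt r) := by
        rw [l1_smul, abs_of_pos hη0]
        apply mul_le_mul_of_nonneg_left _ hη0.le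
        refine cube_bound (fun x : Fin N → ℝ => l1 x) l1_add
          (fun c x hc => by show l1 (c • x) = c * l1 x; rw [l1_smul, abs_of_nonneg hc]) _ r 0 f ?_ t ht
        intro s
        have h2 := hflat s
        refine le_trans (le_of_eq ?_) h2
        simp only [zero_add]
        congr 1
        funext ω
        simp
      have h2 : l1 (∑ j ∈ Finset.univ.filter (fun j => ¬ |h j| ≤ η), h j • f j) ≤ 2 * (H * H / η) := by
        refine (l1_sum _ _).trans ?_
        have h3 : ∀ j ∈ Finset.univ.filter (fun j => ¬ |h j| ≤ η), l1 (h j • f j) ≤ 2 * (h j ^ 2 / η) := by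
          intro j hj
          have hj' : η < |h j| := by simpa using hj
          rw [l1_smul]
          have h4 : |h j| ≤ h j ^ 2 / η := by
            rw [le_div_iff₀ hη0, ← sq_abs (h j)]
            nlinarith [abs_nonneg (h j)]
          have h5 := (hfn j).2
          have h6 := l1_nonneg (f j)
          nlinarith [abs_nonneg (h j)]
        refine (Finset.sum_le_sum h3).trans ?_
        rw [← Finset.mul_sum, ← Finset.sum_div, hHH]
        apply mul_le_mul_of_nonneg_left _ (by norm_num)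
        apply div_le_div_of_nonneg_right _ hη0.le
        exact Finset.sum_le_sum_of_subset_of_nonneg (Finset.filter_subset _ _)
          (fun j _ _ => sq_nonneg _)
      have h3 : η * (4 * Real.sqrt r) = 4 * ρ * H := by
        rw [hη, ← hρ2]; field_simp
      have h4 : H * H / η = ρ * H := by
        rw [hη]; field_simp
      rw [h3] at h1
      rw [h4] at h2
      linarith
  have hOp : OpBd (fun ω j => f j ω / Real.sqrt r) (36 * K ^ 2 / (N * Real.sqrt r)) := by
    intro h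
    have hx : comb B (fun ω => ∑ j, h j * f j ω) = 0 := by
      have : (fun ω => ∑ j, h j * f j ω) = ∑ j, h j • f j := by
        funext ω; simp
      rw [this]
      exact comb_sum_zero B _ _ fun j _ => by rw [comb_smul, hfX, smul_zero]
    have h1 := hH _ hx
    have h2 := hup h
    have hN' : (0 : ℝ) < N := by exact_mod_cast hN
    set x : Fin N → ℝ := fun ω => ∑ j, h j * f j ω with hxdef
    have hS0 : 0 ≤ ∑ j, h j ^ 2 := Finset.sum_nonneg fun _ _ => sq_nonneg _
    have h3 : Real.sqrt N * Real.sqrt (∑ ω, x ω ^ 2) ≤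
        K * (6 * Real.sqrt (Real.sqrt r) * Real.sqrt (∑ j, h j ^ 2)) := by
      refine h1.trans (mul_le_mul_of_nonneg_left h2 (by linarith))
    have h4 : (N : ℝ) * ∑ ω, x ω ^ 2 ≤ K ^ 2 * (36 * Real.sqrt r * ∑ j, h j ^ 2) := by
      have h5 := pow_le_pow_left₀ (by positivity) h3 2
      rw [mul_pow, Real.sq_sqrt (Nat.cast_nonneg _),
        Real.sq_sqrt (Finset.sum_nonneg fun _ _ => sq_nonneg _)] at h5
      refine h5.trans (le_of_eq ?_)
      have h6 : Real.sqrt (Real.sqrt r) ^ 2 = Real.sqrt r := Real.sq_sqrt hsr.le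
      have h7 : Real.sqrt (∑ j, h j ^ 2) ^ 2 = ∑ j, h j ^ 2 := Real.sq_sqrt hS0
      calc (K * (6 * Real.sqrt (Real.sqrt r) * Real.sqrt (∑ j, h j ^ 2))) ^ 2 =
          K ^ 2 * (36 * Real.sqrt (Real.sqrt r) ^ 2 * Real.sqrt (∑ j, h j ^ 2) ^ 2) := by ring
        _ = _ := by rw [h6, h7]
    have h8 : ∑ ω, (∑ j, f j ω / Real.sqrt r * h j) ^ 2 = (∑ ω, x ω ^ 2) / r := by
      rw [Finset.sum_div]
      refine Finset.sum_congr rfl fun ω _ => ?_
      have : ∑ j, f j ω / Real.sqrt r * h j = x ω / Real.sqrt r := by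
        rw [hxdef, Finset.sum_div]
        exact Finset.sum_congr rfl fun j _ => by ring
      rw [this, div_pow, Real.sq_sqrt hrpos.le]
    simp only
    rw [h8, div_le_iff₀ hrpos]
    have h9 : 36 * K ^ 2 / (N * Real.sqrt r) * (∑ j, h j ^ 2) * r =
        K ^ 2 * (36 * Real.sqrt r * ∑ j, h j ^ 2) / N := by
      have h11 : (r : ℝ) / Real.sqrt r = Real.sqrt r := Real.div_sqrt
      calc 36 * K ^ 2 / (N * Real.sqrt r) * (∑ j, h j ^ 2) * r =
          K ^ 2 * (36 * (r / Real.sqrt r) * ∑ j, h j ^ 2) / N := by field_simp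
        _ = _ := by rw [h11]
    rw [h9, le_div_iff₀ hN']
    linarith
  -- the functionals
  let Φ : Fin r → ((Fin N → ℝ) → ℝ) := fun j x => (φ / ℓ) * ∑ u : Fin ℓ, c (ι (j, u)) x
  refine ⟨f, Φ, hfX, hb, hOp, ?_, ?_, ?_, ?_⟩
  · intro j x y hx hy
    simp only [Φ]
    rw [← mul_add, ← Finset.sum_add_distrib]
    congr 1
    exact Finset.sum_congr rfl fun u _ => (hc _).1 x y hx hy
  · intro j s x hx
    simp only [Φ]
    have : ∑ u : Fin ℓ, c (ι (j, u)) (s • x) = s * ∑ u : Fin ℓ, c (ι (j, u)) x := by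
      rw [Finset.mul_sum]
      exact Finset.sum_congr rfl fun u _ => (hc _).2 s x hx
    rw [this]; ring
  · intro i j
    simp only [Φ]
    have h1 : ∀ u : Fin ℓ, c (ι (i, u)) (f j) = if i = j then 1 / φ else 0 := by
      intro u
      simp only [f]
      rw [(hc _).2 _ _ (comb_sum_zero B _ _ fun v _ => heX _),
        (hc _).map_sum _ _ (fun v _ => heX _)]
      have h2 : ∀ v : Fin ℓ, c (ι (i, u)) (e (ι (j, v))) = if i = j then (if u = v then 1 else 0) else 0 := by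
        intro v
        rw [hce]
        have : (ι (i, u) = ι (j, v)) ↔ (i = j ∧ u = v) := by
          rw [ι.injective.eq_iff, Prod.mk.injEq]
        by_cases hij : i = j <;> by_cases huv : u = v <;> simp [this, hij, huv]
      simp_rw [h2]
      by_cases hij : i = j <;> simp [hij]
    simp_rw [h1]
    by_cases hij : i = j
    · simp only [hij, if_true, Finset.sum_const, Finset.card_univ, Fintype.card_fin, nsmul_eq_mul]
      field_simp
    · simp [hij]
  · intro x hx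
    -- average over the rotations
    have : NeZero ℓ := ⟨hℓ.ne'⟩
    have h1 : l1 (fun ω => ∑ j, Φ j x * f j ω) ≤ 2 * (C * l1 x) := by
      have hrot : ∀ s : Fin ℓ, l1 (fun ω => ∑ y : Fin r × Fin ℓ, (c (ι y) x) * e (ι (y.1, y.2 + s)) ω) ≤
          2 * (C * l1 x) := by
        intro s
        let ρ : Fin r × Fin ℓ ↪ Fin k := ⟨fun y => ι (y.1, y.2 + s), fun y z h => by
          have h2 := ι.injective h
          rw [Prod.mk.injEq] at h2
          exact Prod.ext h2.1 (add_right_cancel h2.2)⟩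
        have h2 := emb he ρ ι (fun _ => 1) (fun _ => Or.inl rfl) (fun i => c i x)
        simp only [one_mul] at h2
        exact h2.trans (mul_le_mul_of_nonneg_left (hcP x hx) (by norm_num))
      have h3 : (fun ω => ∑ j, Φ j x * f j ω) =
          (1 / (ℓ : ℝ)) • ∑ s : Fin ℓ, (fun ω => ∑ y : Fin r × Fin ℓ, (c (ι y) x) * e (ι (y.1, y.2 + s)) ω) := by
        funext ω
        simp only [Φ, f, Pi.smul_apply, Finset.sum_apply, smul_eq_mul]
        simp_rw [Fintype.sum_prod_type]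
        rw [Finset.sum_comm, Finset.mul_sum]
        refine Finset.sum_congr rfl fun j _ => ?_
        rw [Finset.sum_comm]
        have h4 : ∀ u : Fin ℓ, ∑ s : Fin ℓ, c (ι (j, u)) x * e (ι (j, u + s)) ω =
            c (ι (j, u)) x * ∑ v : Fin ℓ, e (ι (j, v)) ω := by
          intro u
          rw [← Finset.mul_sum]
          congr 1
          exact Equiv.sum_comp (Equiv.addLeft u) (fun v => e (ι (j, v)) ω)
        simp_rw [h4]
        rw [← Finset.sum_mul]
        field_simp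
      rw [h3, l1_smul, abs_of_pos (by positivity)]
      have h5 := l1_sum Finset.univ (fun s : Fin ℓ => (fun ω => ∑ y : Fin r × Fin ℓ, (c (ι y) x) * e (ι (y.1, y.2 + s)) ω))
      have h6 : ∑ s : Fin ℓ, l1 (fun ω => ∑ y : Fin r × Fin ℓ, (c (ι y) x) * e (ι (y.1, y.2 + s)) ω) ≤
          ℓ * (2 * (C * l1 x)) := by
        refine (Finset.sum_le_sum fun s _ => hrot s).trans (le_of_eq ?_)
        simp
      have h7 := mul_le_mul_of_nonneg_left (h5.trans h6) (by positivity : 0 ≤ 1 / (ℓ : ℝ))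
      refine h7.trans (le_of_eq ?_)
      field_simp
    have h2 := hlow (fun j => Φ j x)
    have h3 : l1 x = ∑ ω, |x ω| := rfl
    rw [← h3]
    linarith

/-- TARGET 6 -/
theorem symm : Symm := by
  intro C K hC hK r hr
  obtain ⟨J, hJ⟩ := pow_unbounded_of_one_lt (4 * K) (by norm_num : (1 : ℝ) < 2)
  refine ⟨r ^ J, ?_⟩
  intro N d B hN hH k hk e heX hli he c hc1 hc2 hce hcP
  have he' : SymH e := he
  have hpow : ∀ j ≤ J, r ^ j ≤ k := fun j hj => (Nat.pow_le_pow_right hr hj).trans hk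
  have hk0 : 0 < k := lt_of_lt_of_le (pow_pos (by omega) J) hk
  let i₀ : Fin k := ⟨0, hk0⟩
  -- the scale function
  let φ : ℕ → ℝ := fun j => if h : r ^ j ≤ k then ph e (Fin.castLEEmb h) else 0
  have hφj : ∀ j (h : r ^ j ≤ k), φ j = ph e (Fin.castLEEmb h) := fun j h => by simp only [φ, dif_pos h]
  have hpos : 0 < l1 (e i₀) := by
    rcases (l1_nonneg (e i₀)).eq_or_lt with h | h
    · exfalso
      have h0 : e i₀ = 0 := by
        funext ω
        have := (Finset.sum_eq_zero_iff_of_nonneg (fun ω _ => abs_nonneg (e i₀ ω))).1 h.symm ω (Finset.mem_univ ω)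
        exact abs_eq_zero.1 this
      exact hli.ne_zero i₀ h0
    · exact h
  have hφ0 : φ 0 = l1 (e i₀) := by
    rw [hφj 0 (hpow 0 (Nat.zero_le _))]
    have h2 : ∀ (n : ℕ) (hn1 : n = 1) (hn : n ≤ k), ph e (Fin.castLEEmb hn) = l1 (e i₀) := by
      intro n hn1 hn
      subst hn1
      unfold ph
      congr 1
      funext ω
      rw [Fin.sum_univ_one]
      rfl
    exact h2 _ (pow_zero r) _
  obtain ⟨j, hjJ, hj⟩ := scale (K := K) r J (by exact_mod_cast hJ) φ (by rw [hφ0]; exact hpos)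
    (by
      rw [hφ0, hφj J (hpow J le_rfl)]
      have := ph_upper (by linarith) hH heX he' (Fin.castLEEmb (hpow J le_rfl)) i₀
      simpa using this) hr
  have hjk : r ^ j ≤ k := hpow j hjJ.le
  have hj1k : r ^ (j + 1) ≤ k := hpow (j + 1) hjJ
  have hj1k' : r * r ^ j ≤ k := by rw [← pow_succ']; exact hj1k
  let ι₀ : Fin (r ^ j) ↪ Fin k := Fin.castLEEmb hjk
  let ι : Fin r × Fin (r ^ j) ↪ Fin k := finProdFinEquiv.toEmbedding.trans (Fin.castLEEmb hj1k')
  have hph0 : ph e ι₀ = φ j := (hφj j hjk).symm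
  have hph1 : ph e ι = φ (j + 1) := by
    rw [hφj (j + 1) hj1k]
    have h1 : ph e ι = ph e (Fin.castLEEmb hj1k') := by
      unfold ph
      congr 1
      funext ω
      exact Equiv.sum_comp finProdFinEquiv (fun x => e (Fin.castLEEmb hj1k' x) ω)
    rw [h1]
    have h2 : ∀ (n m : ℕ) (hnm : n = m) (hn : n ≤ k) (hm : m ≤ k),
        ph e (Fin.castLEEmb hn) = ph e (Fin.castLEEmb hm) := by
      intro n m hnm hn hm
      subst hnm
      rfl
    exact h2 _ _ (pow_succ' r j).symm hj1k' hj1k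
  have hφpos : 0 < ph e ι₀ := by
    -- otherwise a single vector would vanish: compare with signs
    have h1 : l1 (e i₀) ≤ 2 * ph e ι₀ := by
      have hrj : 0 < r ^ j := pow_pos (by omega) j
      let x₀ : Fin (r ^ j) := ⟨0, hrj⟩
      -- use `emb` with `α = Unit`
      have h2 := emb he' (α := Unit) ⟨fun _ => i₀, fun _ _ _ => rfl⟩ ⟨fun _ => ι₀ x₀, fun _ _ _ => rfl⟩
        (fun _ => 1) (fun _ => Or.inl rfl) (fun i => if i ∈ Finset.univ.map ι₀ then 1 else 0)
      have h3 : (fun ω => ∑ i, (if i ∈ Finset.univ.map ι₀ then (1 : ℝ) else 0) * e i ω) =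
          fun ω => ∑ x, e (ι₀ x) ω := by
        funext ω
        simp only [ite_mul, one_mul, zero_mul]
        rw [Finset.sum_ite_mem, Finset.univ_inter, Finset.sum_map]
      rw [h3] at h2
      simp only [Finset.univ_unique, Finset.sum_singleton] at h2
      refine le_trans (le_of_eq ?_) h2
      congr 1
      funext ω
      have h4 : ι₀ x₀ ∈ Finset.univ.map ι₀ := Finset.mem_map_of_mem _ (Finset.mem_univ _)
      have h5 : e i₀ ω = (1 * if ι₀ x₀ ∈ Finset.univ.map ι₀ then 1 else 0) * e i₀ ω := by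
        rw [if_pos h4]; ring
      exact h5
    linarith
  exact blocks hN hC hK hH heX he' hr (pow_pos (by omega) j) ι ι₀ hφpos
    (by rw [hph0, hph1]; exact hj) c (fun i => ⟨hc1 i, hc2 i⟩) hce hcP

end Pool.Agent.Lib.MP_bd1451_an
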