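import Pool.Agent.Lib.MP_bd1451_an.TailsDef
import Pool.Agent.Lib.MP_bd1451_an.Nets

/-!
# MP_bd1451_an: union bounds over nets
-/

set_option autoImplicit false
open scoped BigOperators RealInnerProductSpace
open MeasureTheory Module

namespace Pool.Agent.Lib.MP_bd1451_an

variable {N d : ℕ}

/-- the value at `Z` of the random linear map `V → ℝ^A` attached to `G` -/
noncomputable def val {V : Type} [AddCommGroup V] [Module ℝ V] {A : Type}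
    (G : V →ₗ[ℝ] (A → Fin N → E d)) (B : Fin N → E d) (Z : V) (a : A) : ℝ :=
  ∑ ω, ⟪B ω, G Z a ω⟫

/-- the random linear map -/
noncomputable def TB {V : Type} [NormedAddCommGroup V] [NormedSpace ℝ V] [FiniteDimensional ℝ V]
    {A : Type} [Fintype A] (G : V →ₗ[ℝ] (A → Fin N → E d)) (B : Fin N → E d) :
    V →L[ℝ] EuclideanSpace ℝ A :=
  LinearMap.toContinuousLinearMap
    { toFun := fun Z => WithLp.toLp 2 (fun a => val G B Z a)
      map_add' := by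
        intro x y
        ext a
        simp only [val, map_add, Pi.add_apply, inner_add_right, Finset.sum_add_distrib,
          PiLp.add_apply]
      map_smul' := by
        intro c x
        ext a
        simp only [val, map_smul, Pi.smul_apply, inner_smul_right, Finset.mul_sum,
          PiLp.smul_apply, smul_eq_mul, RingHom.id_apply] }

theorem TB_norm_sq {V : Type} [NormedAddCommGroup V] [NormedSpace ℝ V] [FiniteDimensional ℝ V]
    {A : Type} [Fintype A] (G : V →ₗ[ℝ] (A → Fin N → E d)) (B : Fin N → E d) (Z : V) :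
    ‖TB G B Z‖ ^ 2 = ∑ a, (val G B Z a) ^ 2 := by
  rw [EuclideanSpace.norm_sq_eq]
  refine Finset.sum_congr rfl fun a _ => ?_
  rw [Real.norm_eq_abs, sq_abs]
  rfl

attribute [irreducible] TB

theorem biUnion_le {Ω V : Type*} [MeasurableSpace Ω] (P : Measure Ω) [IsProbabilityMeasure P]
    (s : Finset V) (F : V → Set Ω) (c : ℝ) (h : ∀ u ∈ s, P.real (F u) ≤ c) :
    P.real (⋃ u ∈ s, F u) ≤ s.card * c := by
  calc P.real (⋃ u ∈ s, F u) ≤ ∑ u ∈ s, P.real (F u) := measureReal_biUnion_finset_le s F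
    _ ≤ ∑ _u ∈ s, c := Finset.sum_le_sum h
    _ = s.card * c := by rw [Finset.sum_const, nsmul_eq_mul]

/-- union bound, upper tail -/
theorem upper_net {P : Measure (Fin N → E d)} (hP : Tails P) {V : Type}
    [NormedAddCommGroup V] [NormedSpace ℝ V] [FiniteDimensional ℝ V] (A : Type) [Fintype A]
    (G : V →ₗ[ℝ] (A → Fin N → E d))
    (hG : ∀ Z : V, ‖Z‖ ≤ 1 → ∀ c : A → ℝ, ∑ ω, ‖∑ a, c a • G Z a ω‖ ^ 2 ≤ ∑ a, c a ^ 2)
    (y : ℝ) (hy : 0 ≤ y) :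
    P.real {B | ¬ ∀ Z : V, ‖Z‖ ≤ 1 → ∑ a, (val G B Z a) ^ 2 ≤ 4 * y} ≤
      5 ^ (finrank ℝ V) * (Real.exp (-y / 4) * (Real.sqrt 2) ^ (Fintype.card A)) := by
  have := hP.prob
  obtain ⟨s, hs, hs1, hs2⟩ := net_ball V
  have hsub : {B | ¬ ∀ Z : V, ‖Z‖ ≤ 1 → ∑ a, (val G B Z a) ^ 2 ≤ 4 * y} ⊆
      ⋃ u ∈ s, {B | y ≤ ∑ a, (∑ ω, ⟪B ω, G u a ω⟫) ^ 2} := by
    intro B hB
    by_contra hcon
    simp only [Set.mem_iUnion, not_exists] at hcon
    apply hB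
    intro Z hZ
    have h1 : ‖TB G B‖ ≤ 2 * Real.sqrt y := by
      refine op_of_net (TB G B) s (Real.sqrt y) (Real.sqrt_nonneg _) hs2 ?_
      intro u hu
      have h2 : ∑ a, (val G B u a) ^ 2 < y := not_le.1 (hcon u hu)
      rw [← TB_norm_sq] at h2
      exact (Real.le_sqrt (norm_nonneg _) hy).2 h2.le
    have h3 : ‖TB G B Z‖ ≤ 2 * Real.sqrt y :=
      ((TB G B).le_opNorm Z).trans (by
        calc ‖TB G B‖ * ‖Z‖ ≤ ‖TB G B‖ * 1 := mul_le_mul_of_nonneg_left hZ (norm_nonneg _)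
          _ ≤ 2 * Real.sqrt y := by linarith)
    rw [← TB_norm_sq]
    calc ‖TB G B Z‖ ^ 2 ≤ (2 * Real.sqrt y) ^ 2 := pow_le_pow_left₀ (norm_nonneg _) h3 2
      _ = 4 * y := by rw [mul_pow, Real.sq_sqrt hy]; norm_num
  calc P.real {B | ¬ ∀ Z : V, ‖Z‖ ≤ 1 → ∑ a, (val G B Z a) ^ 2 ≤ 4 * y}
      ≤ P.real (⋃ u ∈ s, {B | y ≤ ∑ a, (∑ ω, ⟪B ω, G u a ω⟫) ^ 2}) := measureReal_mono hsub (measure_ne_top _ _)
    _ ≤ ∑ u ∈ s, P.real {B | y ≤ ∑ a, (∑ ω, ⟪B ω, G u a ω⟫) ^ 2} :=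
        measureReal_biUnion_finset_le _ _
    _ ≤ ∑ _u ∈ s, (Real.exp (-y / 4) * (Real.sqrt 2) ^ (Fintype.card A)) :=
        Finset.sum_le_sum fun u hu => hP.up A (G u) (hG u (hs1 u hu)) y
    _ = s.card * (Real.exp (-y / 4) * (Real.sqrt 2) ^ (Fintype.card A)) := by
        rw [Finset.sum_const, nsmul_eq_mul]
    _ ≤ 5 ^ (finrank ℝ V) * (Real.exp (-y / 4) * (Real.sqrt 2) ^ (Fintype.card A)) := by
        refine mul_le_mul_of_nonneg_right ?_ (by positivity)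
        exact_mod_cast hs

/-- union bound, lower tail -/
theorem lower_net {P : Measure (Fin N → E d)} (hP : Tails P) {V : Type}
    [NormedAddCommGroup V] [NormedSpace ℝ V] [FiniteDimensional ℝ V] (A : Type) [Fintype A]
    (G : V →ₗ[ℝ] (A → Fin N → E d))
    (hG : ∀ Z : V, ‖Z‖ ≤ 1 → ∀ c : A → ℝ, ∑ ω, ‖∑ a, c a • G Z a ω‖ ^ 2 ≤ ∑ a, c a ^ 2)
    (K : Set V) (hK : ∀ Z ∈ K, ‖Z‖ ≤ 1)
    (hK' : ∀ Z ∈ K, ∀ c : A → ℝ, ∑ ω, ‖∑ a, c a • G Z a ω‖ ^ 2 = ∑ a, c a ^ 2) :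
    P.real {B | ¬ ∀ Z ∈ K, (Fintype.card A : ℝ) / 20 ≤ ∑ a, (val G B Z a) ^ 2} ≤
      5 ^ (finrank ℝ V) * (Real.exp (-4 * Fintype.card A) * (Real.sqrt 2) ^ (Fintype.card A)) +
      5 ^ (7 * finrank ℝ V) * Real.exp (-(59 / 100) * Fintype.card A) := by
  have := hP.prob
  have hlo := hP.lo A
  obtain ⟨n, hn⟩ : ∃ n : ℝ, n = (Fintype.card A : ℝ) := ⟨_, rfl⟩
  rw [← hn] at hlo ⊢
  have hn0 : 0 ≤ n := hn ▸ Nat.cast_nonneg _
  obtain ⟨s, hs, hs1, hs2⟩ := net_sub V K hK 7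
  have hsub : {B | ¬ ∀ Z ∈ K, n / 20 ≤ ∑ a, (val G B Z a) ^ 2} ⊆
      {B | ¬ ∀ Z : V, ‖Z‖ ≤ 1 → ∑ a, (val G B Z a) ^ 2 ≤ 4 * (16 * n)} ∪
      ⋃ u ∈ s, {B | ∑ a, (∑ ω, ⟪B ω, G u a ω⟫) ^ 2 ≤ n / 8} := by
    intro B hB
    by_contra hcon
    rw [Set.mem_union, not_or] at hcon
    obtain ⟨hc1, hc2⟩ := hcon
    simp only [Set.mem_iUnion, not_exists] at hc2
    have hc1' : ∀ Z : V, ‖Z‖ ≤ 1 → ∑ a, (val G B Z a) ^ 2 ≤ 4 * (16 * n) := not_not.1 hc1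
    apply hB
    intro Z hZ
    obtain ⟨u, hu, hZu⟩ := hs2 Z hZ
    have h1 : n / 8 < ‖TB G B u‖ ^ 2 := by
      rw [TB_norm_sq]; exact not_le.1 (hc2 u hu)
    have hop : ‖TB G B‖ ≤ 8 * Real.sqrt n := by
      refine ContinuousLinearMap.opNorm_le_of_unit_norm (by positivity) ?_
      intro x hx
      have h2 := hc1' x hx.le
      rw [← TB_norm_sq] at h2
      have h3 : ‖TB G B x‖ ≤ Real.sqrt (4 * (16 * n)) :=
        (Real.le_sqrt (norm_nonneg _) (by positivity)).2 h2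
      have h4 : Real.sqrt (4 * (16 * n)) = 8 * Real.sqrt n := by
        rw [show (4 * (16 * n)) = 8 ^ 2 * n by ring, Real.sqrt_mul (by positivity),
          Real.sqrt_sq (by norm_num)]
      rwa [h4] at h3
    have h5 : ‖TB G B (Z - u)‖ ≤ Real.sqrt n / 8 := by
      refine ((TB G B).le_opNorm _).trans ?_
      have : ‖Z - u‖ ≤ 1 / 64 := hZu.trans (by norm_num)
      calc ‖TB G B‖ * ‖Z - u‖ ≤ (8 * Real.sqrt n) * (1 / 64) :=
            mul_le_mul hop this (norm_nonneg _) (by positivity)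
        _ = Real.sqrt n / 8 := by ring
    have h6 : (7 / 20 : ℝ) * Real.sqrt n ≤ ‖TB G B u‖ := by
      apply abs_le_of_sq_le_sq' _ (norm_nonneg _) |>.2
      rw [mul_pow, Real.sq_sqrt hn0]
      nlinarith
    have h7 : ‖TB G B u‖ ≤ ‖TB G B Z‖ + ‖TB G B (Z - u)‖ := by
      have h70 := norm_sub_le (TB G B Z) (TB G B (Z - u))
      rwa [← map_sub, sub_sub_cancel] at h70
    have h8 : (9 / 40 : ℝ) * Real.sqrt n ≤ ‖TB G B Z‖ := by linarith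
    rw [← TB_norm_sq]
    calc n / 20 ≤ (9 / 40 : ℝ) ^ 2 * n := by nlinarith
      _ = ((9 / 40 : ℝ) * Real.sqrt n) ^ 2 := by rw [mul_pow, Real.sq_sqrt hn0]
      _ ≤ ‖TB G B Z‖ ^ 2 := pow_le_pow_left₀ (by positivity) h8 2
  have hup := upper_net hP A G hG (16 * n) (by positivity)
  have he : -(16 * n) / 4 = -4 * n := by ring
  rw [he] at hup
  calc P.real {B | ¬ ∀ Z ∈ K, n / 20 ≤ ∑ a, (val G B Z a) ^ 2}
      ≤ P.real ({B | ¬ ∀ Z : V, ‖Z‖ ≤ 1 → ∑ a, (val G B Z a) ^ 2 ≤ 4 * (16 * n)} ∪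
        ⋃ u ∈ s, {B | ∑ a, (∑ ω, ⟪B ω, G u a ω⟫) ^ 2 ≤ n / 8}) := measureReal_mono hsub (measure_ne_top _ _)
    _ ≤ P.real {B | ¬ ∀ Z : V, ‖Z‖ ≤ 1 → ∑ a, (val G B Z a) ^ 2 ≤ 4 * (16 * n)} +
        P.real (⋃ u ∈ s, {B | ∑ a, (∑ ω, ⟪B ω, G u a ω⟫) ^ 2 ≤ n / 8}) :=
        measureReal_union_le _ _
    _ ≤ _ := by
        refine add_le_add hup ?_
        refine (biUnion_le P s _ (Real.exp (-(59 / 100) * n)) ?_).trans ?_
        · intro u hu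
          exact hlo (G u) (hK' u (hs1 u hu))
        · refine mul_le_mul_of_nonneg_right ?_ (Real.exp_nonneg _)
          exact_mod_cast hs

end Pool.Agent.Lib.MP_bd1451_an
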